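import Pool.Agent.N282.LU.Stm
import Pool.Agent.N282.GC.Pair

/-!
# Project LU: Bonami's inequality for even moments, as a count (helper945)
-/

set_option autoImplicit false

open Finset

namespace Pool.Agent.N282.LU

open Pool.Agent.N282.GC

theorem bon_even_sum (f : ℕ → ℝ) (k : ℕ) :
    ∑ m ∈ range (2 * k + 1), f m * (1 + (-1) ^ m) = 2 * ∑ j ∈ range (k + 1), f (2 * j) := by
  induction k with
  | zero => simp; ring
  | succ k ih =>
    rw [show 2 * (k + 1) + 1 = (2 * k + 1) + 1 + 1 by ring, sum_range_succ, sum_range_succ, ih,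
      sum_range_succ _ (k + 1)]
    have h1 : (-1 : ℝ) ^ (2 * k + 1) = -1 := by rw [pow_succ, pow_mul]; norm_num
    have h2 : (-1 : ℝ) ^ (2 * k + 1 + 1) = 1 := by rw [pow_succ, h1]; norm_num
    rw [h1, h2, show 2 * (k + 1) = 2 * k + 1 + 1 by ring]
    ring

/-- the two point inequality -/
theorem bon_two (k : ℕ) (a b : ℝ) :
    (a + b) ^ (2 * k) + (a - b) ^ (2 * k) ≤ 2 * (a ^ 2 + 4 * (k : ℝ) ^ 2 * b ^ 2) ^ k := by
  have h1 : (a + b) ^ (2 * k) + (a - b) ^ (2 * k) =
      ∑ m ∈ range (2 * k + 1), (b ^ m * a ^ (2 * k - m) * ((2 * k).choose m : ℝ)) * (1 + (-1) ^ m) := by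
    rw [add_comm a b, show a - b = -b + a by ring, add_pow, add_pow, ← sum_add_distrib]
    refine sum_congr rfl fun m _ => ?_
    rw [neg_pow b m]
    ring
  rw [h1, bon_even_sum, add_comm (a ^ 2), add_pow]
  refine mul_le_mul_of_nonneg_left (sum_le_sum fun j hj => ?_) (by norm_num)
  have hj' : j ≤ k := by
    rw [mem_range] at hj
    omega
  have h2 : ((2 * k).choose (2 * j) : ℝ) ≤ (4 * (k : ℝ) ^ 2) ^ j * (k.choose j : ℝ) := by
    have h3 : (2 * k).choose (2 * j) ≤ (4 * k ^ 2) ^ j := by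
      refine (Nat.choose_le_pow _ _).trans (le_of_eq ?_)
      rw [pow_mul]
      congr 1
      ring
    have h4 : 1 ≤ k.choose j := Nat.choose_pos hj'
    calc ((2 * k).choose (2 * j) : ℝ) ≤ (((4 * k ^ 2) ^ j : ℕ) : ℝ) := by exact_mod_cast h3
      _ ≤ (((4 * k ^ 2) ^ j : ℕ) : ℝ) * (k.choose j : ℝ) := by
          refine le_mul_of_one_le_right (Nat.cast_nonneg _) ?_
          exact_mod_cast h4
      _ = _ := by push_cast; ring
  have h5 : 0 ≤ b ^ (2 * j) * a ^ (2 * k - 2 * j) := by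
    rw [← Nat.mul_sub, pow_mul, pow_mul]
    positivity
  calc b ^ (2 * j) * a ^ (2 * k - 2 * j) * ((2 * k).choose (2 * j) : ℝ)
      ≤ b ^ (2 * j) * a ^ (2 * k - 2 * j) * ((4 * (k : ℝ) ^ 2) ^ j * (k.choose j : ℝ)) :=
        mul_le_mul_of_nonneg_left h2 h5
    _ = (4 * (k : ℝ) ^ 2 * b ^ 2) ^ j * (a ^ 2) ^ (k - j) * (k.choose j : ℝ) := by
        rw [← Nat.mul_sub, pow_mul, pow_mul a, mul_pow]
        ring

/-- Minkowski's inequality -/
theorem bon_mink {ι : Type} (s : Finset ι) (k : ℕ) (hk : 1 ≤ k) (f g : ι → ℝ)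
    (hf : ∀ i ∈ s, 0 ≤ f i) (hg : ∀ i ∈ s, 0 ≤ g i) {M a b : ℝ} (hM : 0 ≤ M) (ha : 0 ≤ a)
    (hb : 0 ≤ b) (h1 : ∑ i ∈ s, f i ^ k ≤ M * a ^ k) (h2 : ∑ i ∈ s, g i ^ k ≤ M * b ^ k) :
    ∑ i ∈ s, (f i + g i) ^ k ≤ M * (a + b) ^ k := by
  have hk' : (1 : ℝ) ≤ k := by exact_mod_cast hk
  have hk0 : (k : ℝ) ≠ 0 := by positivity
  have h3 := Real.Lp_add_le_of_nonneg s hk' hf hg
  simp only [Real.rpow_natCast] at h3
  have e : ∀ c : ℝ, 0 ≤ c → (M * c ^ k) ^ (1 / (k : ℝ)) = M ^ (1 / (k : ℝ)) * c := by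
    intro c hc
    rw [Real.mul_rpow hM (pow_nonneg hc k), ← Real.rpow_natCast c k, ← Real.rpow_mul hc,
      mul_one_div_cancel hk0, Real.rpow_one]
  have h4 : (∑ i ∈ s, f i ^ k) ^ (1 / (k : ℝ)) ≤ M ^ (1 / (k : ℝ)) * a := by
    rw [← e a ha]
    exact Real.rpow_le_rpow (sum_nonneg fun i hi => pow_nonneg (hf i hi) k) h1 (by positivity)
  have h5 : (∑ i ∈ s, g i ^ k) ^ (1 / (k : ℝ)) ≤ M ^ (1 / (k : ℝ)) * b := by
    rw [← e b hb]
    exact Real.rpow_le_rpow (sum_nonneg fun i hi => pow_nonneg (hg i hi) k) h2 (by positivity)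
  have h6 : (∑ i ∈ s, (f i + g i) ^ k) ^ (1 / (k : ℝ)) ≤ (M * (a + b) ^ k) ^ (1 / (k : ℝ)) := by
    rw [e _ (add_nonneg ha hb), mul_add]
    exact h3.trans (add_le_add h4 h5)
  refine (Real.rpow_le_rpow_iff ?_ (by positivity) (by positivity)).1 h6
  exact sum_nonneg fun i hi => pow_nonneg (add_nonneg (hf i hi) (hg i hi)) k

/-- the function with the Walsh coefficients `c` -/
noncomputable def bonW (Q : Finset ℕ) (c : Finset ℕ → ℝ) (T : Finset ℕ) : ℝ :=
  ∑ S ∈ Q.powerset, c S * (-1) ^ (S ∩ T).card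

noncomputable def bonN (k : ℕ) (Q : Finset ℕ) (c : Finset ℕ → ℝ) : ℝ :=
  ∑ S ∈ Q.powerset, (4 * (k : ℝ) ^ 2) ^ S.card * c S ^ 2

theorem bonN_nonneg (k : ℕ) (Q : Finset ℕ) (c : Finset ℕ → ℝ) : 0 ≤ bonN k Q c :=
  sum_nonneg fun S _ => by positivity

theorem bonW_ins1 {p : ℕ} {Q T : Finset ℕ} (hp : p ∉ Q) (hT : T ⊆ Q) (c : Finset ℕ → ℝ) :
    bonW (insert p Q) c T = bonW Q c T + bonW Q (fun S => c (insert p S)) T := by
  unfold bonW
  rw [sum_powerset_insert hp]
  congr 1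
  refine sum_congr rfl fun S _ => ?_
  rw [insert_inter_of_notMem fun h => hp (hT h)]

theorem bonW_ins2 {p : ℕ} {Q T : Finset ℕ} (hp : p ∉ Q) (hT : T ⊆ Q) (c : Finset ℕ → ℝ) :
    bonW (insert p Q) c (insert p T) = bonW Q c T - bonW Q (fun S => c (insert p S)) T := by
  unfold bonW
  rw [sum_powerset_insert hp, sub_eq_add_neg, ← sum_neg_distrib]
  congr 1
  · refine sum_congr rfl fun S hS => ?_
    rw [mem_powerset] at hS
    rw [inter_insert_of_notMem fun h => hp (hS h)]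
  · refine sum_congr rfl fun S hS => ?_
    rw [← insert_inter_distrib, card_insert_of_notMem fun h => hp (hT (mem_inter.1 h).2), pow_succ]
    ring

theorem bonN_ins {p : ℕ} {Q : Finset ℕ} (hp : p ∉ Q) (k : ℕ) (c : Finset ℕ → ℝ) :
    bonN k (insert p Q) c = bonN k Q c + 4 * (k : ℝ) ^ 2 * bonN k Q (fun S => c (insert p S)) := by
  unfold bonN
  rw [sum_powerset_insert hp, mul_sum]
  congr 1
  refine sum_congr rfl fun S hS => ?_
  rw [mem_powerset] at hS
  rw [card_insert_of_notMem fun h => hp (hS h), pow_succ]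
  ring

theorem bon_gen (k : ℕ) (hk : 1 ≤ k) (Q : Finset ℕ) : ∀ c : Finset ℕ → ℝ,
    ∑ T ∈ Q.powerset, bonW Q c T ^ (2 * k) ≤ 2 ^ Q.card * bonN k Q c ^ k := by
  induction Q using Finset.induction_on with
  | empty =>
    intro c
    simp [bonW, bonN, pow_mul]
  | insert p Q hp ih =>
    intro c
    rw [sum_powerset_insert hp, ← sum_add_distrib]
    have h1 : ∀ T ∈ Q.powerset, bonW (insert p Q) c T ^ (2 * k) +
        bonW (insert p Q) c (insert p T) ^ (2 * k) ≤
        2 * (bonW Q c T ^ 2 + 4 * (k : ℝ) ^ 2 * bonW Q (fun S => c (insert p S)) T ^ 2) ^ k := by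
      intro T hT
      rw [mem_powerset] at hT
      rw [bonW_ins1 hp hT, bonW_ins2 hp hT]
      exact bon_two k _ _
    refine (sum_le_sum h1).trans ?_
    have h6 : (2 : ℝ) ^ (Q.card + 1) = 2 * 2 ^ Q.card := by ring
    rw [← mul_sum, card_insert_of_notMem hp, h6, bonN_ins hp]
    have h2 := ih c
    have h3 := ih (fun S => c (insert p S))
    have h4 := bon_mink Q.powerset k hk (fun T => bonW Q c T ^ 2)
      (fun T => 4 * (k : ℝ) ^ 2 * bonW Q (fun S => c (insert p S)) T ^ 2)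
      (fun _ _ => by positivity) (fun _ _ => by positivity) (M := 2 ^ Q.card)
      (a := bonN k Q c) (b := 4 * (k : ℝ) ^ 2 * bonN k Q (fun S => c (insert p S)))
      (by positivity) (bonN_nonneg _ _ _) (mul_nonneg (by positivity) (bonN_nonneg _ _ _))
      (by
        simp only [← pow_mul]
        exact h2)
      (by
        simp only [mul_pow _ _ k, ← pow_mul _ 2 k]
        rw [← mul_sum]
        have h5 := mul_le_mul_of_nonneg_left h3 (by positivity : (0 : ℝ) ≤ 4 ^ k * (k : ℝ) ^ (2 * k))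
        linarith)
    rw [mul_assoc]
    exact mul_le_mul_of_nonneg_left h4 (by norm_num)

/-- sums of the characters -/
theorem bon_char {K : ℕ} (Q : Finset ℕ) (hQ : ∀ p ∈ Q, p.Prime) (t : Fin K → ℕ)
    (ht : ∀ i, Squarefree (t i)) :
    0 ≤ ∑ T ∈ Q.powerset, ∏ i, (-1 : ℝ) ^ ((t i).primeFactors ∩ T).card ∧
    (IsSquare (∏ i, t i) →
      ∑ T ∈ Q.powerset, ∏ i, (-1 : ℝ) ^ ((t i).primeFactors ∩ T).card = 2 ^ Q.card) := by
  classical
  set e : ℕ → ℕ := fun p => (univ.filter fun i => p ∣ t i).card with he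
  have h1 : ∀ T ∈ Q.powerset, ∏ i, (-1 : ℝ) ^ ((t i).primeFactors ∩ T).card =
      ∏ p ∈ T, (-1 : ℝ) ^ e p := by
    intro T hT
    rw [mem_powerset] at hT
    have h2 : ∀ i, (-1 : ℝ) ^ ((t i).primeFactors ∩ T).card =
        ∏ p ∈ T, if p ∣ t i then (-1 : ℝ) else 1 := by
      intro i
      rw [prod_ite, prod_const, prod_const_one, mul_one]
      congr 2
      ext p
      rw [mem_inter, mem_filter, Nat.mem_primeFactors]
      constructor
      · rintro ⟨⟨h3, h4, h5⟩, h6⟩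
        exact ⟨h6, h4⟩
      · rintro ⟨h6, h4⟩
        exact ⟨⟨hQ p (hT h6), h4, (ht i).ne_zero⟩, h6⟩
    rw [prod_congr rfl fun i _ => h2 i, prod_comm]
    refine prod_congr rfl fun p _ => ?_
    rw [prod_ite, prod_const, prod_const_one, mul_one]
  have h2 : ∑ T ∈ Q.powerset, ∏ i, (-1 : ℝ) ^ ((t i).primeFactors ∩ T).card =
      ∏ p ∈ Q, (1 + (-1 : ℝ) ^ e p) := by
    rw [sum_congr rfl h1, prod_one_add]
  rw [h2]
  constructor
  · refine prod_nonneg fun p _ => ?_
    rcases Nat.even_or_odd (e p) with h | h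
    · rw [h.neg_one_pow]
      norm_num
    · rw [h.neg_one_pow]
      norm_num
  · intro hsq
    have h3 : ∀ p ∈ Q, 1 + (-1 : ℝ) ^ e p = 2 := by
      intro p hp
      have h4 : Even (e p) := by
        have h5 := PAIR_fact t ht (hQ p hp)
        obtain ⟨r, hr⟩ := hsq
        have hr0 : r ≠ 0 := by
          rintro rfl
          rw [mul_zero, prod_eq_zero_iff] at hr
          obtain ⟨i, -, hi⟩ := hr
          exact (ht i).ne_zero hi
        rw [hr, Nat.factorization_mul hr0 hr0, Finsupp.add_apply] at h5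
        rw [he]
        simp only
        rw [← h5]
        exact ⟨_, rfl⟩
      rw [h4.neg_one_pow]
      norm_num
    rw [prod_congr rfl h3, prod_const]

/-- BON -/
theorem t_BON : S_BON := by
  classical
  intro k A hA
  rcases Nat.eq_zero_or_pos k with rfl | hk
  · rw [pow_zero]
    refine (card_filter_le _ _).trans ?_
    unfold tup
    rw [Fintype.card_piFinset]
    simp
  set Q : Finset ℕ := A.biUnion Nat.primeFactors with hQd
  have hQ : ∀ p ∈ Q, p.Prime := by
    intro p hp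
    rw [hQd, mem_biUnion] at hp
    obtain ⟨a, -, ha⟩ := hp
    exact Nat.prime_of_mem_primeFactors ha
  set c : Finset ℕ → ℝ := fun S => ((A.filter fun a => a.primeFactors = S).card : ℝ) with hc
  have hmaps : ∀ a ∈ A, a.primeFactors ∈ Q.powerset := by
    intro a ha
    rw [mem_powerset]
    exact subset_biUnion_of_mem Nat.primeFactors ha
  have hW : ∀ T, bonW Q c T = ∑ a ∈ A, (-1 : ℝ) ^ (a.primeFactors ∩ T).card := by
    intro T
    unfold bonW
    rw [← sum_fiberwise_of_maps_to hmaps]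
    refine sum_congr rfl fun S _ => ?_
    have h1 : ∑ a ∈ A with a.primeFactors = S, (-1 : ℝ) ^ (a.primeFactors ∩ T).card =
        ∑ a ∈ A with a.primeFactors = S, (-1 : ℝ) ^ (S ∩ T).card := by
      refine sum_congr rfl fun a ha => ?_
      rw [mem_filter] at ha
      rw [ha.2]
    rw [h1, sum_const, nsmul_eq_mul]
  have hinj : ∀ a ∈ A, ∀ b ∈ A, a.primeFactors = b.primeFactors → a = b := by
    intro a ha b hb hab
    rw [← Nat.prod_primeFactors_of_squarefree (hA a ha),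
      ← Nat.prod_primeFactors_of_squarefree (hA b hb), hab]
  have hc2 : ∀ S, c S ^ 2 = c S := by
    intro S
    have h1 : (A.filter fun a => a.primeFactors = S).card ≤ 1 := by
      rw [card_le_one]
      intro a ha b hb
      rw [mem_filter] at ha hb
      exact hinj a ha.1 b hb.1 (ha.2.trans hb.2.symm)
    rw [hc]
    simp only
    interval_cases h : (A.filter fun a => a.primeFactors = S).card
    · norm_num
    · norm_num
  have hN : bonN k Q c = ∑ a ∈ A, (4 * (k : ℝ) ^ 2) ^ a.primeFactors.card := by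
    unfold bonN
    rw [← sum_fiberwise_of_maps_to hmaps]
    refine sum_congr rfl fun S _ => ?_
    have h1 : ∑ a ∈ A with a.primeFactors = S, (4 * (k : ℝ) ^ 2) ^ a.primeFactors.card =
        ∑ a ∈ A with a.primeFactors = S, (4 * (k : ℝ) ^ 2) ^ S.card := by
      refine sum_congr rfl fun a ha => ?_
      rw [mem_filter] at ha
      rw [ha.2]
    rw [h1, sum_const, nsmul_eq_mul, hc2, mul_comm]
  have hgen := bon_gen k hk Q c
  have hexp : ∑ T ∈ Q.powerset, bonW Q c T ^ (2 * k) =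
      ∑ t ∈ tup (2 * k) A, ∑ T ∈ Q.powerset, ∏ i, (-1 : ℝ) ^ ((t i).primeFactors ∩ T).card := by
    rw [sum_comm]
    refine sum_congr rfl fun T _ => ?_
    rw [hW]
    have h1 := prod_univ_sum (fun _ : Fin (2 * k) => A)
      (fun _ a => (-1 : ℝ) ^ (a.primeFactors ∩ T).card)
    rw [prod_const, card_univ, Fintype.card_fin] at h1
    exact h1
  have htA : ∀ t ∈ tup (2 * k) A, ∀ i, Squarefree (t i) := by
    intro t ht i
    unfold tup at ht
    rw [Fintype.mem_piFinset] at ht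
    exact hA _ (ht i)
  have hlow : (2 : ℝ) ^ Q.card * (((tup (2 * k) A).filter fun a => IsSquare (∏ i, a i)).card : ℝ) ≤
      ∑ T ∈ Q.powerset, bonW Q c T ^ (2 * k) := by
    rw [hexp]
    refine le_trans ?_ (sum_le_sum_of_subset_of_nonneg (filter_subset
      (fun a => IsSquare (∏ i, a i)) _) fun t ht _ => (bon_char Q hQ t (htA t ht)).1)
    rw [sum_congr rfl fun t ht => (bon_char Q hQ t (htA t (mem_filter.1 ht).1)).2
      (mem_filter.1 ht).2, sum_const, nsmul_eq_mul, mul_comm]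
  have h2 := hlow.trans hgen
  have h3 := le_of_mul_le_mul_left h2 (by positivity)
  rw [hN] at h3
  have h4 : (((tup (2 * k) A).filter fun a => IsSquare (∏ i, a i)).card : ℝ) ≤
      (((∑ a ∈ A, (4 * k ^ 2) ^ a.primeFactors.card) ^ k : ℕ) : ℝ) := by
    push_cast
    exact h3
  exact_mod_cast h4

end Pool.Agent.N282.LU
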