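import Pool.Agent.N282.LU.Stm

/-!
# Project LU: from moments to sums over all windows (helper282)
-/

set_option autoImplicit false

open MeasureTheory Filter Topology Classical

namespace Pool.Agent.N282.LU

open Pool.Agent.N282.GC

/-- power means -/
theorem Dt_avg (k H j : ℕ) (hk : 1 ≤ k) (F : ℕ → ℝ) (W : Finset (ℕ → ℂ)) (T E : ℝ)
    (hZ : ∑ n ∈ Finset.range (2 ^ j), Z k H W F n ≤ T * 2 ^ j) (y : ℕ → ℝ)
    (hy : ∀ n, ∃ w ∈ W, y n ≤ ‖∑ h ∈ Finset.Icc 1 H, w h * (F (n + h) : ℂ)‖ + E) :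
    ∑ n ∈ Finset.range (2 ^ j), y n ≤ 2 ^ j * (T ^ (1 / (2 * k : ℝ)) + E) := by
  choose w hw hyw using hy
  set v : ℕ → ℝ := fun n => ‖∑ h ∈ Finset.Icc 1 H, w n h * (F (n + h) : ℂ)‖ with hv
  have hv0 : ∀ n, 0 ≤ v n := fun n => norm_nonneg _
  have hvZ : ∀ n, v n ^ (2 * k) ≤ Z k H W F n := by
    intro n
    unfold Z
    exact Finset.single_le_sum (f := fun w => ‖∑ h ∈ Finset.Icc 1 H, w h * (F (n + h) : ℂ)‖ ^ (2 * k))
      (fun _ _ => by positivity) (hw n)
  have h2j : (0 : ℝ) < 2 ^ j := by positivity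
  have hmean := Real.pow_arith_mean_le_arith_mean_pow (Finset.range (2 ^ j)) (fun _ => (1 : ℝ) / 2 ^ j) v
    (fun _ _ => by positivity) (by
      rw [Finset.sum_const, Finset.card_range, nsmul_eq_mul]
      push_cast
      field_simp) (fun n _ => hv0 n) (2 * k)
  rw [← Finset.mul_sum, ← Finset.mul_sum] at hmean
  set A : ℝ := 1 / 2 ^ j * ∑ n ∈ Finset.range (2 ^ j), v n with hA
  have hA0 : 0 ≤ A := mul_nonneg (by positivity) (Finset.sum_nonneg fun n _ => hv0 n)
  have h1 : A ^ (2 * k) ≤ T := by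
    refine hmean.trans ?_
    have h2 : ∑ n ∈ Finset.range (2 ^ j), v n ^ (2 * k) ≤ T * 2 ^ j :=
      (Finset.sum_le_sum fun n _ => hvZ n).trans hZ
    calc 1 / 2 ^ j * ∑ n ∈ Finset.range (2 ^ j), v n ^ (2 * k) ≤ 1 / 2 ^ j * (T * 2 ^ j) :=
          mul_le_mul_of_nonneg_left h2 (by positivity)
      _ = T := by field_simp
  have hk0 : (0 : ℝ) < k := by exact_mod_cast hk
  have h3 : A ≤ T ^ (1 / (2 * k : ℝ)) := by
    have h4 : A = (A ^ (2 * k)) ^ (1 / (2 * k : ℝ)) := by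
      rw [← Real.rpow_natCast, ← Real.rpow_mul hA0]
      push_cast
      rw [mul_one_div_cancel (by positivity), Real.rpow_one]
    rw [h4]
    exact Real.rpow_le_rpow (by positivity) h1 (by positivity)
  have h5 : ∑ n ∈ Finset.range (2 ^ j), v n = 2 ^ j * A := by
    rw [hA]
    field_simp
  calc ∑ n ∈ Finset.range (2 ^ j), y n ≤ ∑ n ∈ Finset.range (2 ^ j), (v n + E) :=
        Finset.sum_le_sum fun n _ => hyw n
    _ = 2 ^ j * A + 2 ^ j * E := by
        rw [Finset.sum_add_distrib, h5, Finset.sum_const, Finset.card_range, nsmul_eq_mul]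
        push_cast
        ring
    _ ≤ 2 ^ j * (T ^ (1 / (2 * k : ℝ)) + E) := by
        rw [← mul_add]
        exact mul_le_mul_of_nonneg_left (by linarith) h2j.le

/-- all `N` -/
theorem Dt_sum (N : ℕ) (hN : 1 ≤ N) (Y : ℝ) (y : ℕ → ℝ) (hy : ∀ n, 0 ≤ y n)
    (h : ∀ j : ℕ, 2 ^ j ≤ 2 * N → ∑ n ∈ Finset.range (2 ^ j), y n ≤ 2 ^ j * Y) :
    ∑ n ∈ Finset.Icc 1 N, y n ≤ 2 * N * Y := by
  have hY : 0 ≤ Y := by
    have := h 0 (by omega)
    simp at this
    exact (hy 0).trans this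
  set J := Nat.log 2 N with hJ
  have h1 : 2 ^ J ≤ N := Nat.pow_log_le_self 2 (by omega)
  have h2 : N < 2 ^ (J + 1) := Nat.lt_pow_succ_log_self (by norm_num) N
  have h3 : 2 ^ (J + 1) ≤ 2 * N := by rw [pow_succ]; omega
  calc ∑ n ∈ Finset.Icc 1 N, y n ≤ ∑ n ∈ Finset.range (2 ^ (J + 1)), y n := by
        refine Finset.sum_le_sum_of_subset_of_nonneg ?_ fun n _ _ => hy n
        intro n hn
        rw [Finset.mem_Icc] at hn
        rw [Finset.mem_range]
        omega
    _ ≤ 2 ^ (J + 1) * Y := h (J + 1) h3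
    _ ≤ 2 * N * Y := by
        refine mul_le_mul_of_nonneg_right ?_ hY
        exact_mod_cast h3

/-- all `N`, logarithmic weights -/
theorem Dt_log (N : ℕ) (hN : 2 ≤ N) (Y : ℝ) (y : ℕ → ℝ) (hy : ∀ n, 0 ≤ y n)
    (h : ∀ j : ℕ, 2 ^ j ≤ 2 * N → ∑ n ∈ Finset.range (2 ^ j), y n ≤ 2 ^ j * Y) :
    ∑ n ∈ Finset.Icc 1 N, y n / n ≤ 8 * Real.log N * Y := by
  have hY : 0 ≤ Y := by
    have := h 0 (by omega)
    simp at this
    exact (hy 0).trans this
  set J := Nat.log 2 N with hJ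
  have h1 : 2 ^ J ≤ N := Nat.pow_log_le_self 2 (by omega)
  have hmaps : ∀ n ∈ Finset.Icc 1 N, Nat.log 2 n ∈ Finset.range (J + 1) := by
    intro n hn
    rw [Finset.mem_Icc] at hn
    rw [Finset.mem_range]
    have := Nat.log_mono_right (b := 2) hn.2
    omega
  rw [← Finset.sum_fiberwise_of_maps_to hmaps]
  have hfib : ∀ i ∈ Finset.range (J + 1), ∑ n ∈ (Finset.Icc 1 N).filter (fun n => Nat.log 2 n = i), y n / n ≤ 2 * Y := by
    intro i hi
    rw [Finset.mem_range] at hi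
    have hi2 : 2 ^ (i + 1) ≤ 2 * N := by
      have : 2 ^ i ≤ 2 ^ J := Nat.pow_le_pow_right (by norm_num) (by omega)
      rw [pow_succ]
      omega
    have h2i : (0 : ℝ) < 2 ^ i := by positivity
    calc ∑ n ∈ (Finset.Icc 1 N).filter (fun n => Nat.log 2 n = i), y n / n
        ≤ ∑ n ∈ (Finset.Icc 1 N).filter (fun n => Nat.log 2 n = i), y n / 2 ^ i := by
          refine Finset.sum_le_sum fun n hn => ?_
          rw [Finset.mem_filter, Finset.mem_Icc] at hn
          refine div_le_div_of_nonneg_left (hy n) h2i ?_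
          have : 2 ^ i ≤ n := by
            rw [← hn.2]
            exact Nat.pow_log_le_self 2 (by omega)
          exact_mod_cast this
      _ = (∑ n ∈ (Finset.Icc 1 N).filter (fun n => Nat.log 2 n = i), y n) / 2 ^ i := by rw [Finset.sum_div]
      _ ≤ (∑ n ∈ Finset.range (2 ^ (i + 1)), y n) / 2 ^ i := by
          refine div_le_div_of_nonneg_right ?_ h2i.le
          refine Finset.sum_le_sum_of_subset_of_nonneg ?_ fun n _ _ => hy n
          intro n hn
          rw [Finset.mem_filter, Finset.mem_Icc] at hn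
          rw [Finset.mem_range, ← hn.2]
          exact Nat.lt_pow_succ_log_self (by norm_num) n
      _ ≤ (2 ^ (i + 1) * Y) / 2 ^ i := div_le_div_of_nonneg_right (h (i + 1) hi2) h2i.le
      _ = 2 * Y := by
          rw [pow_succ]
          field_simp
  refine (Finset.sum_le_sum hfib).trans ?_
  rw [Finset.sum_const, Finset.card_range, nsmul_eq_mul]
  have hl2 : (0.69 : ℝ) < Real.log 2 := by
    have := Real.log_two_gt_d9
    linarith
  have hN2 : (2 : ℝ) ≤ N := by exact_mod_cast hN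
  have hlN : Real.log 2 ≤ Real.log N := Real.log_le_log (by norm_num) hN2
  have hJl : (J : ℝ) * Real.log 2 ≤ Real.log N := by
    rw [← Real.log_pow]
    refine Real.log_le_log (by positivity) ?_
    exact_mod_cast h1
  have hJ0 : (0 : ℝ) ≤ J := Nat.cast_nonneg _
  have hJ4 : ((J + 1 : ℕ) : ℝ) ≤ 4 * Real.log N := by
    push_cast
    nlinarith
  calc ((J + 1 : ℕ) : ℝ) * (2 * Y) ≤ (4 * Real.log N) * (2 * Y) := mul_le_mul_of_nonneg_right hJ4 (by positivity)
    _ = 8 * Real.log N * Y := by ring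

end Pool.Agent.N282.LU
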