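import Pool.Agent.N282.LU.Stm

/-!
# Project LU: the moment method for windows (helper521)
-/

set_option autoImplicit false

open MeasureTheory Filter Topology Classical

namespace Pool.Agent.N282.LU

open Pool.Agent.N282.GC

/-- the real parts of the coefficients -/
noncomputable def Mm_rc (k : ℕ) (w : ℕ → ℂ) (a : Fin (2 * k) → ℕ) : ℝ :=
  (∏ i : Fin (2 * k), (if (i : ℕ) < k then w (a i) else (starRingEnd ℂ) (w (a i)))).re

theorem Mm_rc_le (k : ℕ) (w : ℕ → ℂ) (hw : ∀ h, ‖w h‖ ≤ 1) (a : Fin (2 * k) → ℕ) :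
    |Mm_rc k w a| ≤ 1 := by
  unfold Mm_rc
  refine (Complex.abs_re_le_norm _).trans ?_
  rw [norm_prod]
  refine Finset.prod_le_one (fun _ _ => norm_nonneg _) fun i _ => ?_
  split_ifs
  · exact hw _
  · rw [RCLike.norm_conj]
    exact hw _

theorem Mm_exp (k H : ℕ) (w : ℕ → ℂ) (G : ℕ → ℝ) :
    ‖∑ h ∈ Finset.Icc 1 H, w h * (G h : ℂ)‖ ^ (2 * k) =
      ∑ a ∈ tup (2 * k) (Finset.Icc 1 H), Mm_rc k w a * ∏ i, G (a i) := by
  set S : ℂ := ∑ h ∈ Finset.Icc 1 H, w h * (G h : ℂ) with hS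
  have h1 : ((‖S‖ ^ (2 * k) : ℝ) : ℂ) =
      ∏ i : Fin (2 * k), (if (i : ℕ) < k then S else (starRingEnd ℂ) S) := by
    have h2 := Fin.prod_univ_eq_prod_range
      (fun i : ℕ => if i < k then S else (starRingEnd ℂ) S) (2 * k)
    have e1 : ∏ i ∈ Finset.range k, (if i < k then S else (starRingEnd ℂ) S) = S ^ k := by
      rw [Finset.prod_congr rfl fun i hi => if_pos (Finset.mem_range.1 hi), Finset.prod_const,
        Finset.card_range]
    have e2 : ∏ i ∈ Finset.range k, (if k + i < k then S else (starRingEnd ℂ) S) =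
        (starRingEnd ℂ) S ^ k := by
      rw [Finset.prod_congr rfl fun i _ => if_neg (by omega), Finset.prod_const,
        Finset.card_range]
    rw [h2, two_mul, Finset.prod_range_add, e1, e2, ← mul_pow, Complex.mul_conj,
      Complex.normSq_eq_norm_sq, ← two_mul]
    push_cast
    rw [← pow_mul]
  have h3 : ∀ i : Fin (2 * k), (if (i : ℕ) < k then S else (starRingEnd ℂ) S) =
      ∑ h ∈ Finset.Icc 1 H, (if (i : ℕ) < k then w h else (starRingEnd ℂ) (w h)) * (G h : ℂ) := by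
    intro i
    split_ifs
    · rfl
    · rw [hS, map_sum]
      refine Finset.sum_congr rfl fun h _ => ?_
      rw [map_mul, Complex.conj_ofReal]
  have h4 : ((‖S‖ ^ (2 * k) : ℝ) : ℂ) = ∑ a ∈ tup (2 * k) (Finset.Icc 1 H),
      (∏ i : Fin (2 * k), (if (i : ℕ) < k then w (a i) else (starRingEnd ℂ) (w (a i)))) *
        ((∏ i, G (a i) : ℝ) : ℂ) := by
    rw [h1, Finset.prod_congr rfl fun i _ => h3 i, Finset.prod_univ_sum]
    unfold tup
    refine Finset.sum_congr rfl fun a _ => ?_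
    rw [Finset.prod_mul_distrib]
    push_cast
    rfl
  have h5 := congrArg Complex.re h4
  rw [Complex.ofReal_re, Complex.re_sum] at h5
  rw [h5]
  refine Finset.sum_congr rfl fun a _ => ?_
  rw [Complex.re_mul_ofReal]
  rfl

theorem Mm_tup_card (K H : ℕ) : (tup K (Finset.Icc 1 H)).card = H ^ K := by
  unfold tup
  rw [Fintype.card_piFinset]
  simp

/-- the tuples of shifts and the tuples of the window -/
theorem Mm_TT (K n H : ℕ) : ((tup K (Finset.Icc 1 H)).filter fun a =>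
    (∀ i, Squarefree (n + a i)) ∧ IsSquare (∏ i, (n + a i))).card ≤ TT K n H := by
  unfold TT
  refine Finset.card_le_card_of_injOn (fun a i => n + a i) ?_ ?_
  · intro a ha
    rw [Finset.mem_coe, Finset.mem_filter] at ha
    obtain ⟨h1, h2⟩ := ha
    unfold tup at h1
    rw [Fintype.mem_piFinset] at h1
    rw [Finset.mem_coe, Finset.mem_filter]
    refine ⟨?_, h2⟩
    unfold tup
    rw [Fintype.mem_piFinset]
    intro i
    have := Finset.mem_Icc.1 (h1 i)
    rw [Finset.mem_Ioc]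
    dsimp only
    omega
  · intro a _ b _ h
    funext i
    exact Nat.add_left_cancel (congrFun h i)

section

variable {Ω : Type} [MeasurableSpace Ω] (P : Measure Ω) [IsProbabilityMeasure P] (F : Ω → ℕ → ℝ)

omit [MeasurableSpace Ω] in
theorem Mm_prod_le (hb : ∀ ω n, |F ω n| ≤ 1) {L : ℕ} (a : Fin L → ℕ) (ω : Ω) :
    |∏ i, F ω (a i)| ≤ 1 := by
  rw [Finset.abs_prod]
  exact Finset.prod_le_one (fun _ _ => abs_nonneg _) fun i _ => hb _ _

theorem Mm_int (hm : ∀ n, Measurable fun ω => F ω n) (hb : ∀ ω n, |F ω n| ≤ 1) {L : ℕ}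
    (a : Fin L → ℕ) : Integrable (fun ω => ∏ i, F ω (a i)) P := by
  refine Integrable.of_bound (C := 1) ?_ ?_
  · exact (Finset.measurable_prod _ fun i _ => hm _).aestronglyMeasurable
  · exact Eventually.of_forall fun ω => Mm_prod_le F hb a ω

theorem Mm_int_le (hb : ∀ ω n, |F ω n| ≤ 1) {L : ℕ} (a : Fin L → ℕ) :
    |∫ ω, ∏ i, F ω (a i) ∂P| ≤ 1 := by
  have h := norm_integral_le_of_norm_le_const (μ := P) (C := 1)
    (f := fun ω => ∏ i, F ω (a i)) (Eventually.of_forall fun ω => by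
      rw [Real.norm_eq_abs]
      exact Mm_prod_le F hb a ω)
  simpa using h

/-- the mean of a product -/
theorem Mm_mean (hb : ∀ ω n, |F ω n| ≤ 1) (hns : ∀ ω n, ¬ Squarefree n → F ω n = 0) {δ : ℝ}
    (hδ : 0 ≤ δ) {L M : ℕ} (a : Fin L → ℕ) (hO : (∀ i, a i ≤ M) → (∀ i, Squarefree (a i)) →
      ¬ IsSquare (∏ i, a i) → |∫ ω, ∏ i, F ω (a i) ∂P| ≤ δ) (ha : ∀ i, a i ≤ M) :
    |∫ ω, ∏ i, F ω (a i) ∂P| ≤
      (if (∀ i, Squarefree (a i)) ∧ IsSquare (∏ i, a i) then 1 else 0) + δ := by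
  by_cases h1 : ∀ i, Squarefree (a i)
  · by_cases h2 : IsSquare (∏ i, a i)
    · rw [if_pos ⟨h1, h2⟩]
      have := Mm_int_le P F hb a
      linarith
    · rw [if_neg (fun h => h2 h.2), zero_add]
      exact hO ha h1 h2
  · rw [if_neg (fun h => h1 h.1), zero_add]
    push Not at h1
    obtain ⟨i, hi⟩ := h1
    have : ∀ ω, ∏ i, F ω (a i) = 0 := fun ω =>
      Finset.prod_eq_zero (Finset.mem_univ i) (hns ω _ hi)
    simp only [this, integral_zero, abs_zero]
    exact hδ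

end

/-- the index set -/
noncomputable def Mm_J (k N H : ℕ) (W : Finset (ℕ → ℂ)) :
    Finset (ℕ × (ℕ → ℂ) × (Fin (2 * k) → ℕ)) :=
  Finset.range N ×ˢ W ×ˢ tup (2 * k) (Finset.Icc 1 H)

/-- squarefree with square product -/
def Mm_Sq {k : ℕ} (t : ℕ × (ℕ → ℂ) × (Fin (2 * k) → ℕ)) : Prop :=
  (∀ i, Squarefree (t.1 + t.2.2 i)) ∧ IsSquare (∏ i, (t.1 + t.2.2 i))

/-- squarefree with product not a square -/
def Mm_Ns {k : ℕ} (t : ℕ × (ℕ → ℂ) × (Fin (2 * k) → ℕ)) : Prop :=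
  (∀ i, Squarefree (t.1 + t.2.2 i)) ∧ ¬ IsSquare (∏ i, (t.1 + t.2.2 i))

/-- one term -/
noncomputable def Mm_term (k : ℕ) (F : ℕ → ℝ) (t : ℕ × (ℕ → ℂ) × (Fin (2 * k) → ℕ)) : ℝ :=
  Mm_rc k t.2.1 t.2.2 * ∏ i, F (t.1 + t.2.2 i)

theorem Mm_Z (k H : ℕ) (W : Finset (ℕ → ℂ)) (F : ℕ → ℝ) (n : ℕ) : Z k H W F n =
    ∑ w ∈ W, ∑ a ∈ tup (2 * k) (Finset.Icc 1 H), Mm_rc k w a * ∏ i, F (n + a i) := by
  unfold Z
  exact Finset.sum_congr rfl fun w _ => Mm_exp k H w fun h => F (n + h)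

theorem Mm_sumZ (k N H : ℕ) (W : Finset (ℕ → ℂ)) (F : ℕ → ℝ) :
    ∑ n ∈ Finset.range N, Z k H W F n = ∑ t ∈ Mm_J k N H W, Mm_term k F t := by
  unfold Mm_J
  rw [Finset.sum_product]
  refine Finset.sum_congr rfl fun n _ => ?_
  rw [Mm_Z, Finset.sum_product]
  rfl

theorem Mm_split (k N H : ℕ) (W : Finset (ℕ → ℂ)) (F : ℕ → ℝ)
    (hns : ∀ n, ¬ Squarefree n → F n = 0) :
    ∑ t ∈ Mm_J k N H W, Mm_term k F t = ∑ t ∈ (Mm_J k N H W).filter Mm_Sq, Mm_term k F t +
      ∑ t ∈ (Mm_J k N H W).filter Mm_Ns, Mm_term k F t := by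
  rw [Finset.sum_filter, Finset.sum_filter, ← Finset.sum_add_distrib]
  refine Finset.sum_congr rfl fun t _ => ?_
  by_cases h1 : ∀ i, Squarefree (t.1 + t.2.2 i)
  · by_cases h2 : IsSquare (∏ i, (t.1 + t.2.2 i))
    · rw [if_pos ⟨h1, h2⟩, if_neg (fun h => h.2 h2), add_zero]
    · rw [if_neg (fun h => h2 h.2), if_pos ⟨h1, h2⟩, zero_add]
  · rw [if_neg (fun h => h1 h.1), if_neg (fun h => h1 h.1), add_zero]
    push Not at h1
    obtain ⟨i, hi⟩ := h1
    unfold Mm_term
    rw [Finset.prod_eq_zero (Finset.mem_univ i) (hns _ hi), mul_zero]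

theorem Mm_Sq_card (k N H : ℕ) (W : Finset (ℕ → ℂ)) :
    (((Mm_J k N H W).filter Mm_Sq).card : ℝ) ≤
      (W.card : ℝ) * ∑ n ∈ Finset.range N, (TT (2 * k) n H : ℝ) := by
  have h1 : (((Mm_J k N H W).filter Mm_Sq).card : ℝ) = ∑ n ∈ Finset.range N, ∑ _w ∈ W,
      (((tup (2 * k) (Finset.Icc 1 H)).filter fun a =>
        (∀ i, Squarefree (n + a i)) ∧ IsSquare (∏ i, (n + a i))).card : ℝ) := by
    rw [Finset.card_filter]
    unfold Mm_J
    rw [Finset.sum_product]
    push_cast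
    refine Finset.sum_congr rfl fun n _ => ?_
    rw [Finset.sum_product]
    refine Finset.sum_congr rfl fun w _ => ?_
    rw [Finset.card_filter]
    push_cast
    refine Finset.sum_congr rfl fun a _ => ?_
    unfold Mm_Sq
    congr
  rw [h1, Finset.mul_sum]
  refine Finset.sum_le_sum fun n _ => ?_
  rw [Finset.sum_const, nsmul_eq_mul]
  refine mul_le_mul_of_nonneg_left ?_ (Nat.cast_nonneg _)
  exact_mod_cast Mm_TT (2 * k) n H

theorem Mm_J_card (k N H : ℕ) (W : Finset (ℕ → ℂ)) :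
    (Mm_J k N H W).card = N * (W.card * H ^ (2 * k)) := by
  unfold Mm_J
  rw [Finset.card_product, Finset.card_product, Finset.card_range, Mm_tup_card]

/-- pairs of indices with square product -/
theorem Mm_PR (k N H : ℕ) (W : Finset (ℕ → ℂ)) :
    ((((Mm_J k N H W).filter Mm_Ns) ×ˢ ((Mm_J k N H W).filter Mm_Ns)).filter fun q =>
      IsSquare ((∏ i, (q.1.1 + q.1.2.2 i)) * ∏ i, (q.2.1 + q.2.2.2 i))).card ≤
    W.card ^ 2 * PR (2 * k) N H := by
  unfold PR
  rw [sq, ← Finset.card_product, ← Finset.card_product]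
  refine Finset.card_le_card_of_injOn (fun q => ((q.1.2.1, q.2.2.1),
    (q.1.1, q.2.1, q.1.2.2, q.2.2.2))) ?_ ?_
  · intro q hq
    rw [Finset.mem_coe, Finset.mem_filter, Finset.mem_product, Finset.mem_filter,
      Finset.mem_filter] at hq
    obtain ⟨⟨⟨a1, a2⟩, a3, a4⟩, a5⟩ := hq
    unfold Mm_J at a1 a3
    rw [Finset.mem_product, Finset.mem_product] at a1 a3
    rw [Finset.mem_coe, Finset.mem_product, Finset.mem_product, Finset.mem_filter,
      Finset.mem_product, Finset.mem_product, Finset.mem_product]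
    exact ⟨⟨a1.2.1, a3.2.1⟩, ⟨a1.1, a3.1, a1.2.2, a3.2.2⟩, a2.1, a4.1, a5, a2.2⟩
  · rintro ⟨⟨n, w, a⟩, ⟨m, w', a'⟩⟩ _ ⟨⟨n2, w2, a2⟩, ⟨m2, w2', a2'⟩⟩ _ h
    simp only [Prod.mk.injEq] at h ⊢
    obtain ⟨⟨h1, h2⟩, h3, h4, h5, h6⟩ := h
    exact ⟨⟨h3, h1, h5⟩, h4, h2, h6⟩

/-- **MM.** -/
theorem t_MM : S_MM := by
  intro k N H hk hN hH Ω _ P _ F δ hδ hm hb hns hO W hW
  have hint : ∀ {L : ℕ} (a : Fin L → ℕ), Integrable (fun ω => ∏ i, F ω (a i)) P :=
    fun a => Mm_int P F hm hb a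
  constructor
  · intro n hn
    have e1 : ∀ ω, Z k H W (F ω) n = ∑ w ∈ W, ∑ a ∈ tup (2 * k) (Finset.Icc 1 H),
        Mm_rc k w a * ∏ i, F ω (n + a i) := fun ω => Mm_Z k H W (F ω) n
    have e2 : ∫ ω, Z k H W (F ω) n ∂P = ∑ w ∈ W, ∑ a ∈ tup (2 * k) (Finset.Icc 1 H),
        Mm_rc k w a * ∫ ω, ∏ i, F ω (n + a i) ∂P := by
      simp only [e1]
      rw [integral_finsetSum _ fun w _ => integrable_finsetSum _ fun a _ =>
        (hint fun i => n + a i).const_mul _]
      refine Finset.sum_congr rfl fun w _ => ?_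
      rw [integral_finsetSum _ fun a _ => (hint fun i => n + a i).const_mul _]
      exact Finset.sum_congr rfl fun a _ => integral_const_mul _ _
    rw [e2]
    have h1 : ∀ w ∈ W, ∑ a ∈ tup (2 * k) (Finset.Icc 1 H),
        Mm_rc k w a * ∫ ω, ∏ i, F ω (n + a i) ∂P ≤
          TT (2 * k) n H + δ * (H : ℝ) ^ (2 * k) := by
      intro w hw
      have h2 : ∀ a ∈ tup (2 * k) (Finset.Icc 1 H),
          Mm_rc k w a * ∫ ω, ∏ i, F ω (n + a i) ∂P ≤
            (if (∀ i, Squarefree (n + a i)) ∧ IsSquare (∏ i, (n + a i)) then 1 else 0) + δ := by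
        intro a ha
        have h3 := Mm_mean P F hb hns hδ (M := N + H) (fun i => n + a i)
          (fun g1 g2 g3 => hO (2 * k) (fun i => n + a i) (by omega) g1 g2 g3) (fun i => by
            unfold tup at ha
            have := Finset.mem_Icc.1 (Fintype.mem_piFinset.1 ha i)
            omega)
        refine le_trans ?_ h3
        refine (le_abs_self _).trans ?_
        rw [abs_mul]
        exact mul_le_of_le_one_left (abs_nonneg _) (Mm_rc_le k w (hW w hw) a)
      refine (Finset.sum_le_sum h2).trans ?_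
      rw [Finset.sum_add_distrib, Finset.sum_const, Mm_tup_card, nsmul_eq_mul]
      have h4 : ∑ a ∈ tup (2 * k) (Finset.Icc 1 H),
          (if (∀ i, Squarefree (n + a i)) ∧ IsSquare (∏ i, (n + a i)) then (1 : ℝ) else 0) =
          (((tup (2 * k) (Finset.Icc 1 H)).filter fun a =>
            (∀ i, Squarefree (n + a i)) ∧ IsSquare (∏ i, (n + a i))).card : ℝ) := by
        rw [Finset.card_filter]
        push_cast
        rfl
      rw [h4]
      have h5 : (((tup (2 * k) (Finset.Icc 1 H)).filter fun a =>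
            (∀ i, Squarefree (n + a i)) ∧ IsSquare (∏ i, (n + a i))).card : ℝ) ≤
          TT (2 * k) n H := by exact_mod_cast Mm_TT (2 * k) n H
      push_cast
      linarith
    refine (Finset.sum_le_sum h1).trans ?_
    rw [Finset.sum_const, nsmul_eq_mul]
  · intro l hl
    set I := (Mm_J k N H W).filter Mm_Ns with hI
    set U : Ω → ℝ := fun ω => ∑ t ∈ I, Mm_term k (F ω) t with hU
    have htI : ∀ t ∈ I, t.1 < N ∧ t.2.1 ∈ W ∧ (∀ i, t.1 + t.2.2 i ≤ N + H) := by
      intro t ht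
      rw [hI, Finset.mem_filter] at ht
      obtain ⟨h1, -⟩ := ht
      unfold Mm_J at h1
      rw [Finset.mem_product, Finset.mem_product, Finset.mem_range] at h1
      refine ⟨h1.1, h1.2.1, fun i => ?_⟩
      have h2 := h1.2.2
      unfold tup at h2
      have := Finset.mem_Icc.1 (Fintype.mem_piFinset.1 h2 i)
      omega
    -- the event
    have hev : {ω | (W.card : ℝ) * (∑ n ∈ Finset.range N, (TT (2 * k) n H : ℝ)) + l <
        ∑ n ∈ Finset.range N, Z k H W (F ω) n} ⊆ {ω | l ^ 2 ≤ U ω ^ 2} := by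
      intro ω hω
      rw [Set.mem_ofPred_eq, Mm_sumZ, Mm_split k N H W (F ω) (hns ω)] at hω
      have h1 : ∑ t ∈ (Mm_J k N H W).filter Mm_Sq, Mm_term k (F ω) t ≤
          (W.card : ℝ) * ∑ n ∈ Finset.range N, (TT (2 * k) n H : ℝ) := by
        refine le_trans ?_ (Mm_Sq_card k N H W)
        have h2 : ∀ t ∈ (Mm_J k N H W).filter Mm_Sq, Mm_term k (F ω) t ≤ 1 := by
          intro t ht
          rw [Finset.mem_filter] at ht
          have h3 := ht.1
          unfold Mm_J at h3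
          rw [Finset.mem_product, Finset.mem_product] at h3
          refine (le_abs_self _).trans ?_
          unfold Mm_term
          rw [abs_mul]
          exact mul_le_one₀ (Mm_rc_le k _ (hW _ h3.2.1) _) (abs_nonneg _)
            (Mm_prod_le F hb (fun i => t.1 + t.2.2 i) ω)
        have h4 := Finset.sum_le_card_nsmul _ _ _ h2
        rw [nsmul_eq_mul, mul_one] at h4
        exact h4
      rw [Set.mem_ofPred_eq]
      have h5 : l < U ω := by
        rw [hU]
        dsimp only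
        linarith
      exact pow_le_pow_left₀ hl.le h5.le 2
    -- the second moment
    have hG : ∀ t s : ℕ × (ℕ → ℂ) × (Fin (2 * k) → ℕ), ∀ ω,
        (∏ i, F ω (t.1 + t.2.2 i)) * (∏ i, F ω (s.1 + s.2.2 i)) =
          ∏ i, F ω (Fin.append (fun i => t.1 + t.2.2 i) (fun i => s.1 + s.2.2 i) i) := by
      intro t s ω
      rw [Fin.prod_univ_add]
      congr 1
      · exact Finset.prod_congr rfl fun i _ => by rw [Fin.append_left]
      · exact Finset.prod_congr rfl fun i _ => by rw [Fin.append_right]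
    have hU2 : ∀ ω, U ω ^ 2 = ∑ t ∈ I, ∑ s ∈ I, (Mm_rc k t.2.1 t.2.2 * Mm_rc k s.2.1 s.2.2) *
        ∏ i, F ω (Fin.append (fun i => t.1 + t.2.2 i) (fun i => s.1 + s.2.2 i) i) := by
      intro ω
      rw [sq, hU]
      dsimp only
      rw [Finset.sum_mul_sum]
      refine Finset.sum_congr rfl fun t _ => Finset.sum_congr rfl fun s _ => ?_
      rw [← hG]
      unfold Mm_term
      ring
    have hUint : Integrable (fun ω => U ω ^ 2) P := by
      simp only [hU2]
      exact integrable_finsetSum _ fun t _ => integrable_finsetSum _ fun s _ =>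
        (hint _).const_mul _
    have hEU : ∫ ω, U ω ^ 2 ∂P ≤
        (W.card : ℝ) ^ 2 * (PR (2 * k) N H + δ * (N : ℝ) ^ 2 * (H : ℝ) ^ (4 * k)) := by
      have e1 : ∫ ω, U ω ^ 2 ∂P = ∑ t ∈ I, ∑ s ∈ I,
          (Mm_rc k t.2.1 t.2.2 * Mm_rc k s.2.1 s.2.2) * ∫ ω,
          ∏ i, F ω (Fin.append (fun i => t.1 + t.2.2 i) (fun i => s.1 + s.2.2 i) i) ∂P := by
        simp only [hU2]
        rw [integral_finsetSum _ fun t _ => integrable_finsetSum _ fun s _ =>
          (hint _).const_mul _]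
        refine Finset.sum_congr rfl fun t _ => ?_
        rw [integral_finsetSum _ fun s _ => (hint _).const_mul _]
        exact Finset.sum_congr rfl fun s _ => integral_const_mul _ _
      rw [e1]
      have h1 : ∀ t ∈ I, ∀ s ∈ I, (Mm_rc k t.2.1 t.2.2 * Mm_rc k s.2.1 s.2.2) * ∫ ω,
          ∏ i, F ω (Fin.append (fun i => t.1 + t.2.2 i) (fun i => s.1 + s.2.2 i) i) ∂P ≤
          (if IsSquare ((∏ i, (t.1 + t.2.2 i)) * ∏ i, (s.1 + s.2.2 i)) then 1 else 0) + δ := by
        intro t ht s hs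
        obtain ⟨a1, a2, a3⟩ := htI t ht
        obtain ⟨b1, b2, b3⟩ := htI s hs
        have h2 := Mm_mean P F hb hns hδ (M := N + H)
          (Fin.append (fun i => t.1 + t.2.2 i) (fun i => s.1 + s.2.2 i))
          (fun g1 g2 g3 => hO (2 * k + 2 * k) _ (by omega) g1 g2 g3) (fun i => by
            refine Fin.addCases (fun j => ?_) (fun j => ?_) i
            · rw [Fin.append_left]
              exact a3 j
            · rw [Fin.append_right]
              exact b3 j)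
        have h3 : ∏ i, Fin.append (fun i => t.1 + t.2.2 i) (fun i => s.1 + s.2.2 i) i =
            (∏ i, (t.1 + t.2.2 i)) * ∏ i, (s.1 + s.2.2 i) := by
          rw [Fin.prod_univ_add]
          congr 1
          · exact Finset.prod_congr rfl fun i _ => by rw [Fin.append_left]
          · exact Finset.prod_congr rfl fun i _ => by rw [Fin.append_right]
        rw [h3] at h2
        have h4 : (if (∀ i, Squarefree (Fin.append (fun i => t.1 + t.2.2 i)
            (fun i => s.1 + s.2.2 i) i)) ∧ IsSquare ((∏ i, (t.1 + t.2.2 i)) *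
              ∏ i, (s.1 + s.2.2 i)) then (1 : ℝ) else 0) ≤
            (if IsSquare ((∏ i, (t.1 + t.2.2 i)) * ∏ i, (s.1 + s.2.2 i)) then 1 else 0) := by
          by_cases h5 : IsSquare ((∏ i, (t.1 + t.2.2 i)) * ∏ i, (s.1 + s.2.2 i))
          · rw [if_pos h5]
            split_ifs <;> norm_num
          · rw [if_neg (fun h => h5 h.2), if_neg h5]
        refine (le_abs_self _).trans ?_
        rw [abs_mul, abs_mul]
        have h6 : |Mm_rc k t.2.1 t.2.2| * |Mm_rc k s.2.1 s.2.2| ≤ 1 :=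
          mul_le_one₀ (Mm_rc_le k _ (hW _ a2) _) (abs_nonneg _) (Mm_rc_le k _ (hW _ b2) _)
        refine (mul_le_of_le_one_left (abs_nonneg _) h6).trans ?_
        linarith
      have h2 : ∑ t ∈ I, ∑ s ∈ I, (Mm_rc k t.2.1 t.2.2 * Mm_rc k s.2.1 s.2.2) * ∫ ω,
          ∏ i, F ω (Fin.append (fun i => t.1 + t.2.2 i) (fun i => s.1 + s.2.2 i) i) ∂P ≤
          ∑ t ∈ I, ∑ s ∈ I,
          ((if IsSquare ((∏ i, (t.1 + t.2.2 i)) * ∏ i, (s.1 + s.2.2 i)) then (1 : ℝ) else 0) + δ) :=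
        Finset.sum_le_sum fun t ht => Finset.sum_le_sum fun s hs => h1 t ht s hs
      refine h2.trans ?_
      rw [← Finset.sum_product' (s := I) (t := I) (f := fun t s =>
        (if IsSquare ((∏ i, (t.1 + t.2.2 i)) * ∏ i, (s.1 + s.2.2 i)) then (1 : ℝ) else 0) + δ),
        Finset.sum_add_distrib, Finset.sum_const, Finset.card_product, nsmul_eq_mul]
      have h3 : ∑ x ∈ I ×ˢ I, (if IsSquare ((∏ i, (x.1.1 + x.1.2.2 i)) *
          ∏ i, (x.2.1 + x.2.2.2 i)) then (1 : ℝ) else 0) = (((I ×ˢ I).filter fun q =>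
            IsSquare ((∏ i, (q.1.1 + q.1.2.2 i)) * ∏ i, (q.2.1 + q.2.2.2 i))).card : ℝ) := by
        rw [Finset.card_filter]
        push_cast
        rfl
      rw [h3]
      have h4 : (((I ×ˢ I).filter fun q => IsSquare ((∏ i, (q.1.1 + q.1.2.2 i)) *
          ∏ i, (q.2.1 + q.2.2.2 i))).card : ℝ) ≤ (W.card : ℝ) ^ 2 * PR (2 * k) N H := by
        exact_mod_cast Mm_PR k N H W
      have h5 : (I.card : ℝ) ≤ N * (W.card * (H : ℝ) ^ (2 * k)) := by
        have h6 : I.card ≤ (Mm_J k N H W).card := Finset.card_filter_le _ _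
        rw [Mm_J_card] at h6
        exact_mod_cast h6
      have h6 : ((I.card * I.card : ℕ) : ℝ) * δ ≤
          (N * (W.card * (H : ℝ) ^ (2 * k))) * (N * (W.card * (H : ℝ) ^ (2 * k))) * δ := by
        push_cast
        gcongr
      have h7 : (N * (W.card * (H : ℝ) ^ (2 * k))) * (N * (W.card * (H : ℝ) ^ (2 * k))) * δ =
          (W.card : ℝ) ^ 2 * (δ * (N : ℝ) ^ 2 * (H : ℝ) ^ (4 * k)) := by
        have e : (H : ℝ) ^ (4 * k) = (H : ℝ) ^ (2 * k) * (H : ℝ) ^ (2 * k) := by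
          rw [← pow_add]
          congr 1
          omega
        rw [e]
        ring
      rw [mul_add]
      linarith
    have hl2 : 0 < l ^ 2 := by positivity
    have hmark := mul_meas_ge_le_integral_of_nonneg
      (Eventually.of_forall fun ω => sq_nonneg (U ω)) hUint (l ^ 2)
    have hmono : (P {ω | (W.card : ℝ) * (∑ n ∈ Finset.range N, (TT (2 * k) n H : ℝ)) + l <
        ∑ n ∈ Finset.range N, Z k H W (F ω) n}).toReal ≤ P.real {ω | l ^ 2 ≤ U ω ^ 2} :=
      ENNReal.toReal_mono (measure_ne_top _ _) (measure_mono hev)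
    rw [le_div_iff₀ hl2]
    calc _ ≤ P.real {ω | l ^ 2 ≤ U ω ^ 2} * l ^ 2 := mul_le_mul_of_nonneg_right hmono hl2.le
      _ = l ^ 2 * P.real {ω | l ^ 2 ≤ U ω ^ 2} := mul_comm _ _
      _ ≤ _ := hmark.trans hEU

end Pool.Agent.N282.LU
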