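import Pool.Agent.N282.LU.Stm
import Pool.Agent.N318.LS.L

/-!
# Project LU: nets of polynomial size for the polynomial orbits on nilmanifolds (from helper318's N318/LS)
-/

set_option autoImplicit false

namespace Pool.Agent.N282.LU

open Finset Polynomial Filter Topology Pool.Agent.N318.LS

/-- Lipschitz functions on `U_m(ℝ)/U_m(ℤ)` -/
theorem Nl_quant {m : ℕ} {F : Matrix (Fin m) (Fin m) ℝ → ℂ} (hinv : Inv F) {K : ℝ} (hLip : LipB F K 2) (D : ℕ) :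
    ∃ (M : ℝ) (C : ℕ) (𝒜 : Set (ℕ → ℂ)), 1 ≤ M ∧
      (∀ Q : Matrix (Fin m) (Fin m) ℝ[X], Uni Q → (∀ i j, (Q i j).natDegree ≤ D) →
        ∃ a ∈ 𝒜, ∀ h : ℕ, F (ev Q h) = M * a h) ∧
      ∀ H : ℕ, 1 ≤ H → ∃ W : Finset (ℕ → ℂ), (W.card : ℝ) ≤ C * (H : ℝ) ^ C ∧ (∀ w ∈ W, ∀ h, ‖w h‖ ≤ 1) ∧
        ∀ a ∈ 𝒜, ∃ w ∈ W, ∑ h ∈ Icc 1 H, ‖a h - w h‖ ≤ C * √H := by
  -- `F` is bounded
  set K' : ℝ := max K 0 with hK'
  have hLip' : LipB F K' 2 := by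
    intro A B hA hB hAB η hη
    rcases Nat.eq_zero_or_pos m with rfl | hm
    · have : A = B := by
        ext i
        exact i.elim0
      rw [this, sub_self, norm_zero]
      by_cases h0 : 0 ≤ η
      · exact mul_nonneg (le_max_right _ _) h0
      · have h1 := hLip A B hA hB hAB (-1) (fun i => i.elim0)
        have h2 := hLip A B hA hB hAB 1 (fun i => i.elim0)
        rw [this, sub_self, norm_zero] at h1 h2
        have h3 : K = 0 := by linarith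
        rw [hK', h3, max_self, zero_mul]
    · have h0 : 0 ≤ η := (abs_nonneg _).trans (hη ⟨0, hm⟩ ⟨0, hm⟩)
      exact (hLip A B hA hB hAB η hη).trans (mul_le_mul_of_nonneg_right (le_max_left _ _) h0)
  have hK0 : 0 ≤ K' := le_max_right _ _
  have h1u : Uni (1 : Matrix (Fin m) (Fin m) ℝ) := by
    constructor
    · intro i
      exact Matrix.one_apply_eq i
    · intro i j hij
      exact Matrix.one_apply_ne (ne_of_gt hij)
  obtain ⟨M, hM1, hM⟩ : ∃ M : ℝ, 1 ≤ M ∧ ∀ A, Uni A → ‖F A‖ ≤ M := by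
    refine ⟨‖F 1‖ + K' * 2 + 1, by nlinarith [norm_nonneg (F 1)], fun A hA => ?_⟩
    obtain ⟨B, hB1, hB⟩ : ∃ B : ℝ, 1 ≤ B ∧ ∀ i j, |A i j| ≤ B := by
      refine ⟨1 + ∑ i, ∑ j, |A i j|, ?_, fun i j => ?_⟩
      · have : 0 ≤ ∑ i, ∑ j, |A i j| := sum_nonneg fun i _ => sum_nonneg fun j _ => abs_nonneg _
        linarith
      · have h1 : |A i j| ≤ ∑ j, |A i j| := single_le_sum (f := fun j => |A i j|) (fun _ _ => abs_nonneg _) (mem_univ j)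
        have h2 : ∑ j, |A i j| ≤ ∑ i, ∑ j, |A i j| :=
          single_le_sum (f := fun i => ∑ j, |A i j|) (fun i _ => sum_nonneg fun j _ => abs_nonneg _) (mem_univ i)
        linarith
    obtain ⟨g, hg1, _, hg3⟩ := reduceR hB1 hA hB
    have h2 : ‖F (A * g.map (fun z => (z : ℝ))) - F 1‖ ≤ K' * 2 := by
      have h1le : ∀ i j : Fin m, |(1 : Matrix (Fin m) (Fin m) ℝ) i j| ≤ 1 := by
        intro i j
        rw [Matrix.one_apply]
        split_ifs <;> simp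
      have h2le : ∀ i j : Fin m, |(A * g.map (fun z => (z : ℝ))) i j| ≤ 1 := by
        intro i j
        have := hg3 i j
        rw [abs_le]
        constructor <;> linarith
      apply hLip' _ _ (hA.mul (rl_uni hg1)) h1u
      · intro i j
        exact ⟨(h2le i j).trans (by norm_num), (h1le i j).trans (by norm_num)⟩
      · intro i j
        exact (abs_sub _ _).trans ((add_le_add (h2le i j) (h1le i j)).trans (by norm_num))
    rw [hinv A g hA hg1] at h2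
    have h3 : F A = (F A - F 1) + F 1 := by ring
    rw [h3]
    refine (norm_add_le _ _).trans ?_
    linarith
  have hM0 : 0 < M := by linarith
  set G : Matrix (Fin m) (Fin m) ℝ → ℂ := fun A => F A / (M : ℂ) with hG
  have hFG : ∀ A, F A = M * G A := by
    intro A
    rw [hG]
    have : (M : ℂ) ≠ 0 := by exact_mod_cast hM0.ne'
    field_simp
  have hGinv : Inv G := by
    intro A g hA hg
    rw [hG]
    show F _ / (M : ℂ) = F A / (M : ℂ)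
    rw [hinv A g hA hg]
  have hGn : ∀ A B, ‖G A - G B‖ = ‖F A - F B‖ / M := by
    intro A B
    rw [hG]
    show ‖F A / (M : ℂ) - F B / (M : ℂ)‖ = _
    rw [← sub_div, norm_div, Complex.norm_real, Real.norm_eq_abs, abs_of_pos hM0]
  have hGLip : LipB G K' 2 := by
    intro A B hA hB hAB η hη
    rw [hGn, div_le_iff₀ hM0]
    have h1 := hLip' A B hA hB hAB η hη
    have h2 : 0 ≤ K' * η := (norm_nonneg _).trans h1
    nlinarith
  have hG1 : ∀ A, Uni A → ‖G A‖ ≤ 1 := by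
    intro A hA
    rw [hG]
    show ‖F A / (M : ℂ)‖ ≤ 1
    rw [norm_div, Complex.norm_real, Real.norm_eq_abs, abs_of_pos hM0, div_le_one hM0]
    exact hM A hA
  obtain ⟨C, hC⟩ := nil_cov hGinv hGLip hK0 hG1 D
  exact ⟨M, C, Orb G D, hM1, fun Q hQ hQd => ⟨fun h => G (ev Q h), ⟨Q, hQ, hQd, rfl⟩, fun h => hFG _⟩, hC⟩

/-- nets of polynomial size -/
theorem Nl_cov {m : ℕ} {G : Set (Matrix (Fin m) (Fin m) ℝ)} (hG : Nilm G) {F : Matrix (Fin m) (Fin m) ℝ → ℂ}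
    (hF : ContinuousOn F G) (hFi : ∀ A ∈ G, ∀ g : Matrix (Fin m) (Fin m) ℤ, rl g ∈ G → F (A * rl g) = F A)
    (hF1 : ∀ A ∈ G, ‖F A‖ ≤ 1) (D : ℕ) {δ : ℝ} (hδ : 0 < δ) : ∃ (C H₀ : ℕ), ∀ H : ℕ, H₀ ≤ H → 1 ≤ H →
      ∃ W : Finset (ℕ → ℂ), (W.card : ℝ) ≤ C * (H : ℝ) ^ C ∧ (∀ w ∈ W, ∀ h, ‖w h‖ ≤ 1) ∧
        ∀ a ∈ OrbG G F D, ∃ w ∈ W, ∑ h ∈ Icc 1 H, ‖a h - w h‖ ≤ δ * H := by
  classical
  obtain ⟨η, hη, hmod⟩ := modulus hG hF hFi hδ
  obtain ⟨C, hC⟩ := net m (D + m * D)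
  obtain ⟨H₂, hH₂⟩ := exists_nat_ge (1 / η)
  refine ⟨C, H₂, fun H hHH hH1 => ?_⟩
  have hHη : 1 / (H : ℝ) ≤ η := by
    have h2 : (H₂ : ℝ) ≤ H := by exact_mod_cast hHH
    have h3 : (0 : ℝ) < H := by exact_mod_cast hH1
    rw [div_le_iff₀ h3]
    rw [div_le_iff₀ hη] at hH₂
    nlinarith
  have hcardle : (C : ℝ) * (H : ℝ) ^ C ≤ C * (H : ℝ) ^ C := le_rfl
  obtain ⟨I, _, κ, hI, hκ⟩ := hC H hH1
  have hcard := hI.trans hcardle
  choose cQ hcQ1 hcQ2 using fun Q : {Q : Matrix (Fin m) (Fin m) ℝ[X] // Uni Q ∧ (∀ i j, (Q i j).natDegree ≤ D) ∧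
    ∀ h : ℕ, (fun i j => (Q i j).eval (h : ℝ)) ∈ G} => orbit_red0 Q.1 Q.2.1 Q.2.2.1
  refine ⟨univ.image (fun k : I => if hk : ∃ Q : {Q : Matrix (Fin m) (Fin m) ℝ[X] // Uni Q ∧
    (∀ i j, (Q i j).natDegree ≤ D) ∧ ∀ h : ℕ, (fun i j => (Q i j).eval (h : ℝ)) ∈ G}, κ (cQ Q) = k then
      (fun h : ℕ => F (fun i j => ((Classical.choose hk).1 i j).eval (h : ℝ))) else fun _ => 0), ?_, ?_, ?_⟩
  · refine le_trans ?_ hcard
    exact_mod_cast card_image_le.trans (le_of_eq card_univ)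
  · intro w hw h
    rw [mem_image] at hw
    obtain ⟨k, _, rfl⟩ := hw
    by_cases hk : ∃ Q : {Q : Matrix (Fin m) (Fin m) ℝ[X] // Uni Q ∧
      (∀ i j, (Q i j).natDegree ≤ D) ∧ ∀ h : ℕ, (fun i j => (Q i j).eval (h : ℝ)) ∈ G}, κ (cQ Q) = k
    · rw [dif_pos hk]
      exact hF1 _ ((Classical.choose hk).2.2.2 h)
    · rw [dif_neg hk]
      simp
  · rintro a ⟨Q, hQ, rfl⟩
    have hk : ∃ Q' : {Q : Matrix (Fin m) (Fin m) ℝ[X] // Uni Q ∧
      (∀ i j, (Q i j).natDegree ≤ D) ∧ ∀ h : ℕ, (fun i j => (Q i j).eval (h : ℝ)) ∈ G}, κ (cQ Q') = κ (cQ ⟨Q, hQ⟩) :=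
      ⟨⟨Q, hQ⟩, rfl⟩
    refine ⟨_, mem_image_of_mem _ (mem_univ (κ (cQ ⟨Q, hQ⟩))), ?_⟩
    have h1 : ∀ h ∈ Icc 1 H, ‖F (fun i j => (Q i j).eval (h : ℝ)) - (if hk : ∃ Q' : {Q : Matrix (Fin m) (Fin m) ℝ[X] // Uni Q ∧
        (∀ i j, (Q i j).natDegree ≤ D) ∧ ∀ h : ℕ, (fun i j => (Q i j).eval (h : ℝ)) ∈ G}, κ (cQ Q') = κ (cQ ⟨Q, hQ⟩) then
        (fun h : ℕ => F (fun i j => ((Classical.choose hk).1 i j).eval (h : ℝ))) else fun _ => 0) h‖ ≤ δ := by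
      intro h hh
      rw [dif_pos hk]
      have hsel := Classical.choose_spec hk
      set Q' := Classical.choose hk with hQ'
      obtain ⟨g, hg1, hg2, hg3⟩ := hκ (cQ ⟨Q, hQ⟩) (cQ Q') (hcQ1 _) (hcQ1 _) hsel.symm h hh
      obtain ⟨_, G1, hG1, hG1e⟩ := hcQ2 ⟨Q, hQ⟩ h
      obtain ⟨_, G2, hG2, hG2e⟩ := hcQ2 Q' h
      have e1 : (show Matrix (Fin m) (Fin m) ℝ from fun i j => (Q i j).eval (h : ℝ)) * rl (G1 * g) =
          RM (D + m * D) (cQ ⟨Q, hQ⟩) h * rl g := by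
        rw [rl_mul, ← mul_assoc, ← hG1e]
        rfl
      have e2 : (show Matrix (Fin m) (Fin m) ℝ from fun i j => (Q'.1 i j).eval (h : ℝ)) * rl (G2 * g) =
          RM (D + m * D) (cQ Q') h * rl g := by
        rw [rl_mul, ← mul_assoc, ← hG2e]
        rfl
      apply hmod _ (hQ.2.2 h) _ (Q'.2.2.2 h) (G1 * g) (G2 * g) (hG1.mul hg1) (hG2.mul hg1)
      · intro i j
        have := hg2 i j
        rw [← e1] at this
        exact this.trans (by norm_num)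
      · intro i j
        have := hg3 i j
        rw [← e1, ← e2] at this
        exact this.trans hHη
    refine (sum_le_card_nsmul _ _ _ h1).trans (le_of_eq ?_)
    rw [Nat.card_Icc, Nat.add_sub_cancel, nsmul_eq_mul]
    ring


/-- continuous functions on closed unitriangular groups modulo their integer points -/
theorem Nl_qual {m : ℕ} {G : Set (Matrix (Fin m) (Fin m) ℝ)} (hG : Nilm G) {F : Matrix (Fin m) (Fin m) ℝ → ℂ}
    (hF : ContinuousOn F G) (hFi : ∀ A ∈ G, ∀ g : Matrix (Fin m) (Fin m) ℤ, rl g ∈ G → F (A * rl g) = F A) (D : ℕ) :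
    ∃ (M : ℝ) (𝒜 : Set (ℕ → ℂ)), 1 ≤ M ∧
      (∀ Q : Matrix (Fin m) (Fin m) ℝ[X], (∀ h : ℕ, ev Q h ∈ G) → (∀ i j, (Q i j).natDegree ≤ D) →
        ∃ a ∈ 𝒜, ∀ h : ℕ, F (ev Q h) = M * a h) ∧
      ∀ δ : ℝ, 0 < δ → ∃ C : ℕ, ∀ H : ℕ, 1 ≤ H → ∃ W : Finset (ℕ → ℂ), (W.card : ℝ) ≤ C * (H : ℝ) ^ C ∧
        (∀ w ∈ W, ∀ h, ‖w h‖ ≤ 1) ∧ ∀ a ∈ 𝒜, ∃ w ∈ W, ∑ h ∈ Icc 1 H, ‖a h - w h‖ ≤ δ * H + C := by
  obtain ⟨M, hM1, hM⟩ : ∃ M : ℝ, 1 ≤ M ∧ ∀ A ∈ G, ‖F A‖ ≤ M := by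
    obtain ⟨R, hR⟩ := hG.cocompact
    have hc : IsCompact (G ∩ {A : Matrix (Fin m) (Fin m) ℝ | ∀ i j, |A i j| ≤ R}) :=
      (box_compact m R).inter_left hG.closed
    obtain ⟨C, hC⟩ := (hc.image_of_continuousOn (hF.mono Set.inter_subset_left)).isBounded.exists_norm_le
    refine ⟨max C 1, le_max_right _ _, fun A hA => ?_⟩
    obtain ⟨a, ha, g, hg, hA2, haR⟩ := hR A hA
    rw [hA2, hFi a ha g hg]
    exact (hC _ ⟨a, ⟨ha, haR⟩, rfl⟩).trans (le_max_left _ _)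
  have hM0 : 0 < M := by linarith
  set F' : Matrix (Fin m) (Fin m) ℝ → ℂ := fun A => F A / (M : ℂ) with hF'
  have hFG : ∀ A, F A = M * F' A := by
    intro A
    rw [hF']
    have : (M : ℂ) ≠ 0 := by exact_mod_cast hM0.ne'
    field_simp
  have hF'1 : ∀ A ∈ G, ‖F' A‖ ≤ 1 := fun A hA => by
    show ‖F A / (M : ℂ)‖ ≤ 1
    rw [norm_div, Complex.norm_real, Real.norm_eq_abs, abs_of_pos hM0, div_le_one hM0]
    exact hM A hA
  refine ⟨M, OrbG G F' D, hM1, fun Q hQ hQd => ⟨fun h => F' (ev Q h),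
    ⟨Q, ⟨uni_of_ev fun h => hG.uni _ (hQ h), hQd, hQ⟩, rfl⟩, fun h => hFG _⟩, fun δ hδ => ?_⟩
  obtain ⟨C, H₀, hC⟩ := Nl_cov hG (F := F') (hF.div_const _) (fun A hA g hg => by
    show F _ / (M : ℂ) = F A / (M : ℂ)
    rw [hFi A hA g hg]) hF'1 D hδ
  refine ⟨C + H₀ + 1, fun H hH => ?_⟩
  have hH1 : (1 : ℝ) ≤ H := by exact_mod_cast hH
  rcases Nat.lt_or_ge H H₀ with h1 | h1
  · refine ⟨{fun _ => 0}, ?_, ?_, ?_⟩
    · rw [card_singleton]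
      have h2 : (1 : ℝ) ≤ (H : ℝ) ^ (C + H₀ + 1) := one_le_pow₀ hH1
      have h3 : (1 : ℝ) ≤ ((C + H₀ + 1 : ℕ) : ℝ) := by
        push_cast
        have : (0 : ℝ) ≤ (C : ℝ) + H₀ := by positivity
        linarith
      push_cast at h3 ⊢
      nlinarith
    · intro w hw h
      rw [mem_singleton] at hw
      rw [hw]
      simp
    · rintro a ⟨Q, hQ, rfl⟩
      refine ⟨fun _ => 0, mem_singleton_self _, ?_⟩
      have h2 : ∑ h ∈ Icc 1 H, ‖F' (fun i j => (Q i j).eval (h : ℝ)) - 0‖ ≤ H := by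
        refine (sum_le_card_nsmul _ _ 1 fun h _ => ?_).trans (le_of_eq ?_)
        · rw [sub_zero]
          exact hF'1 _ (hQ.2.2 h)
        · simp
      refine h2.trans ?_
      have h3 : (H : ℝ) ≤ H₀ := by exact_mod_cast h1.le
      have h4 : 0 ≤ δ * H := by positivity
      push_cast
      have : (0 : ℝ) ≤ C := Nat.cast_nonneg _
      linarith
  · obtain ⟨W, hW1, hW2, hW3⟩ := hC H h1 hH
    refine ⟨W, hW1.trans ?_, hW2, fun a ha => ?_⟩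
    · have h2 : (H : ℝ) ^ C ≤ (H : ℝ) ^ (C + H₀ + 1) := pow_le_pow_right₀ hH1 (by omega)
      have h3 : (C : ℝ) ≤ ((C + H₀ + 1 : ℕ) : ℝ) := by exact_mod_cast (by omega : C ≤ C + H₀ + 1)
      exact mul_le_mul h3 h2 (by positivity) (Nat.cast_nonneg _)
    · obtain ⟨w, hw, hwa⟩ := hW3 a ha
      exact ⟨w, hw, hwa.trans (le_add_of_nonneg_right (Nat.cast_nonneg _))⟩

end Pool.Agent.N282.LU
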