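import Pool.Agent.N282.LU.Stm
import Pool.Agent.N282.GC.Pair

/-!
# Project LU (helper282), PR: pairs of windows

Author: helper558.
-/

set_option autoImplicit false

open MeasureTheory Filter Topology Classical

namespace Pool.Agent.N282.LU

open Pool.Agent.N282.GC

/-- paired tuples have square products -/
theorem Pr_sq {k : ℕ} (a : Fin k → ℕ) (h : Paired a) : IsSquare (∏ i, a i) := by
  have h1 : ∏ i, a i = ∏ b ∈ Finset.univ.image a, b ^ (Finset.univ.filter fun i => a i = b).card :=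
    Finset.prod_comp (fun x : ℕ => x) a
  rw [h1]
  exact Finset.isSquare_prod _ fun b _ => (h b).isSquare_pow b

theorem Pr_mult (N H a g : ℕ) (ha : 1 ≤ a) (haH : a ≤ H) :
    ((Finset.range N).filter fun n => g ∣ n + a).card ≤ (N + H) / g := by
  rw [← Nat.Ioc_filter_dvd_card_eq_div (N + H) g]
  refine Finset.card_le_card_of_injOn (fun n => n + a) ?_ ?_
  · intro n hn
    simp only [Finset.coe_filter, Finset.mem_range, Set.mem_ofPred_eq, Finset.mem_Ioc] at hn ⊢
    exact ⟨⟨by omega, by omega⟩, hn.2⟩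
  · intro n _ m _ h
    exact Nat.add_right_cancel h

/-- pairs with a large greatest common divisor -/
theorem Pr_pairs (N H : ℕ) (hN : 1 ≤ N) (hH : 1 ≤ H) (V : ℝ) (hV : 1 ≤ V) (a b : ℕ) (ha : 1 ≤ a)
    (haH : a ≤ H) (hb : 1 ≤ b) (hbH : b ≤ H) :
    (((Finset.range N ×ˢ Finset.range N).filter
      fun p => V ≤ (Nat.gcd (p.1 + a) (p.2 + b) : ℝ)).card : ℝ) ≤ 8 * N ^ 2 * H ^ 2 / V := by
  obtain ⟨k, hk⟩ : ∃ k, ⌈V⌉₊ = k + 1 := by
    have h1 : 0 < ⌈V⌉₊ := Nat.ceil_pos.2 (by linarith)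
    exact ⟨⌈V⌉₊ - 1, by omega⟩
  have hsub : ((Finset.range N ×ˢ Finset.range N).filter
      fun p => V ≤ (Nat.gcd (p.1 + a) (p.2 + b) : ℝ)) ⊆ (Finset.Ioo k (N + H + 1)).biUnion
      fun g => ((Finset.range N).filter fun n => g ∣ n + a) ×ˢ
        ((Finset.range N).filter fun n => g ∣ n + b) := by
    intro p hp
    rw [Finset.mem_filter, Finset.mem_product, Finset.mem_range, Finset.mem_range] at hp
    obtain ⟨⟨h1, h2⟩, h3⟩ := hp
    rw [Finset.mem_biUnion]
    refine ⟨Nat.gcd (p.1 + a) (p.2 + b), ?_, ?_⟩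
    · rw [Finset.mem_Ioo]
      have h4 : ⌈V⌉₊ ≤ Nat.gcd (p.1 + a) (p.2 + b) := Nat.ceil_le.2 h3
      have h5 : Nat.gcd (p.1 + a) (p.2 + b) ≤ p.1 + a :=
        Nat.le_of_dvd (by omega) (Nat.gcd_dvd_left _ _)
      omega
    · rw [Finset.mem_product, Finset.mem_filter, Finset.mem_filter, Finset.mem_range,
        Finset.mem_range]
      exact ⟨⟨h1, Nat.gcd_dvd_left _ _⟩, h2, Nat.gcd_dvd_right _ _⟩
  have h1 : (((Finset.range N ×ˢ Finset.range N).filter
      fun p => V ≤ (Nat.gcd (p.1 + a) (p.2 + b) : ℝ)).card : ℝ) ≤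
      ∑ g ∈ Finset.Ioo k (N + H + 1), ((N + H : ℕ) : ℝ) ^ 2 * ((g : ℝ) ^ 2)⁻¹ := by
    have h2 : ((Finset.range N ×ˢ Finset.range N).filter
        fun p => V ≤ (Nat.gcd (p.1 + a) (p.2 + b) : ℝ)).card ≤
        ∑ g ∈ Finset.Ioo k (N + H + 1), ((N + H) / g) * ((N + H) / g) := by
      refine (Finset.card_le_card hsub).trans (Finset.card_biUnion_le.trans ?_)
      refine Finset.sum_le_sum fun g _ => ?_
      rw [Finset.card_product]
      exact Nat.mul_le_mul (Pr_mult N H a g ha haH) (Pr_mult N H b g hb hbH)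
    refine (Nat.cast_le.2 h2).trans ?_
    rw [Nat.cast_sum]
    refine Finset.sum_le_sum fun g _ => ?_
    rw [Nat.cast_mul]
    have h3 : (((N + H) / g : ℕ) : ℝ) ≤ ((N + H : ℕ) : ℝ) / g := Nat.cast_div_le
    calc (((N + H) / g : ℕ) : ℝ) * (((N + H) / g : ℕ) : ℝ) ≤
        (((N + H : ℕ) : ℝ) / g) * (((N + H : ℕ) : ℝ) / g) :=
          mul_le_mul h3 h3 (Nat.cast_nonneg _) (by positivity)
      _ = _ := by rw [div_mul_div_comm, ← sq, ← sq, div_eq_mul_inv]
  rw [← Finset.mul_sum] at h1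
  have h4 := sum_Ioo_inv_sq_le (α := ℝ) k (N + H + 1)
  have h5 : V ≤ (k : ℝ) + 1 := by
    have := Nat.le_ceil V
    rw [hk] at this
    exact_mod_cast this
  have h6 : 2 / ((k : ℝ) + 1) ≤ 2 / V := div_le_div_of_nonneg_left (by norm_num) (by linarith) h5
  have h7 : ((N + H : ℕ) : ℝ) ≤ 2 * N * H := by
    have h8 : N + H ≤ 2 * N * H := by nlinarith
    exact_mod_cast h8
  have h9 : ((N + H : ℕ) : ℝ) ^ 2 ≤ (2 * N * H) ^ 2 := pow_le_pow_left₀ (Nat.cast_nonneg _) h7 2
  calc _ ≤ ((N + H : ℕ) : ℝ) ^ 2 * ∑ g ∈ Finset.Ioo k (N + H + 1), ((g : ℝ) ^ 2)⁻¹ := h1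
    _ ≤ (2 * N * H) ^ 2 * (2 / V) := mul_le_mul h9 (h4.trans h6)
        (Finset.sum_nonneg fun _ _ => by positivity) (by positivity)
    _ = _ := by ring

theorem Pr_tup (K H : ℕ) : (tup K (Finset.Icc 1 H)).card = H ^ K := by
  unfold tup
  rw [Fintype.card_piFinset_const, Nat.card_Icc, Nat.add_sub_cancel]

theorem Pr_mem {K H : ℕ} {h : Fin K → ℕ} (hh : h ∈ tup K (Finset.Icc 1 H)) (i : Fin K) :
    1 ≤ h i ∧ h i ≤ H := by
  unfold tup at hh
  exact Finset.mem_Icc.1 (Fintype.mem_piFinset.1 hh i)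

/-- (PR) -/
theorem t_PR : S_PR := by
  intro K hK
  have hK0 : (1 : ℝ) ≤ K := by exact_mod_cast hK
  refine ⟨1 / (4 * K), 8 * K ^ 2 + 2 * K + 10, by positivity, by positivity, fun N H hN hH => ?_⟩
  have hN0 : (1 : ℝ) ≤ N := by exact_mod_cast hN
  have hH0 : (1 : ℝ) ≤ H := by exact_mod_cast hH
  obtain ⟨V, hV⟩ : ∃ V : ℝ, V = (N : ℝ) ^ (1 / (4 * K : ℝ)) := ⟨_, rfl⟩
  have hV1 : 1 ≤ V := by
    rw [hV]
    exact Real.one_le_rpow hN0 (by positivity)
  have hV0 : 0 < V := by linarith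
  have hs1 : 1 ≤ Real.sqrt N := Real.one_le_sqrt.2 hN0
  have hss : Real.sqrt N * Real.sqrt N = N := Real.mul_self_sqrt (by linarith)
  have hVs : V ≤ Real.sqrt N := by
    rw [hV, Real.sqrt_eq_rpow]
    refine Real.rpow_le_rpow_of_exponent_le hN0 ?_
    rw [div_le_div_iff₀ (by positivity) (by norm_num)]
    linarith
  have hE : (N : ℝ) ^ (2 - 1 / (4 * K : ℝ)) = N ^ 2 / V := by
    rw [Real.rpow_sub (by linarith), ← hV]
    norm_num
  rw [hE]
  -- the power of `H`
  have hP : (H : ℝ) ^ (2 * K + 2) ≤ (H : ℝ) ^ (8 * (K : ℝ) ^ 2 + 2 * K + 10) := by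
    rw [← Real.rpow_natCast]
    refine Real.rpow_le_rpow_of_exponent_le hH0 ?_
    push_cast
    nlinarith
  have hQ : 0 ≤ (N : ℝ) ^ 2 / V := by positivity
  -- the ambient set
  obtain ⟨T, hT⟩ : ∃ T, T = Finset.range N ×ˢ Finset.range N ×ˢ tup K (Finset.Icc 1 H) ×ˢ
    tup K (Finset.Icc 1 H) := ⟨_, rfl⟩
  have hTc : T.card = N * (N * (H ^ K * H ^ K)) := by
    rw [hT, Finset.card_product, Finset.card_product, Finset.card_product, Pr_tup,
      Finset.card_range]
  have hmem : ∀ t ∈ T, t.1 < N ∧ t.2.1 < N ∧ t.2.2.1 ∈ tup K (Finset.Icc 1 H) ∧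
      t.2.2.2 ∈ tup K (Finset.Icc 1 H) := by
    intro t ht
    rw [hT, Finset.mem_product, Finset.mem_product, Finset.mem_product, Finset.mem_range,
      Finset.mem_range] at ht
    exact ht
  obtain ⟨S, hS⟩ : ∃ S, S = T.filter fun t =>
    (∀ i, Squarefree (t.1 + t.2.2.1 i)) ∧ (∀ i, Squarefree (t.2.1 + t.2.2.2 i)) ∧
      IsSquare ((∏ i, (t.1 + t.2.2.1 i)) * ∏ i, (t.2.1 + t.2.2.2 i)) ∧
      ¬ IsSquare (∏ i, (t.1 + t.2.2.1 i)) := ⟨_, rfl⟩
  have hPR : PR K N H = S.card := by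
    rw [hS, hT]
    rfl
  rw [hPR]
  rcases le_or_gt V H with hc | hc
  · -- `V ≤ H`: trivial bound
    have h1 : (S.card : ℝ) ≤ N * (N * (H ^ K * H ^ K)) := by
      have : S.card ≤ T.card := by
        rw [hS]
        exact Finset.card_filter_le _ _
      rw [hTc] at this
      exact_mod_cast this
    calc (S.card : ℝ) ≤ N * (N * (H ^ K * H ^ K)) := h1
      _ = 1 * (1 * (H : ℝ) ^ (2 * K)) * (N ^ 2 / V) * V := by
        field_simp
        ring
      _ ≤ 1 * (H * (H : ℝ) ^ (2 * K)) * (N ^ 2 / V) * H := by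
        refine mul_le_mul ?_ hc hV0.le (by positivity)
        refine mul_le_mul_of_nonneg_right ?_ hQ
        refine mul_le_mul_of_nonneg_left ?_ zero_le_one
        exact mul_le_mul_of_nonneg_right hH0 (by positivity)
      _ = 1 * (H : ℝ) ^ (2 * K + 2) * (N ^ 2 / V) := by ring
      _ ≤ _ := by
        refine mul_le_mul_of_nonneg_right ?_ hQ
        refine mul_le_mul ?_ hP (by positivity) (by positivity)
        nlinarith
  · -- `H < V`
    obtain ⟨A1, hA1⟩ : ∃ A1, A1 = T.filter fun t => t.1 ^ 2 < N := ⟨_, rfl⟩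
    obtain ⟨A2, hA2⟩ : ∃ A2, A2 = T.filter fun t => t.2.1 ^ 2 < N := ⟨_, rfl⟩
    let U : Fin K × Fin K → Finset (ℕ × ℕ × (Fin K → ℕ) × (Fin K → ℕ)) := fun w =>
      T.filter fun t => V ≤ (Nat.gcd (t.1 + t.2.2.1 w.1) (t.2.1 + t.2.2.2 w.2) : ℝ)
    have hsub : S ⊆ (A1 ∪ A2) ∪ Finset.univ.biUnion U := by
      intro t ht
      rw [hS, Finset.mem_filter] at ht
      obtain ⟨htT, q1, q2, q3, q4⟩ := ht
      obtain ⟨m1, m2, m3, m4⟩ := hmem t htT
      rw [Finset.mem_union, Finset.mem_union]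
      by_cases c1 : t.1 ^ 2 < N
      · left; left
        rw [hA1, Finset.mem_filter]
        exact ⟨htT, c1⟩
      by_cases c2 : t.2.1 ^ 2 < N
      · left; right
        rw [hA2, Finset.mem_filter]
        exact ⟨htT, c2⟩
      right
      rw [Finset.mem_biUnion]
      have b1 : ∀ n : ℕ, ¬ n ^ 2 < N → Real.sqrt N ≤ n := by
        intro n hn
        rw [Real.sqrt_le_left (Nat.cast_nonneg _)]
        push Not at hn
        exact_mod_cast hn
      have e1 : 2 * Real.sqrt N / 2 = Real.sqrt N := by ring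
      have key := t_PAIR K (2 * Real.sqrt N) (fun i => t.1 + t.2.2.1 i)
        (fun i => t.2.1 + t.2.2.2 i) (by linarith)
        (fun i => by
          rw [e1]
          push_cast
          have := b1 _ c1
          have h2 : (0 : ℝ) ≤ t.2.2.1 i := Nat.cast_nonneg _
          linarith)
        (fun i => by
          rw [e1]
          push_cast
          have := b1 _ c2
          have h2 : (0 : ℝ) ≤ t.2.2.2 i := Nat.cast_nonneg _
          linarith) q1 q2 q3 (fun hp => q4 (Pr_sq _ hp))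
      have e2 : (2 * Real.sqrt N / 2) ^ (1 / (2 * K : ℝ)) = V := by
        rw [e1, hV, Real.sqrt_eq_rpow, ← Real.rpow_mul (by linarith)]
        congr 1
        field_simp
        norm_num
      rw [e2] at key
      obtain ⟨u, ⟨v, hne, hg⟩ | ⟨v, hg⟩⟩ := key
      · exfalso
        obtain ⟨g, hgd⟩ : ∃ g, g = Nat.gcd (t.1 + t.2.2.1 u) (t.1 + t.2.2.1 v) := ⟨_, rfl⟩
        rw [← hgd] at hg
        have d1 : g ∣ t.1 + t.2.2.1 u := by rw [hgd]; exact Nat.gcd_dvd_left _ _
        have d2 : g ∣ t.1 + t.2.2.1 v := by rw [hgd]; exact Nat.gcd_dvd_right _ _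
        have r1 := Pr_mem m3 u
        have r2 := Pr_mem m3 v
        have hgH : g ≤ H := by
          rcases lt_or_gt_of_ne hne with h | h
          · have d3 := Nat.dvd_sub d1 d2
            have d4 := Nat.le_of_dvd (by omega) d3
            omega
          · have d3 := Nat.dvd_sub d2 d1
            have d4 := Nat.le_of_dvd (by omega) d3
            omega
        have : (g : ℝ) ≤ H := by exact_mod_cast hgH
        linarith
      · refine ⟨(u, v), Finset.mem_univ _, ?_⟩
        rw [Finset.mem_filter]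
        exact ⟨htT, hg⟩
    -- the first two sets
    have hq : ((Nat.sqrt N + 1 : ℕ) : ℝ) ≤ 2 * Real.sqrt N := by
      have := Real.nat_sqrt_le_real_sqrt (a := N)
      push_cast
      linarith
    have c1 : (A1.card : ℝ) ≤ 2 * Real.sqrt N * (N * (H ^ K * H ^ K)) := by
      have h1 : A1 ⊆ Finset.range (Nat.sqrt N + 1) ×ˢ Finset.range N ×ˢ
          tup K (Finset.Icc 1 H) ×ˢ tup K (Finset.Icc 1 H) := by
        intro t ht
        rw [hA1, Finset.mem_filter] at ht
        obtain ⟨m1, m2, m3, m4⟩ := hmem t ht.1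
        rw [Finset.mem_product, Finset.mem_product, Finset.mem_product, Finset.mem_range,
          Finset.mem_range]
        refine ⟨Nat.lt_succ_of_le (Nat.le_sqrt.2 ?_), m2, m3, m4⟩
        have := ht.2
        rw [sq] at this
        exact this.le
      have h2 := Finset.card_le_card h1
      rw [Finset.card_product, Finset.card_product, Finset.card_product, Pr_tup,
        Finset.card_range, Finset.card_range] at h2
      have h3 : (A1.card : ℝ) ≤ ((Nat.sqrt N + 1 : ℕ) : ℝ) * (N * (H ^ K * H ^ K)) := by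
        exact_mod_cast h2
      exact h3.trans (mul_le_mul_of_nonneg_right hq (by positivity))
    have c2 : (A2.card : ℝ) ≤ 2 * Real.sqrt N * (N * (H ^ K * H ^ K)) := by
      have h1 : A2 ⊆ Finset.range N ×ˢ Finset.range (Nat.sqrt N + 1) ×ˢ
          tup K (Finset.Icc 1 H) ×ˢ tup K (Finset.Icc 1 H) := by
        intro t ht
        rw [hA2, Finset.mem_filter] at ht
        obtain ⟨m1, m2, m3, m4⟩ := hmem t ht.1
        rw [Finset.mem_product, Finset.mem_product, Finset.mem_product, Finset.mem_range,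
          Finset.mem_range]
        refine ⟨m1, Nat.lt_succ_of_le (Nat.le_sqrt.2 ?_), m3, m4⟩
        have := ht.2
        rw [sq] at this
        exact this.le
      have h2 := Finset.card_le_card h1
      rw [Finset.card_product, Finset.card_product, Finset.card_product, Pr_tup,
        Finset.card_range, Finset.card_range] at h2
      have h3 : (A2.card : ℝ) ≤ N * (((Nat.sqrt N + 1 : ℕ) : ℝ) * (H ^ K * H ^ K)) := by
        exact_mod_cast h2
      calc (A2.card : ℝ) ≤ N * (((Nat.sqrt N + 1 : ℕ) : ℝ) * (H ^ K * H ^ K)) := h3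
        _ = ((Nat.sqrt N + 1 : ℕ) : ℝ) * (N * (H ^ K * H ^ K)) := by ring
        _ ≤ _ := mul_le_mul_of_nonneg_right hq (by positivity)
    -- large common divisors
    have c3 : ∀ w, ((U w).card : ℝ) ≤ 8 * N ^ 2 * H ^ 2 / V * (H ^ K * H ^ K) := by
      intro w
      have h1 : (U w).card ≤ ⌊8 * (N : ℝ) ^ 2 * H ^ 2 / V⌋₊ *
          (tup K (Finset.Icc 1 H) ×ˢ tup K (Finset.Icc 1 H)).card := by
        refine Finset.card_le_mul_card_image_of_maps_to (f := fun t => t.2.2) ?_ _ ?_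
        · intro t ht
          obtain ⟨m1, m2, m3, m4⟩ := hmem t (Finset.mem_filter.1 ht).1
          rw [Finset.mem_product]
          exact ⟨m3, m4⟩
        · rintro ⟨h, h'⟩ hh
          rw [Finset.mem_product] at hh
          have r1 := Pr_mem hh.1 w.1
          have r2 := Pr_mem hh.2 w.2
          refine Nat.le_floor ?_
          refine le_trans ?_ (Pr_pairs N H hN hH V hV1 (h w.1) (h' w.2) r1.1 r1.2 r2.1 r2.2)
          refine Nat.cast_le.2 (Finset.card_le_card_of_injOn (fun t => (t.1, t.2.1)) ?_ ?_)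
          · intro t ht
            rw [Finset.mem_coe, Finset.mem_filter] at ht
            obtain ⟨ht1, ht2⟩ := ht
            have ht3 := Finset.mem_filter.1 ht1
            obtain ⟨m1, m2, m3, m4⟩ := hmem t ht3.1
            rw [Finset.mem_coe, Finset.mem_filter, Finset.mem_product, Finset.mem_range,
              Finset.mem_range]
            refine ⟨⟨m1, m2⟩, ?_⟩
            have h4 := ht3.2
            rw [ht2] at h4
            exact h4
          · intro t ht t' ht' he
            rw [Finset.mem_coe, Finset.mem_filter] at ht ht'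
            have he' : (t.1, t.2.1) = (t'.1, t'.2.1) := he
            have e1 : t.1 = t'.1 := (Prod.mk.injEq _ _ _ _ ▸ he').1
            have e2 : t.2.1 = t'.2.1 := (Prod.mk.injEq _ _ _ _ ▸ he').2
            have e3 : t.2.2 = t'.2.2 := ht.2.trans ht'.2.symm
            exact Prod.ext e1 (Prod.ext e2 e3)
      rw [Finset.card_product, Pr_tup] at h1
      have h2 : ((U w).card : ℝ) ≤ (⌊8 * (N : ℝ) ^ 2 * H ^ 2 / V⌋₊ : ℝ) * (H ^ K * H ^ K) := by
        exact_mod_cast h1
      refine h2.trans (mul_le_mul_of_nonneg_right (Nat.floor_le (by positivity)) (by positivity))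
    have c4 : ((Finset.univ.biUnion U).card : ℝ) ≤
        K * K * (8 * N ^ 2 * H ^ 2 / V * (H ^ K * H ^ K)) := by
      have h1 : ((Finset.univ.biUnion U).card : ℝ) ≤ ∑ w, ((U w).card : ℝ) := by
        have := Finset.card_biUnion_le (s := Finset.univ) (t := U)
        exact_mod_cast this
      refine h1.trans ((Finset.sum_le_sum fun w _ => c3 w).trans ?_)
      rw [Finset.sum_const, Finset.card_univ, Fintype.card_prod, Fintype.card_fin, nsmul_eq_mul,
        Nat.cast_mul]
    have c5 : (S.card : ℝ) ≤ A1.card + A2.card + (Finset.univ.biUnion U).card := by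
      have h1 := (Finset.card_le_card hsub).trans (Finset.card_union_le _ _)
      have h2 := Finset.card_union_le A1 A2
      have h3 : S.card ≤ A1.card + A2.card + (Finset.univ.biUnion U).card := by omega
      exact_mod_cast h3
    have c6 : Real.sqrt N * N ≤ N ^ 2 / V := by
      rw [le_div_iff₀ hV0]
      calc Real.sqrt N * N * V ≤ Real.sqrt N * N * Real.sqrt N :=
            mul_le_mul_of_nonneg_left hVs (by positivity)
        _ = N * (Real.sqrt N * Real.sqrt N) := by ring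
        _ = N ^ 2 := by rw [hss]; ring
    have c7 : (H : ℝ) ^ (2 * K) ≤ (H : ℝ) ^ (2 * K + 2) := pow_le_pow_right₀ hH0 (by omega)
    have hHK : (0 : ℝ) ≤ (H : ℝ) ^ (2 * K) := by positivity
    calc (S.card : ℝ) ≤ 2 * Real.sqrt N * (N * (H ^ K * H ^ K)) +
          2 * Real.sqrt N * (N * (H ^ K * H ^ K)) +
          K * K * (8 * N ^ 2 * H ^ 2 / V * (H ^ K * H ^ K)) := by linarith
      _ = 4 * (Real.sqrt N * N) * (H : ℝ) ^ (2 * K) +
          8 * K ^ 2 * (N ^ 2 / V) * (H : ℝ) ^ (2 * K + 2) := by ring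
      _ ≤ 4 * (N ^ 2 / V) * (H : ℝ) ^ (2 * K + 2) +
          8 * K ^ 2 * (N ^ 2 / V) * (H : ℝ) ^ (2 * K + 2) := by
        refine add_le_add ?_ le_rfl
        exact mul_le_mul (mul_le_mul_of_nonneg_left c6 (by norm_num)) c7 hHK (by positivity)
      _ = (4 + 8 * K ^ 2) * (H : ℝ) ^ (2 * K + 2) * (N ^ 2 / V) := by ring
      _ ≤ _ := by
        refine mul_le_mul_of_nonneg_right ?_ hQ
        refine mul_le_mul ?_ hP (by positivity) (by positivity)
        linarith

end Pool.Agent.N282.LU
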