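import Pool.Agent.N282.LU.Stm
import Pool.Agent.Helper112.Arith

/-! LU/TTB (helper134 for helper282). -/

set_option autoImplicit false

open Finset

namespace Pool.Agent.N282.LU

open Pool.Agent.N282.GC

theorem TTB_fact {k : ℕ} (n : Fin k → ℕ) (hn : ∀ i, Squarefree (n i)) {p : ℕ} (hp : p.Prime) :
    (∏ i, n i).factorization p = (univ.filter fun i => p ∣ n i).card := by
  rw [Nat.factorization_prod_apply fun i _ => (hn i).ne_zero, card_filter]
  refine sum_congr rfl fun i _ => ?_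
  split_ifs with h
  · exact Nat.factorization_eq_one_of_squarefree (hn i) hp h
  · exact Nat.factorization_eq_zero_of_not_dvd h

theorem TTB_even {k : ℕ} (n : Fin k → ℕ) (hn : ∀ i, Squarefree (n i)) (hS : IsSquare (∏ i, n i))
    {p : ℕ} (hp : p.Prime) : Even (univ.filter fun i => p ∣ n i).card := by
  obtain ⟨z, hz⟩ := hS
  have h1 := congrArg (fun t => t.factorization p) hz
  have hn0 : ∏ i, n i ≠ 0 := prod_ne_zero_iff.2 fun i _ => (hn i).ne_zero
  have hz0 : z ≠ 0 := by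
    rintro rfl
    rw [mul_zero] at hz
    exact hn0 hz
  simp only [Nat.factorization_mul hz0 hz0, Finsupp.add_apply, TTB_fact n hn hp] at h1
  exact ⟨_, h1⟩

theorem TTB_paired {K n H : ℕ} (hH : 1 ≤ H) (hn : H ^ K ≤ n) (a : Fin K → ℕ)
    (ha : ∀ i, n < a i ∧ a i ≤ n + H) (hs : ∀ i, Squarefree (a i)) (hS : IsSquare (∏ i, a i)) :
    ∀ v : ℕ, Even (univ.filter fun i => a i = v).card := by
  intro v
  by_contra hodd
  rw [Nat.not_even_iff_odd] at hodd
  obtain ⟨u, hu⟩ := card_pos.1 hodd.pos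
  have hu' : a u = v := (mem_filter.1 hu).2
  have hvs : Squarefree v := hu' ▸ hs u
  have hv1 : n < v := hu' ▸ (ha u).1
  have hv2 : v ≤ n + H := hu' ▸ (ha u).2
  obtain ⟨D, hD⟩ : ∃ D : ℕ, D = ∏ j ∈ univ.filter (fun j => a j ≠ v), ((a j : ℤ) - v).natAbs :=
    ⟨_, rfl⟩
  have hprime : ∀ p ∈ v.primeFactors, p ∣ D := by
    intro p hp
    have hpp := Nat.prime_of_mem_primeFactors hp
    have hpv := Nat.dvd_of_mem_primeFactors hp
    by_contra hnd
    have h1 : ∀ j, a j ≠ v → ¬ p ∣ a j := by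
      intro j hj hpj
      apply hnd
      rw [hD]
      refine Dvd.dvd.trans ?_ (dvd_prod_of_mem _ (mem_filter.2 ⟨mem_univ j, hj⟩))
      rw [← Int.natCast_dvd]
      exact dvd_sub (Int.natCast_dvd_natCast.2 hpj) (Int.natCast_dvd_natCast.2 hpv)
    have h4 : (univ.filter fun i => p ∣ a i) = univ.filter fun i => a i = v := by
      ext i
      rw [mem_filter, mem_filter]
      refine and_congr_right fun _ => ⟨fun h => ?_, fun h => by rw [h]; exact hpv⟩
      by_contra hne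
      exact h1 i hne h
    have h5 := TTB_even a hs hS hpp
    rw [h4] at h5
    exact (Nat.not_even_iff_odd.2 hodd) h5
  have hdvd : v ∣ D := by
    have h1 := Finset.prod_primes_dvd D
      (fun p hp => (Nat.prime_of_mem_primeFactors hp).prime) hprime
    rwa [Nat.prod_primeFactors_of_squarefree hvs] at h1
  have hDpos : 0 < D := by
    rw [hD]
    refine prod_pos fun j hj => ?_
    have := (mem_filter.1 hj).2
    omega
  have hDle : D ≤ H ^ K := by
    rw [hD]
    refine (prod_le_pow_card _ _ H fun j hj => ?_).trans (Nat.pow_le_pow_right hH ?_)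
    · have := ha j
      omega
    · refine (card_filter_le _ _).trans ?_
      rw [card_univ, Fintype.card_fin]
  have := Nat.le_of_dvd hDpos hdvd
  omega

theorem TTB_rep {k : ℕ} (hk : 1 ≤ k) (a : Fin (2 * k) → ℕ)
    (ha : ∀ v : ℕ, Even (univ.filter fun i => a i = v).card) :
    ∃ (f : Fin k → ℕ) (g : Fin (2 * k) → Fin k), (∀ i, ∃ j, f i = a j) ∧ f ∘ g = a := by
  obtain ⟨I, hI⟩ : ∃ I : Finset ℕ, I = univ.image a := ⟨_, rfl⟩
  have hmem : ∀ i, a i ∈ I := fun i => by rw [hI]; exact mem_image_of_mem _ (mem_univ _)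
  have hcard : I.card ≤ k := by
    have h1 := Finset.card_eq_sum_card_image a (univ : Finset (Fin (2 * k)))
    rw [card_univ, Fintype.card_fin, ← hI] at h1
    have h2 : ∑ v ∈ I, 2 ≤ ∑ v ∈ I, (univ.filter fun i => a i = v).card := by
      refine sum_le_sum fun v hv => ?_
      rw [hI, mem_image] at hv
      obtain ⟨i, -, hi⟩ := hv
      have h3 : 0 < (univ.filter fun i => a i = v).card :=
        card_pos.2 ⟨i, mem_filter.2 ⟨mem_univ _, hi⟩⟩
      obtain ⟨c, hc⟩ := ha v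
      omega
    rw [sum_const, smul_eq_mul] at h2
    have h3 : ∑ v ∈ I, (univ.filter fun i => a i = v).card = 2 * k := h1.symm
    omega
  have hIv : ∀ v ∈ I, ∃ j, v = a j := by
    intro v hv
    rw [hI, mem_image] at hv
    obtain ⟨j, -, hj⟩ := hv
    exact ⟨j, hj.symm⟩
  refine ⟨fun i => if h : (i : ℕ) < I.card then (I.equivFin.symm ⟨i, h⟩ : ℕ) else a ⟨0, by omega⟩,
    fun i => ⟨I.equivFin ⟨a i, hmem i⟩, lt_of_lt_of_le (Fin.is_lt _) hcard⟩, ?_, ?_⟩
  · intro i
    by_cases h : (i : ℕ) < I.card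
    · simp only [h, dif_pos]
      exact hIv _ (I.equivFin.symm ⟨i, h⟩).2
    · simp only [h, dif_neg, not_false_iff]
      exact ⟨_, rfl⟩
  · funext i
    simp

theorem TTB_pow (a : ℕ) (ha : 1 ≤ a) : 2 ^ a.primeFactors.card ≤ a.divisors.card := by
  rw [Nat.card_divisors (by omega), ← prod_const]
  refine prod_le_prod' fun p hp => ?_
  have h1 : 0 < a.factorization p := (Nat.prime_of_mem_primeFactors hp).factorization_pos_of_dvd
    (by omega) (Nat.dvd_of_mem_primeFactors hp)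
  omega

theorem t_TTB (h : S_BON) : S_TTB := by
  classical
  intro k hk
  have hk0 : (0 : ℝ) < k := by exact_mod_cast hk
  have hk1 : (1 : ℝ) ≤ k := by exact_mod_cast hk
  obtain ⟨L, hLd⟩ : ∃ L : ℕ, L = 4 * k ^ 2 := ⟨_, rfl⟩
  have hL : 4 * k ^ 2 ≤ 2 ^ L := by rw [hLd]; exact Nat.lt_two_pow_self.le
  have hL1 : 1 ≤ L := by
    rw [hLd]
    have := Nat.pow_le_pow_left hk 2
    omega
  have hL0 : (0 : ℝ) < L := by exact_mod_cast hL1
  obtain ⟨C1, hC1, hdiv⟩ := Pool.Agent.Helper112.divisor_bound (1 / (2 * k ^ 2 * L)) (by positivity)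
  refine ⟨⌈(2 * C1 ^ L) ^ k⌉₊ + k ^ (2 * k) + 1, by omega, fun n H hH => ?_⟩
  have hH1 : (1 : ℝ) ≤ H := by exact_mod_cast hH
  have hHk : H ^ k ≤ H ^ (k + 1) := Nat.pow_le_pow_right hH (by omega)
  rcases le_or_gt (H ^ (2 * k)) n with hn | hn
  · -- large `n`
    have h1 : TT (2 * k) n H ≤ ((Fintype.piFinset (fun _ : Fin k => Ioc n (n + H))) ×ˢ
        (univ : Finset (Fin (2 * k) → Fin k))).card := by
      unfold TT
      refine le_trans (card_le_card (t := ((Fintype.piFinset (fun _ : Fin k => Ioc n (n + H))) ×ˢ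
        (univ : Finset (Fin (2 * k) → Fin k))).image (fun t => t.1 ∘ t.2)) ?_) card_image_le
      intro a ha
      rw [mem_filter] at ha
      obtain ⟨ha1, ha2, ha3⟩ := ha
      unfold tup at ha1
      rw [Fintype.mem_piFinset] at ha1
      obtain ⟨f, g, hf, hfg⟩ := TTB_rep hk a
        (TTB_paired hH hn a (fun i => mem_Ioc.1 (ha1 i)) ha2 ha3)
      rw [mem_image]
      refine ⟨(f, g), mem_product.2 ⟨Fintype.mem_piFinset.2 fun i => ?_, mem_univ _⟩, hfg⟩
      obtain ⟨j, hj⟩ := hf i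
      show f i ∈ Ioc n (n + H)
      rw [hj]
      exact ha1 j
    have h2 : ((Fintype.piFinset (fun _ : Fin k => Ioc n (n + H))) ×ˢ
        (univ : Finset (Fin (2 * k) → Fin k))).card = H ^ k * k ^ (2 * k) := by
      rw [card_product, Fintype.card_piFinset, card_univ, Fintype.card_fun, Fintype.card_fin,
        Fintype.card_fin]
      simp
    rw [h2] at h1
    refine h1.trans ?_
    calc H ^ k * k ^ (2 * k) ≤ H ^ (k + 1) * k ^ (2 * k) := Nat.mul_le_mul_right _ hHk
      _ = k ^ (2 * k) * H ^ (k + 1) := mul_comm _ _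
      _ ≤ _ := Nat.mul_le_mul_right _ (by omega)
  · -- small `n`
    obtain ⟨A, hA⟩ : ∃ A : Finset ℕ, A = (Ioc n (n + H)).filter (fun a => Squarefree a) := ⟨_, rfl⟩
    have hAs : ∀ a ∈ A, Squarefree a := fun a ha => by
      rw [hA, mem_filter] at ha
      exact ha.2
    have h1 : TT (2 * k) n H ≤ (∑ a ∈ A, (4 * k ^ 2) ^ a.primeFactors.card) ^ k := by
      refine le_trans ?_ (h k A hAs)
      unfold TT
      refine card_le_card fun a ha => ?_
      rw [mem_filter] at ha ⊢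
      refine ⟨?_, ha.2.2⟩
      have ha1 := ha.1
      unfold tup at ha1 ⊢
      rw [Fintype.mem_piFinset] at ha1 ⊢
      intro i
      rw [hA, mem_filter]
      exact ⟨ha1 i, ha.2.1 i⟩
    have hcardA : (A.card : ℝ) ≤ H := by
      have : A.card ≤ H := by
        rw [hA]
        refine (card_filter_le _ _).trans ?_
        rw [Nat.card_Ioc]
        omega
      exact_mod_cast this
    have hHr : (0 : ℝ) < H := by linarith
    have hterm : ∀ a ∈ A, (((4 * k ^ 2) ^ a.primeFactors.card : ℕ) : ℝ) ≤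
        2 * C1 ^ L * (H : ℝ) ^ (1 / (k : ℝ)) := by
      intro a ha
      rw [hA, mem_filter, mem_Ioc] at ha
      have ha1 : 1 ≤ a := by omega
      have e1 : (4 * k ^ 2) ^ a.primeFactors.card ≤ a.divisors.card ^ L := by
        calc (4 * k ^ 2) ^ a.primeFactors.card ≤ (2 ^ L) ^ a.primeFactors.card :=
              Nat.pow_le_pow_left hL _
          _ = (2 ^ a.primeFactors.card) ^ L := by rw [← pow_mul, ← pow_mul, mul_comm]
          _ ≤ a.divisors.card ^ L := Nat.pow_le_pow_left (TTB_pow a ha1) _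
      have e2 : (((4 * k ^ 2) ^ a.primeFactors.card : ℕ) : ℝ) ≤ (a.divisors.card : ℝ) ^ L := by
        exact_mod_cast e1
      have ha2 : (a : ℝ) ≤ 2 * (H : ℝ) ^ (2 * k) := by
        have h3 : H ≤ H ^ (2 * k) := by
          calc H = H ^ 1 := (pow_one H).symm
            _ ≤ H ^ (2 * k) := Nat.pow_le_pow_right hH (by omega)
        have h4 : a ≤ 2 * H ^ (2 * k) := by omega
        exact_mod_cast h4
      have e3 : (a : ℝ) ^ (1 / (2 * (k : ℝ) ^ 2)) ≤ 2 * (H : ℝ) ^ (1 / (k : ℝ)) := by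
        calc (a : ℝ) ^ (1 / (2 * (k : ℝ) ^ 2)) ≤
              (2 * (H : ℝ) ^ (2 * k)) ^ (1 / (2 * (k : ℝ) ^ 2)) :=
              Real.rpow_le_rpow (Nat.cast_nonneg _) ha2 (by positivity)
          _ = 2 ^ (1 / (2 * (k : ℝ) ^ 2)) * (H : ℝ) ^ (1 / (k : ℝ)) := by
              rw [Real.mul_rpow (by norm_num) (by positivity), ← Real.rpow_natCast (H : ℝ) (2 * k),
                ← Real.rpow_mul hHr.le]
              congr 2
              push_cast
              field_simp
          _ ≤ 2 ^ (1 : ℝ) * (H : ℝ) ^ (1 / (k : ℝ)) := by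
              refine mul_le_mul_of_nonneg_right ?_ (by positivity)
              refine Real.rpow_le_rpow_of_exponent_le (by norm_num) ?_
              rw [div_le_one (by positivity)]
              nlinarith
          _ = 2 * (H : ℝ) ^ (1 / (k : ℝ)) := by rw [Real.rpow_one]
      calc (((4 * k ^ 2) ^ a.primeFactors.card : ℕ) : ℝ) ≤ (a.divisors.card : ℝ) ^ L := e2
        _ ≤ (C1 * (a : ℝ) ^ (1 / (2 * (k : ℝ) ^ 2 * L))) ^ L :=
            pow_le_pow_left₀ (Nat.cast_nonneg _) (hdiv a ha1) _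
        _ = C1 ^ L * (a : ℝ) ^ (1 / (2 * (k : ℝ) ^ 2)) := by
            rw [mul_pow, ← Real.rpow_natCast ((a : ℝ) ^ (1 / (2 * (k : ℝ) ^ 2 * L))) L,
              ← Real.rpow_mul (Nat.cast_nonneg _)]
            congr 2
            field_simp
        _ ≤ C1 ^ L * (2 * (H : ℝ) ^ (1 / (k : ℝ))) :=
            mul_le_mul_of_nonneg_left e3 (by positivity)
        _ = 2 * C1 ^ L * (H : ℝ) ^ (1 / (k : ℝ)) := by ring
    have hsum : ((∑ a ∈ A, (4 * k ^ 2) ^ a.primeFactors.card : ℕ) : ℝ) ≤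
        H * (2 * C1 ^ L * (H : ℝ) ^ (1 / (k : ℝ))) := by
      rw [Nat.cast_sum]
      refine (sum_le_sum hterm).trans ?_
      rw [sum_const, nsmul_eq_mul]
      exact mul_le_mul_of_nonneg_right hcardA (by positivity)
    have hfin : ((TT (2 * k) n H : ℕ) : ℝ) ≤ (2 * C1 ^ L) ^ k * (H : ℝ) ^ (k + 1) := by
      calc ((TT (2 * k) n H : ℕ) : ℝ) ≤ (((∑ a ∈ A, (4 * k ^ 2) ^ a.primeFactors.card : ℕ) ^ k : ℕ) : ℝ) := by
            exact_mod_cast h1
        _ = ((∑ a ∈ A, (4 * k ^ 2) ^ a.primeFactors.card : ℕ) : ℝ) ^ k := by push_cast; rfl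
        _ ≤ (H * (2 * C1 ^ L * (H : ℝ) ^ (1 / (k : ℝ)))) ^ k :=
            pow_le_pow_left₀ (Nat.cast_nonneg _) hsum _
        _ = (2 * C1 ^ L) ^ k * ((H : ℝ) ^ k * ((H : ℝ) ^ (1 / (k : ℝ))) ^ k) := by ring
        _ = (2 * C1 ^ L) ^ k * (H : ℝ) ^ (k + 1) := by
            have e1 : ((H : ℝ) ^ (1 / (k : ℝ))) ^ k = H := by
              rw [← Real.rpow_natCast ((H : ℝ) ^ (1 / (k : ℝ))) k, ← Real.rpow_mul hHr.le,
                one_div_mul_cancel hk0.ne', Real.rpow_one]
            rw [e1, pow_succ]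
    have hfin2 : ((TT (2 * k) n H : ℕ) : ℝ) ≤ ((⌈(2 * C1 ^ L) ^ k⌉₊ * H ^ (k + 1) : ℕ) : ℝ) := by
      refine hfin.trans ?_
      push_cast
      exact mul_le_mul_of_nonneg_right (Nat.le_ceil _) (by positivity)
    have hfin3 : TT (2 * k) n H ≤ ⌈(2 * C1 ^ L) ^ k⌉₊ * H ^ (k + 1) := by exact_mod_cast hfin2
    exact hfin3.trans (Nat.mul_le_mul_right _ (by omega))

end Pool.Agent.N282.LU
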