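import Pool.Agent.N282.LU.Rs
import Pool.Agent.N282.LU.Nl
import Pool.Agent.N282.LU.Bon
import Pool.Agent.N282.LU.Ttb
import Pool.Agent.N282.LU.Pr
import Pool.Agent.N282.LU.Mm

/-!
# Project LU: the final theorems for random signs (helper282)
-/

set_option autoImplicit false

open MeasureTheory Filter Topology Classical Polynomial

namespace Pool.Agent.N282.LU

open Pool.Agent.N282.GC Pool.Agent.N318.LS

theorem Fin_TTB : S_TTB := t_TTB t_BON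

theorem Fin_scale (M : ℝ) (hM : 0 < M) (𝒜 : Set (ℕ → ℂ)) (f : ℕ → ℝ) (N H : ℕ) (Y : ℝ) (hC : Conc 𝒜 f N H Y)
    (b : ℕ → ℕ → ℂ) (hb : ∀ n, ∃ a ∈ 𝒜, ∀ h, b n h = M * a h) :
    ∑ n ∈ Finset.Icc 1 N, ‖∑ h ∈ Finset.Icc 1 H, b n h * (f (n + h) : ℂ)‖ ≤ M * (2 * N * Y) ∧
    (2 ≤ N → ∑ n ∈ Finset.Icc 1 N, ‖∑ h ∈ Finset.Icc 1 H, b n h * (f (n + h) : ℂ)‖ / n ≤
      M * (8 * Real.log N * Y)) := by
  choose a ha hab using hb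
  have e1 : ∀ n, ‖∑ h ∈ Finset.Icc 1 H, b n h * (f (n + h) : ℂ)‖ =
      M * ‖∑ h ∈ Finset.Icc 1 H, a n h * (f (n + h) : ℂ)‖ := by
    intro n
    have e2 : ∑ h ∈ Finset.Icc 1 H, b n h * (f (n + h) : ℂ) = M * ∑ h ∈ Finset.Icc 1 H, a n h * (f (n + h) : ℂ) := by
      rw [Finset.mul_sum]
      refine Finset.sum_congr rfl fun h _ => ?_
      rw [hab]
      ring
    rw [e2, norm_mul, Complex.norm_real, Real.norm_eq_abs, abs_of_pos hM]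
  obtain ⟨h1, h2⟩ := hC a ha
  simp only [e1]
  constructor
  · rw [← Finset.mul_sum]
    exact mul_le_mul_of_nonneg_left h1 hM.le
  · intro hN
    simp only [mul_div_assoc]
    rw [← Finset.mul_sum]
    exact mul_le_mul_of_nonneg_left (h2 hN) hM.le

theorem Fin_sqrt (H : ℕ) (hH : 1 ≤ H) (ε : ℝ) (hε : 0 < ε) : √(H : ℝ) ≤ (H : ℝ) ^ (1 / 2 + ε) := by
  rw [Real.sqrt_eq_rpow]
  exact Real.rpow_le_rpow_of_exponent_le (by exact_mod_cast hH) (by linarith)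

/-- random signs, Lipschitz functions on `U_m(ℝ)/U_m(ℤ)` -/
theorem Fin_quant {Ω : Type} [iM : MeasurableSpace Ω] (P : Measure Ω) [IsProbabilityMeasure P] (s : ℕ → Ω → ℝ)
    (hm : ∀ p, Measurable (s p)) (hs : ∀ p ω, s p ω = 1 ∨ s p ω = -1) (h0 : ∀ p, ∫ ω, s p ω ∂P = 0)
    (hi : ProbabilityTheory.iIndepFun s P) {m : ℕ} {F : Matrix (Fin m) (Fin m) ℝ → ℂ} (hinv : Inv F)
    (hLip : ∃ K, LipB F K 2) (D : ℕ) :
    ∀ᵐ ω ∂P, ∀ ε : ℝ, 0 < ε → ∃ C : ℝ, ∀ N H : ℕ, 1 ≤ N → 1 ≤ H → ∀ Q : ℕ → Matrix (Fin m) (Fin m) ℝ[X],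
      (∀ n, Uni (Q n)) → (∀ n i j, (Q n i j).natDegree ≤ D) →
        ∑ n ∈ Finset.Icc 1 N, ‖∑ h ∈ Finset.Icc 1 H, F (ev (Q n) h) * (fs (fun p => s p ω) (n + h) : ℂ)‖ ≤
          C * (H : ℝ) ^ (1 / 2 + ε) * N ∧
        (2 ≤ N → ∑ n ∈ Finset.Icc 1 N, ‖∑ h ∈ Finset.Icc 1 H, F (ev (Q n) h) * (fs (fun p => s p ω) (n + h) : ℂ)‖ / n ≤
          C * (H : ℝ) ^ (1 / 2 + ε) * Real.log N) := by
  obtain ⟨K, hK⟩ := hLip
  obtain ⟨M, C, 𝒜, hM, h1, h2⟩ := Nl_quant hinv hK D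
  filter_upwards [Rs_cls t_MM Fin_TTB t_PR P s hm hs h0 hi 𝒜 (fun H => C * √H) C h2] with ω hω
  intro ε hε
  obtain ⟨C1, hC1, h3⟩ := hω ε hε
  refine ⟨8 * M * (C1 + C), fun N H hN hH Q hQ hQd => ?_⟩
  have h4 := Fin_scale M (by linarith) 𝒜 _ N H _ (h3 N H hN hH) (fun n h => F (ev (Q n) h))
    (fun n => h1 (Q n) (hQ n) (hQd n))
  have hY : C1 * (H : ℝ) ^ (1 / 2 + ε) + C * √(H : ℝ) ≤ (C1 + C) * (H : ℝ) ^ (1 / 2 + ε) := by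
    have := mul_le_mul_of_nonneg_left (Fin_sqrt H hH ε hε) (Nat.cast_nonneg C : (0 : ℝ) ≤ C)
    linarith
  have hp : 0 ≤ (H : ℝ) ^ (1 / 2 + ε) := by positivity
  have hN0 : (0 : ℝ) ≤ N := Nat.cast_nonneg _
  have hC0 : (0 : ℝ) ≤ C := Nat.cast_nonneg _
  have hl : 0 ≤ Real.log N := Real.log_nonneg (by exact_mod_cast hN)
  refine ⟨h4.1.trans ?_, fun hN2 => (h4.2 hN2).trans ?_⟩
  · calc M * (2 * N * (C1 * (H : ℝ) ^ (1 / 2 + ε) + C * √(H : ℝ)))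
        ≤ M * (2 * N * ((C1 + C) * (H : ℝ) ^ (1 / 2 + ε))) := by gcongr
      _ = (2 * (M * (C1 + C) * (H : ℝ) ^ (1 / 2 + ε) * N)) := by ring
      _ ≤ 8 * (M * (C1 + C) * (H : ℝ) ^ (1 / 2 + ε) * N) := by
          have : 0 ≤ M * (C1 + C) * (H : ℝ) ^ (1 / 2 + ε) * N := by positivity
          linarith
      _ = _ := by ring
  · calc M * (8 * Real.log N * (C1 * (H : ℝ) ^ (1 / 2 + ε) + C * √(H : ℝ)))
        ≤ M * (8 * Real.log N * ((C1 + C) * (H : ℝ) ^ (1 / 2 + ε))) := by gcongr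
      _ = _ := by ring

/-- the error terms are small for large `H` -/
theorem Fin_small (C1 C δ : ℝ) (hδ : 0 < δ) : ∃ H₀ : ℕ, ∀ H : ℕ, H₀ ≤ H →
    C1 * (H : ℝ) ^ (1 / 2 + 1 / 4 : ℝ) + (δ * H + C) ≤ 2 * δ * H := by
  have h1 : Tendsto (fun x : ℝ => C1 * x ^ (-(1 / 4) : ℝ) + C * x ^ (-1 : ℝ)) atTop (𝓝 (C1 * 0 + C * 0)) :=
    ((tendsto_rpow_neg_atTop (by norm_num)).const_mul C1).add ((tendsto_rpow_neg_atTop (by norm_num)).const_mul C)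
  rw [mul_zero, mul_zero, add_zero] at h1
  have h2 := (h1.comp tendsto_natCast_atTop_atTop).eventually (ge_mem_nhds hδ)
  obtain ⟨H₁, hH₁⟩ := eventually_atTop.1 h2
  refine ⟨max H₁ 1, fun H hH => ?_⟩
  have h3 := hH₁ H ((le_max_left _ _).trans hH)
  simp only [Function.comp] at h3
  have hH0 : (0 : ℝ) < H := by exact_mod_cast (le_max_right _ _).trans hH
  have e1 : (H : ℝ) ^ (1 / 2 + 1 / 4 : ℝ) = (H : ℝ) ^ (-(1 / 4) : ℝ) * H := by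
    nth_rw 3 [← Real.rpow_one (H : ℝ)]
    rw [← Real.rpow_add hH0]
    norm_num
  have e2 : (H : ℝ) ^ (-1 : ℝ) * H = 1 := by
    rw [Real.rpow_neg_one, inv_mul_cancel₀ hH0.ne']
  have h4 := mul_le_mul_of_nonneg_right h3 hH0.le
  calc C1 * (H : ℝ) ^ (1 / 2 + 1 / 4 : ℝ) + (δ * H + C)
      = (C1 * (H : ℝ) ^ (-(1 / 4) : ℝ) + C * (H : ℝ) ^ (-1 : ℝ)) * H + δ * H := by
        rw [e1, add_mul, mul_assoc C, e2]
        ring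
    _ ≤ δ * H + δ * H := by linarith
    _ = 2 * δ * H := by ring

/-- random signs, continuous functions on closed unitriangular groups modulo their integer points -/
theorem Fin_qual {Ω : Type} [iM : MeasurableSpace Ω] (P : Measure Ω) [IsProbabilityMeasure P] (s : ℕ → Ω → ℝ)
    (hm : ∀ p, Measurable (s p)) (hs : ∀ p ω, s p ω = 1 ∨ s p ω = -1) (h0 : ∀ p, ∫ ω, s p ω ∂P = 0)
    (hi : ProbabilityTheory.iIndepFun s P) {m : ℕ} {G : Set (Matrix (Fin m) (Fin m) ℝ)} (hG : Nilm G)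
    {F : Matrix (Fin m) (Fin m) ℝ → ℂ} (hF : ContinuousOn F G)
    (hFi : ∀ A ∈ G, ∀ g : Matrix (Fin m) (Fin m) ℤ, rl g ∈ G → F (A * rl g) = F A) (D : ℕ) :
    ∀ᵐ ω ∂P, ∀ ε : ℝ, 0 < ε → ∃ H₀ : ℕ, ∀ N H : ℕ, 2 ≤ N → H₀ ≤ H → 1 ≤ H → ∀ Q : ℕ → Matrix (Fin m) (Fin m) ℝ[X],
      (∀ n h, ev (Q n) h ∈ G) → (∀ n i j, (Q n i j).natDegree ≤ D) →
        ∑ n ∈ Finset.Icc 1 N, ‖∑ h ∈ Finset.Icc 1 H, F (ev (Q n) h) * (fs (fun p => s p ω) (n + h) : ℂ)‖ / n ≤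
          ε * H * Real.log N := by
  obtain ⟨M, 𝒜, hM, h1, h2⟩ := Nl_qual hG hF hFi D
  choose C hC using fun i : ℕ => h2 (1 / ((i : ℝ) + 1)) (by positivity)
  have hall : ∀ᵐ ω ∂P, ∀ i : ℕ, ∀ ε : ℝ, 0 < ε → ∃ C1 : ℝ, 0 ≤ C1 ∧ ∀ N H : ℕ, 1 ≤ N → 1 ≤ H →
      Conc 𝒜 (fs fun p => s p ω) N H (C1 * (H : ℝ) ^ (1 / 2 + ε) + (1 / ((i : ℝ) + 1) * H + C i)) := by
    rw [ae_all_iff]
    intro i
    exact Rs_cls t_MM Fin_TTB t_PR P s hm hs h0 hi 𝒜 (fun H => 1 / ((i : ℝ) + 1) * H + C i) (C i) (hC i)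
  filter_upwards [hall] with ω hω
  intro ε hε
  have hM0 : 0 < M := by linarith
  obtain ⟨i, hi0⟩ := exists_nat_gt (16 * M / ε)
  set δ : ℝ := 1 / ((i : ℝ) + 1) with hδ
  have hδ0 : 0 < δ := by positivity
  have hδ1 : 16 * M * δ ≤ ε := by
    rw [hδ, mul_one_div, div_le_iff₀ (by positivity)]
    rw [div_lt_iff₀ hε] at hi0
    nlinarith
  obtain ⟨C1, hC1, h3⟩ := hω i (1 / 4) (by norm_num)
  obtain ⟨H₀, hH₀⟩ := Fin_small C1 (C i) δ hδ0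
  refine ⟨H₀, fun N H hN hH hH1 Q hQ hQd => ?_⟩
  have h4 := (Fin_scale M hM0 𝒜 _ N H _ (h3 N H (by omega) hH1) (fun n h => F (ev (Q n) h))
    (fun n => h1 (Q n) (hQ n) (hQd n))).2 hN
  refine h4.trans ?_
  have hl : 0 ≤ Real.log N := Real.log_nonneg (by exact_mod_cast (by omega : 1 ≤ N))
  have hH0 : (0 : ℝ) ≤ H := Nat.cast_nonneg _
  calc M * (8 * Real.log N * (C1 * (H : ℝ) ^ (1 / 2 + 1 / 4 : ℝ) + (δ * H + C i)))
      ≤ M * (8 * Real.log N * (2 * δ * H)) := by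
        have := hH₀ H hH
        gcongr
    _ = (16 * M * δ) * (H * Real.log N) := by ring
    _ ≤ ε * (H * Real.log N) := mul_le_mul_of_nonneg_right hδ1 (by positivity)
    _ = ε * H * Real.log N := by ring

end Pool.Agent.N282.LU
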