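import Pool.Agent.N282.LU.Stm

/-!
# Project LU: probability of large moments (helper282)
-/

set_option autoImplicit false

open MeasureTheory Filter Topology Classical

namespace Pool.Agent.N282.LU

open Pool.Agent.N282.GC

/-- near orthogonality of a random function -/
def Orth (k N H : ℕ) {Ω : Type} [MeasurableSpace Ω] (P : Measure Ω) (F : Ω → ℕ → ℝ) (δ : ℝ) : Prop :=
  0 ≤ δ ∧ (∀ n, Measurable fun ω => F ω n) ∧ (∀ ω n, |F ω n| ≤ 1) ∧ (∀ ω n, ¬ Squarefree n → F ω n = 0) ∧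
    ∀ (L : ℕ) (a : Fin L → ℕ), L ≤ 4 * k → (∀ i, a i ≤ N + H) → (∀ i, Squarefree (a i)) →
      ¬ IsSquare (∏ i, a i) → |∫ ω, ∏ i, F ω (a i) ∂P| ≤ δ

theorem Pb_Z_nonneg (k H : ℕ) (W : Finset (ℕ → ℂ)) (F : ℕ → ℝ) (n : ℕ) : 0 ≤ Z k H W F n :=
  Finset.sum_nonneg fun _ _ => by positivity

theorem Pb_Z_meas {Ω : Type} [MeasurableSpace Ω] (k H : ℕ) (W : Finset (ℕ → ℂ)) (F : Ω → ℕ → ℝ)
    (hm : ∀ n, Measurable fun ω => F ω n) (n : ℕ) : Measurable fun ω => Z k H W (F ω) n := by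
  unfold Z
  refine Finset.measurable_sum _ fun w _ => ?_
  refine Measurable.pow_const (Measurable.norm ?_) _
  refine Finset.measurable_sum _ fun h _ => ?_
  exact (Complex.measurable_ofReal.comp (hm (n + h))).const_mul (w h)

theorem Pb_sum_le (H : ℕ) (w : ℕ → ℂ) (hw : ∀ h, ‖w h‖ ≤ 1) (F : ℕ → ℝ) (hF : ∀ n, |F n| ≤ 1) (n : ℕ) :
    ‖∑ h ∈ Finset.Icc 1 H, w h * (F (n + h) : ℂ)‖ ≤ H := by
  refine (norm_sum_le _ _).trans ?_
  calc ∑ h ∈ Finset.Icc 1 H, ‖w h * (F (n + h) : ℂ)‖ ≤ ∑ _h ∈ Finset.Icc 1 H, (1 : ℝ) := by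
        refine Finset.sum_le_sum fun h _ => ?_
        rw [norm_mul, Complex.norm_real, Real.norm_eq_abs]
        exact mul_le_one₀ (hw h) (abs_nonneg _) (hF _)
    _ = H := by simp

theorem Pb_Z_le (k H : ℕ) (W : Finset (ℕ → ℂ)) (hW : ∀ w ∈ W, ∀ h, ‖w h‖ ≤ 1) (F : ℕ → ℝ) (hF : ∀ n, |F n| ≤ 1)
    (n : ℕ) : Z k H W F n ≤ W.card * (H : ℝ) ^ (2 * k) := by
  unfold Z
  rw [← nsmul_eq_mul]
  refine Finset.sum_le_card_nsmul _ _ _ fun w hw => ?_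
  exact pow_le_pow_left₀ (norm_nonneg _) (Pb_sum_le H w (hW w hw) F hF n) _

theorem Pb_Z_int {Ω : Type} [MeasurableSpace Ω] (P : Measure Ω) [IsProbabilityMeasure P] (k H : ℕ)
    (W : Finset (ℕ → ℂ)) (hW : ∀ w ∈ W, ∀ h, ‖w h‖ ≤ 1) (F : Ω → ℕ → ℝ)
    (hm : ∀ n, Measurable fun ω => F ω n) (hF : ∀ ω n, |F ω n| ≤ 1) (n : ℕ) :
    Integrable (fun ω => Z k H W (F ω) n) P := by
  refine Integrable.of_bound (C := W.card * (H : ℝ) ^ (2 * k)) (Pb_Z_meas k H W F hm n).aestronglyMeasurable ?_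
  refine Eventually.of_forall fun ω => ?_
  rw [Real.norm_eq_abs, abs_of_nonneg (Pb_Z_nonneg _ _ _ _ _)]
  exact Pb_Z_le k H W hW (F ω) (hF ω) n

/-- powers against exponentials -/
theorem Pb_exp (b : ℕ) (c : ℝ) (hc : 0 < c) : ∃ B : ℝ, 0 < B ∧ ∀ j : ℕ, ((j : ℝ) + 1) ^ b * (2 : ℝ) ^ (-(c * j)) ≤ B := by
  set r : ℝ := (2 : ℝ) ^ (-c) with hr
  have hr0 : 0 < r := by positivity
  have hr1 : r < 1 := Real.rpow_lt_one_of_one_lt_of_neg (by norm_num) (by linarith)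
  have h1 : Tendsto (fun n : ℕ => (n : ℝ) ^ b * r ^ n) atTop (𝓝 0) :=
    tendsto_pow_const_mul_const_pow_of_abs_lt_one b (by rw [abs_of_pos hr0]; exact hr1)
  obtain ⟨B, hB⟩ := h1.bddAbove_range
  have hB' : ∀ n : ℕ, (n : ℝ) ^ b * r ^ n ≤ B := fun n => hB ⟨n, rfl⟩
  refine ⟨(|B| + 1) / r, by positivity, fun j => ?_⟩
  rw [le_div_iff₀ hr0]
  have e1 : (2 : ℝ) ^ (-(c * j)) * r = r ^ (j + 1) := by
    rw [hr, ← Real.rpow_natCast, ← Real.rpow_mul (by norm_num), ← Real.rpow_add (by norm_num)]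
    congr 1
    push_cast
    ring
  rw [mul_assoc, e1]
  have h2 := hB' (j + 1)
  push_cast at h2
  linarith [le_abs_self B]

theorem Pb_aux (N M A x y u v δ B : ℝ) (hN : 0 ≤ N) (hM : 0 ≤ M) (hx : 0 ≤ x) (hy : 0 ≤ y) (hu : 0 ≤ u)
    (hv : 0 ≤ v) (hδ : 0 ≤ δ) (hB : 0 ≤ B) (h1 : u ≤ v) (h2 : x ≤ y) (h3 : A ≤ M) :
    N * ((A * x) * (δ * u)) ≤ δ * v * (2 + B) * (M * N * y) := by
  have h4 : A * x ≤ M * y := mul_le_mul h3 h2 hx hM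
  have h5 : δ * u ≤ δ * v := mul_le_mul_of_nonneg_left h1 hδ
  have h6 : (A * x) * (δ * u) ≤ (M * y) * (δ * v) := mul_le_mul h4 h5 (by positivity) (by positivity)
  have h7 : N * ((A * x) * (δ * u)) ≤ N * ((M * y) * (δ * v)) := mul_le_mul_of_nonneg_left h6 hN
  have h8 : 0 ≤ N * ((M * y) * (δ * v)) := by positivity
  calc N * ((A * x) * (δ * u)) ≤ N * ((M * y) * (δ * v)) * 1 := by rw [mul_one]; exact h7
    _ ≤ N * ((M * y) * (δ * v)) * (2 + B) := mul_le_mul_of_nonneg_left (by linarith) h8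
    _ = _ := by ring

theorem Pb_main (hMM : S_MM) (hT : S_TTB) (hP : S_PR) (k a Cw : ℕ) (hk : 1 ≤ k) : ∃ M K : ℝ, 0 < M ∧ 0 < K ∧
    ∀ (H j : ℕ), 1 ≤ H → ∀ (Ω : Type) (_ : MeasurableSpace Ω) (P : Measure Ω) (_ : IsProbabilityMeasure P)
      (F : Ω → ℕ → ℝ) (δ : ℝ), Orth k (2 ^ j) H P F δ → ∀ W : Finset (ℕ → ℂ), (∀ w ∈ W, ∀ h, ‖w h‖ ≤ 1) →
      (W.card : ℝ) ≤ Cw * (H : ℝ) ^ Cw →
      (P {ω | M * 2 ^ j * (H : ℝ) ^ (k + Cw + a + 3) < ∑ n ∈ Finset.range (2 ^ j), Z k H W (F ω) n}).toReal ≤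
        K / ((H : ℝ) ^ a * ((j : ℝ) + 1) ^ 2) + δ * (H : ℝ) ^ (4 * k) * K := by
  obtain ⟨CT, hCT1, hCT⟩ := hT k hk
  obtain ⟨c, C, hc, hC, hPR⟩ := hP (2 * k) (by omega)
  obtain ⟨B, hB, hBj⟩ := Pb_exp (⌈C⌉₊ + a + 2) c hc
  have hCT0 : (1 : ℝ) ≤ CT := by exact_mod_cast hCT1
  set M : ℝ := 2 * ((Cw : ℝ) + 1) * CT with hM
  have hM0 : 0 < M := by positivity
  refine ⟨M, 2 + C * B, hM0, by positivity, ?_⟩
  intro H j hH Ω iM P iP F δ hO W hW hWc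
  obtain ⟨hδ, hm, hF, hsf, horth⟩ := hO
  have hH1 : (1 : ℝ) ≤ H := by exact_mod_cast hH
  have hH0 : (0 : ℝ) < H := by linarith
  obtain ⟨hA, hBB⟩ := hMM k (2 ^ j) H hk Nat.one_le_two_pow hH Ω iM P iP F δ hδ hm hF hsf horth W hW
  set N : ℝ := (2 : ℝ) ^ j with hN
  have hN0 : 0 < N := by positivity
  have hNc : ((2 ^ j : ℕ) : ℝ) = N := by rw [hN]; push_cast; rfl
  set e : ℕ := k + Cw + a + 3 with he
  have hthr : 0 < M * N * (H : ℝ) ^ e := by positivity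
  have hWc' : (W.card : ℝ) ≤ ((Cw : ℝ) + 1) * (H : ℝ) ^ Cw := by
    refine hWc.trans ?_
    have : 0 ≤ (H : ℝ) ^ Cw := by positivity
    nlinarith
  have hW0 : (0 : ℝ) ≤ W.card := Nat.cast_nonneg _
  have hTT : ∀ n, (TT (2 * k) n H : ℝ) ≤ CT * (H : ℝ) ^ (k + 1) := by
    intro n
    exact_mod_cast hCT n H hH
  rcases Nat.lt_or_ge H j with hj | hj
  · -- the second moment
    set l : ℝ := M * N * (H : ℝ) ^ e / 2 with hl
    have hl0 : 0 < l := by positivity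
    have h1 := hBB l hl0
    have hsub : (W.card : ℝ) * (∑ n ∈ Finset.range (2 ^ j), (TT (2 * k) n H : ℝ)) + l ≤ M * N * (H : ℝ) ^ e := by
      have h2 : ∑ n ∈ Finset.range (2 ^ j), (TT (2 * k) n H : ℝ) ≤ N * (CT * (H : ℝ) ^ (k + 1)) := by
        refine (Finset.sum_le_card_nsmul _ _ _ fun n _ => hTT n).trans (le_of_eq ?_)
        rw [Finset.card_range, nsmul_eq_mul, hNc]
      have h3 : (W.card : ℝ) * (∑ n ∈ Finset.range (2 ^ j), (TT (2 * k) n H : ℝ)) ≤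
          (((Cw : ℝ) + 1) * (H : ℝ) ^ Cw) * (N * (CT * (H : ℝ) ^ (k + 1))) :=
        mul_le_mul hWc' h2 (Finset.sum_nonneg fun _ _ => Nat.cast_nonneg _) (by positivity)
      have h4 : (((Cw : ℝ) + 1) * (H : ℝ) ^ Cw) * (N * (CT * (H : ℝ) ^ (k + 1))) =
          (M * N / 2) * (H : ℝ) ^ (Cw + (k + 1)) := by
        rw [hM, pow_add]
        ring
      have h5 : (H : ℝ) ^ (Cw + (k + 1)) ≤ (H : ℝ) ^ e := pow_le_pow_right₀ hH1 (by omega)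
      have h6 : (M * N / 2) * (H : ℝ) ^ (Cw + (k + 1)) ≤ (M * N / 2) * (H : ℝ) ^ e :=
        mul_le_mul_of_nonneg_left h5 (by positivity)
      have h7 : l = (M * N / 2) * (H : ℝ) ^ e := by rw [hl]; ring
      have h8 : M * N * (H : ℝ) ^ e = (M * N / 2) * (H : ℝ) ^ e + (M * N / 2) * (H : ℝ) ^ e := by ring
      rw [h8]
      linarith
    have hmono : (P {ω | M * N * (H : ℝ) ^ e < ∑ n ∈ Finset.range (2 ^ j), Z k H W (F ω) n}).toReal ≤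
        (P {ω | (W.card : ℝ) * (∑ n ∈ Finset.range (2 ^ j), (TT (2 * k) n H : ℝ)) + l <
          ∑ n ∈ Finset.range (2 ^ j), Z k H W (F ω) n}).toReal := by
      refine ENNReal.toReal_mono (measure_ne_top _ _) (measure_mono ?_)
      intro ω hω
      exact lt_of_le_of_lt hsub hω
    refine (hmono.trans h1).trans ?_
    rw [hNc]
    -- `|W| 2^j ≤ l`
    have h2 : (W.card : ℝ) * N ≤ l := by
      rw [hl]
      have h3 : (H : ℝ) ^ Cw ≤ (H : ℝ) ^ e := pow_le_pow_right₀ hH1 (by omega)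
      calc (W.card : ℝ) * N ≤ (((Cw : ℝ) + 1) * (H : ℝ) ^ Cw) * N := mul_le_mul_of_nonneg_right hWc' hN0.le
        _ ≤ (((Cw : ℝ) + 1) * (H : ℝ) ^ e) * N := by gcongr
        _ = (((Cw : ℝ) + 1) * N * (H : ℝ) ^ e) * 1 := by ring
        _ ≤ (((Cw : ℝ) + 1) * N * (H : ℝ) ^ e) * CT := mul_le_mul_of_nonneg_left hCT0 (by positivity)
        _ = M * N * (H : ℝ) ^ e / 2 := by rw [hM]; ring
    set R : ℝ := (PR (2 * k) (2 ^ j) H : ℝ) + δ * N ^ 2 * (H : ℝ) ^ (4 * k) with hR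
    have hR0 : 0 ≤ R := by positivity
    have h3 : (W.card : ℝ) ^ 2 * R / l ^ 2 ≤ R / N ^ 2 := by
      rw [div_le_div_iff₀ (by positivity) (by positivity)]
      have h4 : ((W.card : ℝ) * N) ^ 2 ≤ l ^ 2 := pow_le_pow_left₀ (by positivity) h2 2
      calc (W.card : ℝ) ^ 2 * R * N ^ 2 = R * ((W.card : ℝ) * N) ^ 2 := by ring
        _ ≤ R * l ^ 2 := mul_le_mul_of_nonneg_left h4 hR0
    refine h3.trans ?_
    have h5 : R / N ^ 2 = (PR (2 * k) (2 ^ j) H : ℝ) / N ^ 2 + δ * (H : ℝ) ^ (4 * k) := by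
      rw [hR]
      field_simp
    rw [h5]
    have h6 : (PR (2 * k) (2 ^ j) H : ℝ) / N ^ 2 ≤ C * (H : ℝ) ^ ⌈C⌉₊ * (2 : ℝ) ^ (-(c * j)) := by
      have h7 := hPR (2 ^ j) H Nat.one_le_two_pow hH
      rw [hNc] at h7
      have h8 : (H : ℝ) ^ C ≤ (H : ℝ) ^ ⌈C⌉₊ := by
        rw [← Real.rpow_natCast]
        exact Real.rpow_le_rpow_of_exponent_le hH1 (Nat.le_ceil _)
      have h9 : N ^ (2 - c) = N ^ 2 * (2 : ℝ) ^ (-(c * j)) := by
        rw [Real.rpow_sub hN0, Real.rpow_two, div_eq_mul_inv, ← Real.rpow_neg hN0.le, hN, ← Real.rpow_natCast 2 j,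
          ← Real.rpow_mul (by norm_num : (0 : ℝ) ≤ 2) (j : ℝ) (-c)]
        congr 2
        ring
      rw [div_le_iff₀ (by positivity)]
      calc (PR (2 * k) (2 ^ j) H : ℝ) ≤ C * (H : ℝ) ^ C * N ^ (2 - c) := h7
        _ ≤ C * (H : ℝ) ^ ⌈C⌉₊ * N ^ (2 - c) := by gcongr
        _ = C * (H : ℝ) ^ ⌈C⌉₊ * (2 : ℝ) ^ (-(c * j)) * N ^ 2 := by rw [h9]; ring
    have h10 : C * (H : ℝ) ^ ⌈C⌉₊ * (2 : ℝ) ^ (-(c * j)) ≤ (2 + C * B) / ((H : ℝ) ^ a * ((j : ℝ) + 1) ^ 2) := by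
      rw [le_div_iff₀ (by positivity)]
      have hHj : (H : ℝ) ≤ (j : ℝ) + 1 := by
        have : H ≤ j + 1 := by omega
        exact_mod_cast this
      have h11 : (H : ℝ) ^ (⌈C⌉₊ + a) ≤ ((j : ℝ) + 1) ^ (⌈C⌉₊ + a) := pow_le_pow_left₀ hH0.le hHj _
      have h2p : (0 : ℝ) ≤ (2 : ℝ) ^ (-(c * j)) := by positivity
      calc C * (H : ℝ) ^ ⌈C⌉₊ * (2 : ℝ) ^ (-(c * j)) * ((H : ℝ) ^ a * ((j : ℝ) + 1) ^ 2)
          = C * ((H : ℝ) ^ (⌈C⌉₊ + a) * ((j : ℝ) + 1) ^ 2 * (2 : ℝ) ^ (-(c * j))) := by rw [pow_add]; ring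
        _ ≤ C * (((j : ℝ) + 1) ^ (⌈C⌉₊ + a) * ((j : ℝ) + 1) ^ 2 * (2 : ℝ) ^ (-(c * j))) := by gcongr
        _ = C * (((j : ℝ) + 1) ^ (⌈C⌉₊ + a + 2) * (2 : ℝ) ^ (-(c * j))) := by rw [← pow_add]
        _ ≤ C * B := mul_le_mul_of_nonneg_left (hBj j) hC.le
        _ ≤ 2 + C * B := by linarith
    have h12 : δ * (H : ℝ) ^ (4 * k) ≤ δ * (H : ℝ) ^ (4 * k) * (2 + C * B) := by
      have : 0 ≤ δ * (H : ℝ) ^ (4 * k) := by positivity
      have h13 : 0 ≤ C * B := by positivity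
      nlinarith
    linarith
  · -- the first moment
    set X : Ω → ℝ := fun ω => ∑ n ∈ Finset.range (2 ^ j), Z k H W (F ω) n with hX
    have hXint : Integrable X P := integrable_finsetSum _ fun n _ => Pb_Z_int P k H W hW F hm hF n
    have hX0 : 0 ≤ᵐ[P] X := Eventually.of_forall fun ω => Finset.sum_nonneg fun n _ => Pb_Z_nonneg _ _ _ _ _
    have hmk := mul_meas_ge_le_integral_of_nonneg hX0 hXint (M * N * (H : ℝ) ^ e)
    have hE : ∫ ω, X ω ∂P ≤ N * ((((Cw : ℝ) + 1) * (H : ℝ) ^ Cw) * (CT * (H : ℝ) ^ (k + 1) + δ * (H : ℝ) ^ (2 * k))) := by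
      rw [hX, integral_finsetSum _ fun n _ => Pb_Z_int P k H W hW F hm hF n]
      refine (Finset.sum_le_card_nsmul _ _ _ fun n hn => ?_).trans (le_of_eq ?_) (b :=
        (Finset.range (2 ^ j)).card • ((((Cw : ℝ) + 1) * (H : ℝ) ^ Cw) * (CT * (H : ℝ) ^ (k + 1) + δ * (H : ℝ) ^ (2 * k))))
      · refine (hA n (Finset.mem_range.1 hn)).trans ?_
        refine mul_le_mul hWc' ?_ (by positivity) (by positivity)
        have := hTT n
        linarith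
      · rw [Finset.card_range, nsmul_eq_mul, hNc]
    have hprob : (P {ω | M * N * (H : ℝ) ^ e < X ω}).toReal ≤ (∫ ω, X ω ∂P) / (M * N * (H : ℝ) ^ e) := by
      rw [le_div_iff₀ hthr, mul_comm]
      refine le_trans ?_ hmk
      refine mul_le_mul_of_nonneg_left ?_ hthr.le
      refine ENNReal.toReal_mono (measure_ne_top _ _) (measure_mono ?_)
      intro ω hω
      have hω' : M * N * (H : ℝ) ^ e < X ω := hω
      exact hω'.le
    refine hprob.trans ?_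
    rw [div_le_iff₀ hthr]
    refine hE.trans ?_
    have hj2 : ((j : ℝ) + 1) ^ 2 ≤ 4 * (H : ℝ) ^ 2 := by
      have : (j : ℝ) ≤ H := by exact_mod_cast hj
      have h0 : (0 : ℝ) ≤ j := Nat.cast_nonneg _
      nlinarith
    have hCB : 0 ≤ C * B := by positivity
    -- first part
    have p1 : N * ((((Cw : ℝ) + 1) * (H : ℝ) ^ Cw) * (CT * (H : ℝ) ^ (k + 1))) ≤
        (2 + C * B) / ((H : ℝ) ^ a * ((j : ℝ) + 1) ^ 2) * (M * N * (H : ℝ) ^ e) := by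
      rw [div_mul_eq_mul_div, le_div_iff₀ (by positivity)]
      calc N * ((((Cw : ℝ) + 1) * (H : ℝ) ^ Cw) * (CT * (H : ℝ) ^ (k + 1))) * ((H : ℝ) ^ a * ((j : ℝ) + 1) ^ 2)
          ≤ N * ((((Cw : ℝ) + 1) * (H : ℝ) ^ Cw) * (CT * (H : ℝ) ^ (k + 1))) * ((H : ℝ) ^ a * (4 * (H : ℝ) ^ 2)) := by
            gcongr
        _ = 2 * (M * N * (H : ℝ) ^ e) := by
            rw [hM, he, pow_add, pow_add, pow_add, pow_add]
            ring
        _ ≤ (2 + C * B) * (M * N * (H : ℝ) ^ e) := by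
            have := hthr.le
            nlinarith
    have p2 : N * ((((Cw : ℝ) + 1) * (H : ℝ) ^ Cw) * (δ * (H : ℝ) ^ (2 * k))) ≤
        δ * (H : ℝ) ^ (4 * k) * (2 + C * B) * (M * N * (H : ℝ) ^ e) := by
      have q1 : (H : ℝ) ^ (2 * k) ≤ (H : ℝ) ^ (4 * k) := pow_le_pow_right₀ hH1 (by omega)
      have q2 : (H : ℝ) ^ Cw ≤ (H : ℝ) ^ e := pow_le_pow_right₀ hH1 (by omega)
      have q3 : ((Cw : ℝ) + 1) ≤ M := by
        rw [hM]
        have : (0 : ℝ) ≤ (Cw : ℝ) + 1 := by positivity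
        nlinarith
      exact Pb_aux N M ((Cw : ℝ) + 1) ((H : ℝ) ^ Cw) ((H : ℝ) ^ e) ((H : ℝ) ^ (2 * k)) ((H : ℝ) ^ (4 * k)) δ (C * B)
        hN0.le hM0.le (by positivity) (by positivity) (by positivity) (by positivity) hδ hCB q1 q2 q3
    calc N * ((((Cw : ℝ) + 1) * (H : ℝ) ^ Cw) * (CT * (H : ℝ) ^ (k + 1) + δ * (H : ℝ) ^ (2 * k)))
        = N * ((((Cw : ℝ) + 1) * (H : ℝ) ^ Cw) * (CT * (H : ℝ) ^ (k + 1))) +
          N * ((((Cw : ℝ) + 1) * (H : ℝ) ^ Cw) * (δ * (H : ℝ) ^ (2 * k))) := by ring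
      _ ≤ _ := (add_le_add p1 p2).trans (le_of_eq (add_mul _ _ _).symm)

end Pool.Agent.N282.LU
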