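import Pool.Agent.N282.LU.Fin
import Pool.Agent.N282.GC.Cn
import Pool.Agent.N282.GC.Jac

/-!
# Project LU: real characters (helper282)
-/

set_option autoImplicit false

open MeasureTheory Filter Topology Classical Polynomial

namespace Pool.Agent.N282.LU

open Pool.Agent.N282.GC Pool.Agent.N318.LS

theorem Rc_orth (k N H D : ℕ) (hD : 1 ≤ D) (hH : 1 ≤ H) :
    Orth k N H (CN_P (CN_S D)) (fun d => fj d) (8 * ((N : ℝ) + H) ^ (4 * k) / D) := by
  have hD0 : (0 : ℝ) < D := by exact_mod_cast hD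
  refine ⟨by positivity, fun n => measurable_of_countable _, fun d n => CN_fj_abs d n, fun d n h => CN_fj_zero d n h, ?_⟩
  intro L a hL ha hsf hsq
  rw [CN_int, abs_mul]
  have hc := (CN_S_card D).1
  have hc0 : (0 : ℝ) < (CN_S D).card := by linarith
  rw [abs_of_pos (by positivity : (0 : ℝ) < ((CN_S D).card : ℝ)⁻¹)]
  have h1 := SUP_sum_fj t_JAC L D (N + H) a fun i => ⟨Nat.pos_of_ne_zero (hsf i).ne_zero, ha i⟩
  rw [if_neg hsq] at h1
  have h3 : ((CN_S D).card : ℝ)⁻¹ ≤ 2 / D := by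
    rw [inv_le_comm₀ hc0 (by positivity), inv_div]
    exact hc
  have hR : (1 : ℝ) ≤ (N : ℝ) + H := by
    have : (1 : ℝ) ≤ H := by exact_mod_cast hH
    linarith [Nat.cast_nonneg (α := ℝ) N]
  have h4 : |∑ d ∈ CN_S D, ∏ i, fj d (a i)| ≤ 4 * ((N : ℝ) + H) ^ (4 * k) := by
    refine (show |∑ d ∈ CN_S D, ∏ i, fj d (a i)| ≤ 4 * (((N + H : ℕ) : ℝ)) ^ L from h1).trans ?_
    push_cast
    exact mul_le_mul_of_nonneg_left (pow_le_pow_right₀ hR hL) (by norm_num)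
  calc ((CN_S D).card : ℝ)⁻¹ * |∑ d ∈ CN_S D, ∏ i, fj d (a i)| ≤ (2 / D) * (4 * ((N : ℝ) + H) ^ (4 * k)) :=
        mul_le_mul h3 h4 (abs_nonneg _) (by positivity)
    _ = 8 * ((N : ℝ) + H) ^ (4 * k) / D := by ring

/-- counting by the uniform probability -/
theorem Rc_card (D : ℕ) (hD : 1 ≤ D) (p : ℕ → Prop) :
    (((CN_S D).filter p).card : ℝ) ≤ D * (CN_P (CN_S D) {d | p d}).toReal := by
  have hP := CN_prob (CN_S_nonempty hD)
  have h1 := CN_int (CN_S D) (fun d => if p d then (1 : ℝ) else 0)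
  have h2 : ∫ d, (if p d then (1 : ℝ) else 0) ∂(CN_P (CN_S D)) = (CN_P (CN_S D) {d | p d}).toReal := by
    have h3 := integral_indicator_one (μ := CN_P (CN_S D)) (s := {d | p d}) (MeasurableSet.of_discrete)
    rw [measureReal_def] at h3
    rw [← h3]
    refine integral_congr_ae (Eventually.of_forall fun d => ?_)
    by_cases hd : p d
    · simp [Set.indicator, hd]
    · simp [Set.indicator, hd]
  rw [h2, ← Finset.sum_filter, Finset.sum_const, nsmul_eq_mul, mul_one] at h1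
  have hc := (CN_S_card D)
  have hD0 : (0 : ℝ) < D := by exact_mod_cast hD
  have hc0 : (0 : ℝ) < (CN_S D).card := by linarith
  have h4 : (((CN_S D).filter p).card : ℝ) = (CN_S D).card * (CN_P (CN_S D) {d | p d}).toReal := by
    rw [h1]
    field_simp
  rw [h4]
  exact mul_le_mul_of_nonneg_right hc.2 ENNReal.toReal_nonneg

/-- the bad moduli -/
def Bad (k e : ℕ) (M : ℝ) (W : ℕ → Finset (ℕ → ℂ)) (H j d : ℕ) : Prop :=
  M * 2 ^ j * (H : ℝ) ^ e < ∑ n ∈ Finset.range (2 ^ j), Z k H (W H) (fj d) n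

/-- the number of the bad moduli -/
theorem Rc_count (k b Cw : ℕ) (hk : 1 ≤ k) : ∃ M K : ℝ, 0 < M ∧ 0 < K ∧ ∀ W : ℕ → Finset (ℕ → ℂ),
    (∀ H, ∀ w ∈ W H, ∀ h, ‖w h‖ ≤ 1) → (∀ H, 1 ≤ H → ((W H).card : ℝ) ≤ Cw * (H : ℝ) ^ Cw) →
    ∀ D X R0 : ℕ, 1 ≤ D → 1 ≤ R0 →
      (((CN_S D).filter fun d => ∃ H j : ℕ, R0 ≤ H ∧ H ≤ X ∧ 2 ^ j ≤ 2 * X ∧
        Bad k (k + Cw + (b + 2) + 3) M W H j d).card : ℝ) ≤
        K * (D * (1 / (R0 : ℝ) ^ b) + (X : ℝ) ^ (8 * k + 2)) := by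
  obtain ⟨M, K, hM, hK, hPb⟩ := Pb_main t_MM Fin_TTB t_PR k (b + 2) Cw hk
  have hs1 : Summable fun i : ℕ => 1 / ((i : ℝ) + 1) ^ 2 := by
    have := (summable_nat_add_iff 1).2 (Real.summable_one_div_nat_pow.2 (by norm_num : 1 < 2))
    simpa using this
  have hs2 : Summable fun i : ℕ => 1 / (i : ℝ) ^ 2 := Real.summable_one_div_nat_pow.2 (by norm_num : 1 < 2)
  set S1 : ℝ := ∑' i : ℕ, 1 / ((i : ℝ) + 1) ^ 2 with hS1
  set S2 : ℝ := ∑' i : ℕ, 1 / (i : ℝ) ^ 2 with hS2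
  have hS1p : 0 ≤ S1 := tsum_nonneg fun _ => by positivity
  have hS2p : 0 ≤ S2 := tsum_nonneg fun _ => by positivity
  refine ⟨M, K * (S1 * S2) + 3 * (8 * 3 ^ (4 * k) * K) + 1, hM, by positivity, ?_⟩
  intro W hW hWc D X R0 hD hR0
  have hD0 : (0 : ℝ) < D := by exact_mod_cast hD
  have hR00 : (0 : ℝ) < R0 := by exact_mod_cast hR0
  set J : Finset ℕ := (Finset.range (2 * X + 1)).filter fun j => 2 ^ j ≤ 2 * X with hJ
  have hP := CN_prob (CN_S_nonempty hD)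
  -- one pair
  have hone : ∀ H ∈ Finset.Icc R0 X, ∀ j ∈ J,
      (((CN_S D).filter fun d => Bad k (k + Cw + (b + 2) + 3) M W H j d).card : ℝ) ≤
        (D * K * (1 / (R0 : ℝ) ^ b)) * ((1 / (H : ℝ) ^ 2) * (1 / ((j : ℝ) + 1) ^ 2)) +
          8 * 3 ^ (4 * k) * K * (X : ℝ) ^ (8 * k) := by
    intro H hH j hj
    rw [Finset.mem_Icc] at hH
    rw [hJ, Finset.mem_filter] at hj
    have hH1 : 1 ≤ H := by omega
    have hHr : (1 : ℝ) ≤ H := by exact_mod_cast hH1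
    have hH0 : (0 : ℝ) < H := by linarith
    have h1 := hPb H j hH1 ℕ _ (CN_P (CN_S D)) hP (fun d => fj d) _ (Rc_orth k (2 ^ j) H D hD hH1) (W H) (hW H) (hWc H hH1)
    refine (Rc_card D hD _).trans ?_
    refine (mul_le_mul_of_nonneg_left h1 hD0.le).trans ?_
    rw [mul_add]
    refine add_le_add ?_ ?_
    · have h2 : (R0 : ℝ) ^ b ≤ (H : ℝ) ^ b := pow_le_pow_left₀ hR00.le (by exact_mod_cast hH.1) b
      have h3 : 1 / (H : ℝ) ^ b ≤ 1 / (R0 : ℝ) ^ b := one_div_le_one_div_of_le (by positivity) h2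
      calc (D : ℝ) * (K / ((H : ℝ) ^ (b + 2) * ((j : ℝ) + 1) ^ 2)) =
            (D * K * (1 / (H : ℝ) ^ b)) * ((1 / (H : ℝ) ^ 2) * (1 / ((j : ℝ) + 1) ^ 2)) := by
            rw [pow_add]
            field_simp
        _ ≤ _ := by gcongr
    · have hHX : (H : ℝ) ≤ X := by exact_mod_cast hH.2
      have h2 : (((2 ^ j : ℕ) : ℝ)) ≤ 2 * X := by exact_mod_cast hj.2
      have h3 : ((2 ^ j : ℕ) : ℝ) + H ≤ 3 * X := by linarith
      have h4 : (((2 ^ j : ℕ) : ℝ) + H) ^ (4 * k) ≤ (3 * X) ^ (4 * k) := pow_le_pow_left₀ (by positivity) h3 _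
      have h5 : (H : ℝ) ^ (4 * k) ≤ (X : ℝ) ^ (4 * k) := pow_le_pow_left₀ hH0.le hHX _
      calc (D : ℝ) * (8 * (((2 ^ j : ℕ) : ℝ) + H) ^ (4 * k) / D * (H : ℝ) ^ (4 * k) * K) =
            8 * (((2 ^ j : ℕ) : ℝ) + H) ^ (4 * k) * (H : ℝ) ^ (4 * k) * K := by field_simp
        _ ≤ 8 * (3 * X) ^ (4 * k) * (X : ℝ) ^ (4 * k) * K := by gcongr
        _ = 8 * 3 ^ (4 * k) * K * (X : ℝ) ^ (8 * k) := by
            rw [mul_pow, show 8 * k = 4 * k + 4 * k by ring, pow_add]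
            ring
  -- the union
  have hsub : ((CN_S D).filter fun d => ∃ H j : ℕ, R0 ≤ H ∧ H ≤ X ∧ 2 ^ j ≤ 2 * X ∧
      Bad k (k + Cw + (b + 2) + 3) M W H j d) ⊆ (Finset.Icc R0 X).biUnion fun H => J.biUnion fun j =>
        (CN_S D).filter fun d => Bad k (k + Cw + (b + 2) + 3) M W H j d := by
    intro d hd
    rw [Finset.mem_filter] at hd
    obtain ⟨hd1, H, j, h1, h2, h3, h4⟩ := hd
    rw [Finset.mem_biUnion]
    refine ⟨H, Finset.mem_Icc.2 ⟨h1, h2⟩, ?_⟩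
    rw [Finset.mem_biUnion]
    refine ⟨j, ?_, Finset.mem_filter.2 ⟨hd1, h4⟩⟩
    rw [hJ, Finset.mem_filter, Finset.mem_range]
    have : j < 2 ^ j := Nat.lt_two_pow_self
    exact ⟨by omega, h3⟩
  have hcard : (((CN_S D).filter fun d => ∃ H j : ℕ, R0 ≤ H ∧ H ≤ X ∧ 2 ^ j ≤ 2 * X ∧
        Bad k (k + Cw + (b + 2) + 3) M W H j d).card : ℝ) ≤
      ∑ H ∈ Finset.Icc R0 X, ∑ j ∈ J, (((CN_S D).filter fun d => Bad k (k + Cw + (b + 2) + 3) M W H j d).card : ℝ) := by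
    have h1 := (Finset.card_le_card hsub).trans (Finset.card_biUnion_le.trans
      (Finset.sum_le_sum fun H _ => Finset.card_biUnion_le))
    exact_mod_cast h1
  refine hcard.trans ((Finset.sum_le_sum fun H hH => Finset.sum_le_sum fun j hj => hone H hH j hj).trans ?_)
  simp only [Finset.sum_add_distrib, Finset.sum_const, nsmul_eq_mul]
  have hA : ∑ H ∈ Finset.Icc R0 X, ∑ j ∈ J,
      (D * K * (1 / (R0 : ℝ) ^ b)) * ((1 / (H : ℝ) ^ 2) * (1 / ((j : ℝ) + 1) ^ 2)) ≤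
        (D * K * (1 / (R0 : ℝ) ^ b)) * (S2 * S1) := by
    simp only [← Finset.mul_sum]
    rw [← Finset.sum_mul]
    refine mul_le_mul_of_nonneg_left ?_ (by positivity)
    refine mul_le_mul ?_ ?_ (Finset.sum_nonneg fun _ _ => by positivity) hS2p
    · exact hs2.sum_le_tsum _ fun _ _ => by positivity
    · exact hs1.sum_le_tsum _ fun _ _ => by positivity
  have hJc : (J.card : ℝ) ≤ 2 * X + 1 := by
    have : J.card ≤ 2 * X + 1 := by
      rw [hJ]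
      exact (Finset.card_filter_le _ _).trans (by rw [Finset.card_range])
    exact_mod_cast this
  have hIc : ((Finset.Icc R0 X).card : ℝ) ≤ X := by
    have : (Finset.Icc R0 X).card ≤ X := by
      rw [Nat.card_Icc]
      omega
    exact_mod_cast this
  have hB : ((Finset.Icc R0 X).card : ℝ) * ((J.card : ℝ) * (8 * 3 ^ (4 * k) * K * (X : ℝ) ^ (8 * k))) ≤
      3 * (8 * 3 ^ (4 * k) * K) * (X : ℝ) ^ (8 * k + 2) := by
    rcases Nat.eq_zero_or_pos X with hX | hX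
    · have : (Finset.Icc R0 X).card = 0 := by
        rw [Nat.card_Icc]
        omega
      rw [this]
      simp only [Nat.cast_zero, zero_mul]
      positivity
    · have hX1 : (1 : ℝ) ≤ X := by exact_mod_cast hX
      calc ((Finset.Icc R0 X).card : ℝ) * ((J.card : ℝ) * (8 * 3 ^ (4 * k) * K * (X : ℝ) ^ (8 * k)))
          ≤ X * ((3 * X) * (8 * 3 ^ (4 * k) * K * (X : ℝ) ^ (8 * k))) := by
            refine mul_le_mul hIc ?_ (by positivity) (by positivity)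
            refine mul_le_mul_of_nonneg_right (hJc.trans (by linarith)) (by positivity)
        _ = _ := by rw [pow_add]; ring
  have hX0 : (0 : ℝ) ≤ (X : ℝ) ^ (8 * k + 2) := by positivity
  have hR1 : (0 : ℝ) ≤ D * (1 / (R0 : ℝ) ^ b) := by positivity
  have h8 : (0 : ℝ) ≤ 3 * (8 * 3 ^ (4 * k) * K) := by positivity
  have h9 : (0 : ℝ) ≤ K * (S1 * S2) := by positivity
  calc _ ≤ (D * K * (1 / (R0 : ℝ) ^ b)) * (S2 * S1) + 3 * (8 * 3 ^ (4 * k) * K) * (X : ℝ) ^ (8 * k + 2) :=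
        add_le_add hA hB
    _ = (K * (S1 * S2)) * (D * (1 / (R0 : ℝ) ^ b)) + 3 * (8 * 3 ^ (4 * k) * K) * (X : ℝ) ^ (8 * k + 2) := by ring
    _ ≤ _ := by nlinarith

end Pool.Agent.N282.LU
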