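import Pool.Agent.N282.LU.Rc

/-!
# Project LU: the final theorems for real characters (helper282)
-/

set_option autoImplicit false

open MeasureTheory Filter Topology Classical Polynomial

namespace Pool.Agent.N282.LU

open Pool.Agent.N282.GC Pool.Agent.N318.LS

theorem Conc_mono (𝒜 : Set (ℕ → ℂ)) (F : ℕ → ℝ) (N H : ℕ) (hN : 1 ≤ N) (Y Y' : ℝ) (hY : Y ≤ Y') (h : Conc 𝒜 F N H Y) :
    Conc 𝒜 F N H Y' := by
  intro a ha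
  obtain ⟨h1, h2⟩ := h a ha
  have hN0 : (0 : ℝ) ≤ N := Nat.cast_nonneg _
  have hl : 0 ≤ Real.log N := Real.log_nonneg (by exact_mod_cast hN)
  exact ⟨h1.trans (mul_le_mul_of_nonneg_left hY (by positivity)),
    fun h3 => (h2 h3).trans (mul_le_mul_of_nonneg_left hY (by positivity))⟩

theorem Rc_cls (𝒜 : Set (ℕ → ℂ)) (E : ℕ → ℝ) (Cw : ℕ)
    (hcov : ∀ H : ℕ, 1 ≤ H → ∃ W : Finset (ℕ → ℂ), (W.card : ℝ) ≤ Cw * (H : ℝ) ^ Cw ∧ (∀ w ∈ W, ∀ h, ‖w h‖ ≤ 1) ∧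
      ∀ a ∈ 𝒜, ∃ w ∈ W, ∑ h ∈ Finset.Icc 1 H, ‖a h - w h‖ ≤ E H) (ε A : ℝ) (hε : 0 < ε) (hA : 0 < A) :
    ∃ c C : ℝ, 0 < c ∧ 0 < C ∧ ∀ D R0 : ℕ, 1 ≤ R0 →
      (((Finset.Icc 1 D).filter fun d => Odd d ∧ ∃ N H : ℕ, R0 ≤ H ∧ 1 ≤ N ∧ (N : ℝ) ≤ (D : ℝ) ^ c ∧
        (H : ℝ) ≤ (D : ℝ) ^ c ∧ ¬ Conc 𝒜 (fj d) N H (C * (H : ℝ) ^ (1 / 2 + ε) + E H)).card : ℝ) ≤
        C * D * (R0 : ℝ) ^ (-A) := by
  have hcov' : ∀ H : ℕ, ∃ W : Finset (ℕ → ℂ), (∀ w ∈ W, ∀ h, ‖w h‖ ≤ 1) ∧ (1 ≤ H →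
      (W.card : ℝ) ≤ Cw * (H : ℝ) ^ Cw ∧ ∀ a ∈ 𝒜, ∃ w ∈ W, ∑ h ∈ Finset.Icc 1 H, ‖a h - w h‖ ≤ E H) := by
    intro H
    by_cases hH : 1 ≤ H
    · obtain ⟨W, h1, h2, h3⟩ := hcov H hH
      exact ⟨W, h2, fun _ => ⟨h1, h3⟩⟩
    · exact ⟨∅, by simp, fun h => absurd h hH⟩
  choose W hW hW2 using hcov'
  set b : ℕ := ⌈A⌉₊ with hb
  have hbA : A ≤ b := Nat.le_ceil _
  set e0 : ℕ := Cw + (b + 2) + 3 with he0
  set k : ℕ := ⌈(e0 : ℝ) / (2 * ε)⌉₊ + 1 with hk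
  have hk1 : 1 ≤ k := by omega
  have hkε : (e0 : ℝ) ≤ 2 * k * ε := by
    have h1 : (e0 : ℝ) / (2 * ε) ≤ k := by
      rw [hk]
      push_cast
      have := Nat.le_ceil ((e0 : ℝ) / (2 * ε))
      linarith
    rw [div_le_iff₀ (by positivity)] at h1
    linarith
  have hk0 : (0 : ℝ) < k := by exact_mod_cast hk1
  obtain ⟨M, K, hM, hK, hcount⟩ := Rc_count k b Cw hk1
  set c : ℝ := min (1 / (2 * (8 * k + 2))) (1 / (2 * A)) with hc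
  have hc0 : 0 < c := lt_min (by positivity) (by positivity)
  have hc1 : c * (8 * k + 2) ≤ 1 / 2 := by
    have h1 : c ≤ 1 / (2 * (8 * k + 2)) := min_le_left _ _
    calc c * (8 * k + 2) ≤ 1 / (2 * (8 * k + 2)) * (8 * k + 2) := mul_le_mul_of_nonneg_right h1 (by positivity)
      _ = 1 / 2 := by field_simp
  have hc2 : c * A ≤ 1 / 2 := by
    have h1 : c ≤ 1 / (2 * A) := min_le_right _ _
    calc c * A ≤ 1 / (2 * A) * A := mul_le_mul_of_nonneg_right h1 hA.le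
      _ = 1 / 2 := by field_simp
  refine ⟨c, M + 1 + 2 * K, hc0, by positivity, fun D R0 hR0 => ?_⟩
  have hR00 : (0 : ℝ) < R0 := by exact_mod_cast hR0
  have hR01 : (1 : ℝ) ≤ R0 := by exact_mod_cast hR0
  rcases Nat.eq_zero_or_pos D with hD | hD
  · subst hD
    simp
  have hDr : (1 : ℝ) ≤ D := by exact_mod_cast hD
  have hD0 : (0 : ℝ) < D := by linarith
  set X : ℕ := ⌊(D : ℝ) ^ c⌋₊ with hX
  have hXD : (X : ℝ) ≤ (D : ℝ) ^ c := Nat.floor_le (by positivity)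
  have hlX : ∀ n : ℕ, (n : ℝ) ≤ (D : ℝ) ^ c → n ≤ X := fun n hn => Nat.le_floor hn
  by_cases hRX : R0 ≤ X
  · have hsub : ((Finset.Icc 1 D).filter fun d => Odd d ∧ ∃ N H : ℕ, R0 ≤ H ∧ 1 ≤ N ∧ (N : ℝ) ≤ (D : ℝ) ^ c ∧
        (H : ℝ) ≤ (D : ℝ) ^ c ∧ ¬ Conc 𝒜 (fj d) N H ((M + 1 + 2 * K) * (H : ℝ) ^ (1 / 2 + ε) + E H)) ⊆
        (CN_S D).filter fun d => ∃ H j : ℕ, R0 ≤ H ∧ H ≤ X ∧ 2 ^ j ≤ 2 * X ∧
          Bad k (k + Cw + (b + 2) + 3) M W H j d := by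
      intro d hd
      rw [Finset.mem_filter] at hd
      obtain ⟨hd1, hd2, N, H, hRH, hN, hND, hHD, hnC⟩ := hd
      rw [Finset.mem_filter]
      refine ⟨?_, ?_⟩
      · unfold CN_S
        rw [Finset.mem_filter]
        exact ⟨hd1, hd2⟩
      · by_contra hcon
        push Not at hcon
        have hH1 : 1 ≤ H := by omega
        apply hnC
        have h1 := Conc_of_Z 𝒜 (fj d) (CN_fj_abs d) k N H hk1 hN (W H) (M * (H : ℝ) ^ (k + e0)) (E H) (hW2 H hH1).2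
          (fun j hj => by
            have h2 := hcon H j hRH (hlX H hHD) (hj.trans (by have := hlX N hND; omega))
            unfold Bad at h2
            have h3 := not_lt.1 h2
            refine h3.trans (le_of_eq ?_)
            have e : k + Cw + (b + 2) + 3 = k + e0 := by rw [he0]; ring
            rw [e]
            ring)
        refine Conc_mono 𝒜 (fj d) N H hN _ _ ?_ h1
        have h4 := Rs_rpow M hM.le k e0 H hk1 hH1 ε hkε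
        have h5 : 0 ≤ (H : ℝ) ^ (1 / 2 + ε) := by positivity
        nlinarith
    have h1 : (((Finset.Icc 1 D).filter fun d => Odd d ∧ ∃ N H : ℕ, R0 ≤ H ∧ 1 ≤ N ∧ (N : ℝ) ≤ (D : ℝ) ^ c ∧
        (H : ℝ) ≤ (D : ℝ) ^ c ∧ ¬ Conc 𝒜 (fj d) N H ((M + 1 + 2 * K) * (H : ℝ) ^ (1 / 2 + ε) + E H)).card : ℝ) ≤
        (((CN_S D).filter fun d => ∃ H j : ℕ, R0 ≤ H ∧ H ≤ X ∧ 2 ^ j ≤ 2 * X ∧
          Bad k (k + Cw + (b + 2) + 3) M W H j d).card : ℝ) := by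
      exact_mod_cast Finset.card_le_card hsub
    refine h1.trans ((hcount W hW (fun H hH => (hW2 H hH).1) D X R0 hD hR0).trans ?_)
    have h2 : 1 / (R0 : ℝ) ^ b ≤ (R0 : ℝ) ^ (-A) := by
      rw [Real.rpow_neg hR00.le, one_div]
      refine inv_anti₀ (by positivity) ?_
      rw [← Real.rpow_natCast]
      exact Real.rpow_le_rpow_of_exponent_le hR01 hbA
    have h3 : (X : ℝ) ^ (8 * k + 2) ≤ D * (R0 : ℝ) ^ (-A) := by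
      have q1 : (X : ℝ) ^ (8 * k + 2) ≤ (D : ℝ) ^ (1 / 2 : ℝ) := by
        calc (X : ℝ) ^ (8 * k + 2) ≤ ((D : ℝ) ^ c) ^ (8 * k + 2) := pow_le_pow_left₀ (Nat.cast_nonneg _) hXD _
          _ = (D : ℝ) ^ (c * (8 * k + 2)) := by
              rw [← Real.rpow_natCast, ← Real.rpow_mul hD0.le]
              push_cast
              rfl
          _ ≤ _ := Real.rpow_le_rpow_of_exponent_le hDr hc1
      have q2 : (R0 : ℝ) ^ A ≤ (D : ℝ) ^ (1 / 2 : ℝ) := by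
        have q3 : (R0 : ℝ) ≤ (D : ℝ) ^ c := le_trans (by exact_mod_cast hRX) hXD
        calc (R0 : ℝ) ^ A ≤ ((D : ℝ) ^ c) ^ A := Real.rpow_le_rpow hR00.le q3 hA.le
          _ = (D : ℝ) ^ (c * A) := by rw [← Real.rpow_mul hD0.le]
          _ ≤ _ := Real.rpow_le_rpow_of_exponent_le hDr hc2
      have q4 : (D : ℝ) = (D : ℝ) ^ (1 / 2 : ℝ) * (D : ℝ) ^ (1 / 2 : ℝ) := by
        rw [← Real.rpow_add hD0]
        norm_num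
      rw [Real.rpow_neg hR00.le, ← div_eq_mul_inv, le_div_iff₀ (by positivity)]
      calc (X : ℝ) ^ (8 * k + 2) * (R0 : ℝ) ^ A ≤ (D : ℝ) ^ (1 / 2 : ℝ) * (D : ℝ) ^ (1 / 2 : ℝ) :=
            mul_le_mul q1 q2 (by positivity) (by positivity)
        _ = D := q4.symm
    have hRA : 0 ≤ (R0 : ℝ) ^ (-A) := by positivity
    calc K * (D * (1 / (R0 : ℝ) ^ b) + (X : ℝ) ^ (8 * k + 2)) ≤ K * (D * (R0 : ℝ) ^ (-A) + D * (R0 : ℝ) ^ (-A)) := by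
          gcongr
      _ = 2 * K * (D * (R0 : ℝ) ^ (-A)) := by ring
      _ ≤ (M + 1 + 2 * K) * (D * (R0 : ℝ) ^ (-A)) := mul_le_mul_of_nonneg_right (by linarith) (by positivity)
      _ = _ := by ring
  · have : ((Finset.Icc 1 D).filter fun d => Odd d ∧ ∃ N H : ℕ, R0 ≤ H ∧ 1 ≤ N ∧ (N : ℝ) ≤ (D : ℝ) ^ c ∧
        (H : ℝ) ≤ (D : ℝ) ^ c ∧ ¬ Conc 𝒜 (fj d) N H ((M + 1 + 2 * K) * (H : ℝ) ^ (1 / 2 + ε) + E H)) = ∅ := by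
      rw [Finset.filter_eq_empty_iff]
      rintro d _ ⟨_, N, H, hRH, _, _, hHD, _⟩
      have := hlX H hHD
      omega
    rw [this, Finset.card_empty, Nat.cast_zero]
    positivity

/-- real characters, Lipschitz functions on `U_m(ℝ)/U_m(ℤ)` -/
theorem Rc_quant {m : ℕ} {F : Matrix (Fin m) (Fin m) ℝ → ℂ} (hinv : Inv F) (hLip : ∃ K, LipB F K 2) (D₀ : ℕ)
    (ε A : ℝ) (hε : 0 < ε) (hA : 0 < A) :
    ∃ c C : ℝ, 0 < c ∧ 0 < C ∧ ∀ D R0 : ℕ, 1 ≤ R0 →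
      (((Finset.Icc 1 D).filter fun d => Odd d ∧ ∃ N H : ℕ, R0 ≤ H ∧ 2 ≤ N ∧ (N : ℝ) ≤ (D : ℝ) ^ c ∧
        (H : ℝ) ≤ (D : ℝ) ^ c ∧ ∃ Q : ℕ → Matrix (Fin m) (Fin m) ℝ[X],
        (∀ n, Uni (Q n)) ∧ (∀ n i j, (Q n i j).natDegree ≤ D₀) ∧
        (C * (H : ℝ) ^ (1 / 2 + ε) * Real.log N <
          ∑ n ∈ Finset.Icc 1 N, ‖∑ h ∈ Finset.Icc 1 H, F (ev (Q n) h) * (fj d (n + h) : ℂ)‖ / n ∨
        C * (H : ℝ) ^ (1 / 2 + ε) * N <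
          ∑ n ∈ Finset.Icc 1 N, ‖∑ h ∈ Finset.Icc 1 H, F (ev (Q n) h) * (fj d (n + h) : ℂ)‖)).card : ℝ) ≤
        C * D * (R0 : ℝ) ^ (-A) := by
  obtain ⟨K, hK⟩ := hLip
  obtain ⟨M, Cn, 𝒜, hM, h1, h2⟩ := Nl_quant hinv hK D₀
  obtain ⟨c, C1, hc, hC1, h3⟩ := Rc_cls 𝒜 (fun H => Cn * √H) Cn h2 ε A hε hA
  have hCn : (0 : ℝ) ≤ Cn := Nat.cast_nonneg _
  have hCge : C1 ≤ 8 * M * (C1 + Cn) := by nlinarith
  refine ⟨c, 8 * M * (C1 + Cn), hc, by positivity, fun D R0 hR0 => ?_⟩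
  have hRA : 0 ≤ (R0 : ℝ) ^ (-A) := by positivity
  refine le_trans ?_ ((h3 D R0 hR0).trans (by
    have hD0 : (0 : ℝ) ≤ D := Nat.cast_nonneg _
    gcongr))
  have hsub : ((Finset.Icc 1 D).filter fun d => Odd d ∧ ∃ N H : ℕ, R0 ≤ H ∧ 2 ≤ N ∧ (N : ℝ) ≤ (D : ℝ) ^ c ∧
        (H : ℝ) ≤ (D : ℝ) ^ c ∧ ∃ Q : ℕ → Matrix (Fin m) (Fin m) ℝ[X],
        (∀ n, Uni (Q n)) ∧ (∀ n i j, (Q n i j).natDegree ≤ D₀) ∧
        (8 * M * (C1 + Cn) * (H : ℝ) ^ (1 / 2 + ε) * Real.log N <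
          ∑ n ∈ Finset.Icc 1 N, ‖∑ h ∈ Finset.Icc 1 H, F (ev (Q n) h) * (fj d (n + h) : ℂ)‖ / n ∨
        8 * M * (C1 + Cn) * (H : ℝ) ^ (1 / 2 + ε) * N <
          ∑ n ∈ Finset.Icc 1 N, ‖∑ h ∈ Finset.Icc 1 H, F (ev (Q n) h) * (fj d (n + h) : ℂ)‖)) ⊆
      ((Finset.Icc 1 D).filter fun d => Odd d ∧ ∃ N H : ℕ, R0 ≤ H ∧ 1 ≤ N ∧ (N : ℝ) ≤ (D : ℝ) ^ c ∧
        (H : ℝ) ≤ (D : ℝ) ^ c ∧ ¬ Conc 𝒜 (fj d) N H (C1 * (H : ℝ) ^ (1 / 2 + ε) + Cn * √H)) := by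
    intro d hd
    rw [Finset.mem_filter] at hd
    obtain ⟨hd1, hd2, N, H, hRH, hN, hND, hHD, Q, hQ, hQd, hor⟩ := hd
    rw [Finset.mem_filter]
    refine ⟨hd1, hd2, N, H, hRH, by omega, hND, hHD, fun hcon => ?_⟩
    have hH : 1 ≤ H := by omega
    have h4 := Fin_scale M (by linarith) 𝒜 _ N H _ hcon (fun n h => F (ev (Q n) h))
      (fun n => h1 (Q n) (hQ n) (hQd n))
    have hY : C1 * (H : ℝ) ^ (1 / 2 + ε) + Cn * √(H : ℝ) ≤ (C1 + Cn) * (H : ℝ) ^ (1 / 2 + ε) := by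
      have := mul_le_mul_of_nonneg_left (Fin_sqrt H hH ε hε) hCn
      linarith
    have hp : 0 ≤ (H : ℝ) ^ (1 / 2 + ε) := by positivity
    have hN0 : (0 : ℝ) ≤ N := Nat.cast_nonneg _
    have hl : 0 ≤ Real.log N := Real.log_nonneg (by exact_mod_cast (by omega : 1 ≤ N))
    rcases hor with h5 | h5
    · refine absurd h5 (not_lt.2 ((h4.2 hN).trans ?_))
      calc M * (8 * Real.log N * (C1 * (H : ℝ) ^ (1 / 2 + ε) + Cn * √(H : ℝ)))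
          ≤ M * (8 * Real.log N * ((C1 + Cn) * (H : ℝ) ^ (1 / 2 + ε))) := by gcongr
        _ = _ := by ring
    · refine absurd h5 (not_lt.2 (h4.1.trans ?_))
      calc M * (2 * N * (C1 * (H : ℝ) ^ (1 / 2 + ε) + Cn * √(H : ℝ)))
          ≤ M * (2 * N * ((C1 + Cn) * (H : ℝ) ^ (1 / 2 + ε))) := by gcongr
        _ = (2 * (M * (C1 + Cn) * (H : ℝ) ^ (1 / 2 + ε) * N)) := by ring
        _ ≤ 8 * (M * (C1 + Cn) * (H : ℝ) ^ (1 / 2 + ε) * N) := by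
            have : 0 ≤ M * (C1 + Cn) * (H : ℝ) ^ (1 / 2 + ε) * N := by positivity
            linarith
        _ = _ := by ring
  exact_mod_cast Finset.card_le_card hsub

/-- real characters, continuous functions on closed unitriangular groups modulo their integer points -/
theorem Rc_qual {m : ℕ} {G : Set (Matrix (Fin m) (Fin m) ℝ)} (hG : Nilm G)
    {F : Matrix (Fin m) (Fin m) ℝ → ℂ} (hF : ContinuousOn F G)
    (hFi : ∀ A ∈ G, ∀ g : Matrix (Fin m) (Fin m) ℤ, rl g ∈ G → F (A * rl g) = F A) (D₀ : ℕ)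
    (ε A : ℝ) (hε : 0 < ε) (hA : 0 < A) :
    ∃ c C : ℝ, 0 < c ∧ 0 < C ∧ ∀ D R0 : ℕ, 1 ≤ R0 →
      (((Finset.Icc 1 D).filter fun d => Odd d ∧ ∃ N H : ℕ, R0 ≤ H ∧ 2 ≤ N ∧ (N : ℝ) ≤ (D : ℝ) ^ c ∧
        (H : ℝ) ≤ (D : ℝ) ^ c ∧ ∃ Q : ℕ → Matrix (Fin m) (Fin m) ℝ[X],
        (∀ n h, ev (Q n) h ∈ G) ∧ (∀ n i j, (Q n i j).natDegree ≤ D₀) ∧
        ε * H * Real.log N <
          ∑ n ∈ Finset.Icc 1 N, ‖∑ h ∈ Finset.Icc 1 H, F (ev (Q n) h) * (fj d (n + h) : ℂ)‖ / n).card : ℝ) ≤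
        C * D * (R0 : ℝ) ^ (-A) := by
  obtain ⟨M, 𝒜, hM, h1, h2⟩ := Nl_qual hG hF hFi D₀
  have hM0 : 0 < M := by linarith
  set δ : ℝ := ε / (16 * M) with hδ
  have hδ0 : 0 < δ := by positivity
  obtain ⟨Cn, hCn⟩ := h2 δ hδ0
  obtain ⟨c, C1, hc, hC1, h3⟩ := Rc_cls 𝒜 (fun H => δ * H + Cn) Cn hCn (1 / 4) A (by norm_num) hA
  obtain ⟨H₀, hH₀⟩ := Fin_small C1 Cn δ hδ0
  refine ⟨c, C1 + (H₀ : ℝ) ^ A, hc, by positivity, fun D R0 hR0 => ?_⟩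
  have hR00 : (0 : ℝ) < R0 := by exact_mod_cast hR0
  have hRA : 0 < (R0 : ℝ) ^ (-A) := by positivity
  have hD0 : (0 : ℝ) ≤ D := Nat.cast_nonneg _
  rcases Nat.lt_or_ge R0 H₀ with hR | hR
  · -- trivial
    have h4 : (1 : ℝ) ≤ (H₀ : ℝ) ^ A * (R0 : ℝ) ^ (-A) := by
      rw [Real.rpow_neg hR00.le, ← div_eq_mul_inv, le_div_iff₀ (by positivity), one_mul]
      exact Real.rpow_le_rpow hR00.le (by exact_mod_cast hR.le) hA.le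
    have h5 : (((Finset.Icc 1 D).filter fun d => Odd d ∧ ∃ N H : ℕ, R0 ≤ H ∧ 2 ≤ N ∧ (N : ℝ) ≤ (D : ℝ) ^ c ∧
        (H : ℝ) ≤ (D : ℝ) ^ c ∧ ∃ Q : ℕ → Matrix (Fin m) (Fin m) ℝ[X],
        (∀ n h, ev (Q n) h ∈ G) ∧ (∀ n i j, (Q n i j).natDegree ≤ D₀) ∧
        ε * H * Real.log N <
          ∑ n ∈ Finset.Icc 1 N, ‖∑ h ∈ Finset.Icc 1 H, F (ev (Q n) h) * (fj d (n + h) : ℂ)‖ / n).card : ℝ) ≤ D := by
      have := Finset.card_filter_le (Finset.Icc 1 D) (fun d => Odd d ∧ ∃ N H : ℕ, R0 ≤ H ∧ 2 ≤ N ∧ (N : ℝ) ≤ (D : ℝ) ^ c ∧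
        (H : ℝ) ≤ (D : ℝ) ^ c ∧ ∃ Q : ℕ → Matrix (Fin m) (Fin m) ℝ[X],
        (∀ n h, ev (Q n) h ∈ G) ∧ (∀ n i j, (Q n i j).natDegree ≤ D₀) ∧
        ε * H * Real.log N <
          ∑ n ∈ Finset.Icc 1 N, ‖∑ h ∈ Finset.Icc 1 H, F (ev (Q n) h) * (fj d (n + h) : ℂ)‖ / n)
      rw [Nat.card_Icc, Nat.add_sub_cancel] at this
      exact_mod_cast this
    refine h5.trans ?_
    have h6 : 0 ≤ C1 * D * (R0 : ℝ) ^ (-A) := by positivity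
    calc (D : ℝ) = D * 1 := (mul_one _).symm
      _ ≤ D * ((H₀ : ℝ) ^ A * (R0 : ℝ) ^ (-A)) := mul_le_mul_of_nonneg_left h4 hD0
      _ ≤ C1 * D * (R0 : ℝ) ^ (-A) + D * ((H₀ : ℝ) ^ A * (R0 : ℝ) ^ (-A)) := by linarith
      _ = _ := by ring
  · have hHA : (0 : ℝ) ≤ (H₀ : ℝ) ^ A := by positivity
    refine le_trans ?_ ((h3 D R0 hR0).trans (by
      have : C1 ≤ C1 + (H₀ : ℝ) ^ A := by linarith
      gcongr))
    have hsub : ((Finset.Icc 1 D).filter fun d => Odd d ∧ ∃ N H : ℕ, R0 ≤ H ∧ 2 ≤ N ∧ (N : ℝ) ≤ (D : ℝ) ^ c ∧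
        (H : ℝ) ≤ (D : ℝ) ^ c ∧ ∃ Q : ℕ → Matrix (Fin m) (Fin m) ℝ[X],
        (∀ n h, ev (Q n) h ∈ G) ∧ (∀ n i j, (Q n i j).natDegree ≤ D₀) ∧
        ε * H * Real.log N <
          ∑ n ∈ Finset.Icc 1 N, ‖∑ h ∈ Finset.Icc 1 H, F (ev (Q n) h) * (fj d (n + h) : ℂ)‖ / n) ⊆
        ((Finset.Icc 1 D).filter fun d => Odd d ∧ ∃ N H : ℕ, R0 ≤ H ∧ 1 ≤ N ∧ (N : ℝ) ≤ (D : ℝ) ^ c ∧
          (H : ℝ) ≤ (D : ℝ) ^ c ∧ ¬ Conc 𝒜 (fj d) N H (C1 * (H : ℝ) ^ (1 / 2 + 1 / 4 : ℝ) + (δ * H + Cn))) := by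
      intro d hd
      rw [Finset.mem_filter] at hd
      obtain ⟨hd1, hd2, N, H, hRH, hN, hND, hHD, Q, hQ, hQd, h5⟩ := hd
      rw [Finset.mem_filter]
      refine ⟨hd1, hd2, N, H, hRH, by omega, hND, hHD, fun hcon => ?_⟩
      have h4 := (Fin_scale M hM0 𝒜 _ N H _ hcon (fun n h => F (ev (Q n) h)) (fun n => h1 (Q n) (hQ n) (hQd n))).2 hN
      refine absurd h5 (not_lt.2 (h4.trans ?_))
      have hl : 0 ≤ Real.log N := Real.log_nonneg (by exact_mod_cast (by omega : 1 ≤ N))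
      have h6 := hH₀ H (by omega)
      calc M * (8 * Real.log N * (C1 * (H : ℝ) ^ (1 / 2 + 1 / 4 : ℝ) + (δ * H + Cn)))
          ≤ M * (8 * Real.log N * (2 * δ * H)) := by gcongr
        _ = ε * H * Real.log N := by
            rw [hδ]
            field_simp
            ring
    exact_mod_cast Finset.card_le_card hsub

end Pool.Agent.N282.LU
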