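import Pool.Agent.N282.LU.Pb
import Pool.Agent.N282.LU.Dt
import Pool.Agent.N282.EH.Mom

/-!
# Project LU: random signs (helper282)
-/

set_option autoImplicit false

open MeasureTheory Filter Topology Classical

namespace Pool.Agent.N282.LU

open Pool.Agent.N282.GC

theorem Rs_orth {Ω : Type} [iM : MeasurableSpace Ω] (P : Measure Ω) [IsProbabilityMeasure P] (s : ℕ → Ω → ℝ)
    (hm : ∀ p, Measurable (s p)) (hs : ∀ p ω, s p ω = 1 ∨ s p ω = -1) (h0 : ∀ p, ∫ ω, s p ω ∂P = 0)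
    (hi : ProbabilityTheory.iIndepFun s P) (k N H : ℕ) : Orth k N H P (fun ω => fs fun p => s p ω) 0 := by
  refine ⟨le_rfl, fun n => Pool.Agent.N282.EH.Mom_fs_meas s hm n, fun ω n => Pool.Agent.N282.EH.Mom_fs_le _ (fun p => hs p ω) n,
    fun ω n hn => Pool.Agent.N282.EH.Mom_fs_nsq _ n hn, ?_⟩
  intro L a _ _ _ hsq
  rw [Pool.Agent.N282.EH.Mom_rnd P s hm hs h0 hi L a hsq, abs_zero]

/-- the sum of the moments -/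
noncomputable def Rs_G (k : ℕ) (W : ℕ → Finset (ℕ → ℂ)) (F : ℕ → ℝ) (q : ℕ × ℕ) : ℝ :=
  ∑ n ∈ Finset.range (2 ^ q.2), Z k (q.1 + 1) (W (q.1 + 1)) F n

theorem Rs_G_nonneg (k : ℕ) (W : ℕ → Finset (ℕ → ℂ)) (F : ℕ → ℝ) (q : ℕ × ℕ) : 0 ≤ Rs_G k W F q :=
  Finset.sum_nonneg fun n _ => Pb_Z_nonneg _ _ _ _ _

theorem Rs_bc {Ω : Type} [MeasurableSpace Ω] (P : Measure Ω) [IsProbabilityMeasure P] (B : ℕ × ℕ → Set Ω) (K : ℝ)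
    (hK : 0 < K)
    (hBle : ∀ q, (P (B q)).toReal ≤ K * ((1 / ((q.1 : ℝ) + 1) ^ 2) * (1 / ((q.2 : ℝ) + 1) ^ 2))) :
    ∀ᵐ ω ∂P, {q | ω ∈ B q}.Finite := by
  have hsum : ∑' q, P (B q) ≠ ⊤ := by
    have hs1 : Summable fun i : ℕ => 1 / ((i : ℝ) + 1) ^ 2 := by
      have := (summable_nat_add_iff 1).2 (Real.summable_one_div_nat_pow.2 (by norm_num : 1 < 2))
      simpa using this
    have hs2 : Summable fun q : ℕ × ℕ => K * ((1 / ((q.1 : ℝ) + 1) ^ 2) * (1 / ((q.2 : ℝ) + 1) ^ 2)) :=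
      (hs1.mul_of_nonneg hs1 (fun _ => by positivity) (fun _ => by positivity)).mul_left K
    have h2 : ∀ q, P (B q) ≤ ENNReal.ofReal (K * ((1 / ((q.1 : ℝ) + 1) ^ 2) * (1 / ((q.2 : ℝ) + 1) ^ 2))) := by
      intro q
      rw [← ENNReal.ofReal_toReal (measure_ne_top P (B q))]
      exact ENNReal.ofReal_le_ofReal (hBle q)
    refine ne_top_of_le_ne_top ?_ (ENNReal.tsum_le_tsum h2)
    rw [← ENNReal.ofReal_tsum_of_nonneg (fun q => by positivity) hs2]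
    exact ENNReal.ofReal_ne_top
  exact ae_finite_setOfPred_mem hsum

theorem Rs_fin (S : Finset (ℕ × ℕ)) (G : ℕ × ℕ → ℝ) (hG : ∀ q, 0 ≤ G q) (M : ℝ) (e : ℕ)
    (h : ∀ q, q ∉ S → G q ≤ M * 2 ^ q.2 * ((q.1 + 1 : ℕ) : ℝ) ^ e) (hM : 0 ≤ M) :
    ∃ T : ℝ, 0 ≤ T ∧ ∀ q, G q ≤ T * ((q.1 + 1 : ℕ) : ℝ) ^ e * 2 ^ q.2 := by
  have h0 : 0 ≤ ∑ q ∈ S, G q := Finset.sum_nonneg fun q _ => hG q
  refine ⟨M + ∑ q ∈ S, G q, by positivity, fun q => ?_⟩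
  have h1 : (1 : ℝ) ≤ ((q.1 + 1 : ℕ) : ℝ) ^ e := one_le_pow₀ (by push_cast; linarith [Nat.cast_nonneg (α := ℝ) q.1])
  have h2 : (1 : ℝ) ≤ 2 ^ q.2 := one_le_pow₀ (by norm_num)
  have h3 : 1 ≤ ((q.1 + 1 : ℕ) : ℝ) ^ e * 2 ^ q.2 := by nlinarith
  by_cases hq : q ∈ S
  · have h4 : G q ≤ ∑ q ∈ S, G q := Finset.single_le_sum (fun q _ => hG q) hq
    calc G q ≤ (M + ∑ q ∈ S, G q) * 1 := by linarith
      _ ≤ (M + ∑ q ∈ S, G q) * (((q.1 + 1 : ℕ) : ℝ) ^ e * 2 ^ q.2) := mul_le_mul_of_nonneg_left h3 (by positivity)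
      _ = _ := by ring
  · refine (h q hq).trans ?_
    have h5 : 0 ≤ (∑ q ∈ S, G q) * (((q.1 + 1 : ℕ) : ℝ) ^ e * 2 ^ q.2) := by positivity
    nlinarith

/-- almost surely the moments are small at all places, for nets of polynomial size -/
theorem Rs_Z (hMM : S_MM) (hT : S_TTB) (hP : S_PR) {Ω : Type} [iM : MeasurableSpace Ω] (P : Measure Ω)
    [IsProbabilityMeasure P] (s : ℕ → Ω → ℝ)
    (hm : ∀ p, Measurable (s p)) (hs : ∀ p ω, s p ω = 1 ∨ s p ω = -1) (h0 : ∀ p, ∫ ω, s p ω ∂P = 0)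
    (hi : ProbabilityTheory.iIndepFun s P) (k Cw : ℕ) (hk : 1 ≤ k) (W : ℕ → Finset (ℕ → ℂ))
    (hW : ∀ H, ∀ w ∈ W H, ∀ h, ‖w h‖ ≤ 1) (hWc : ∀ H, 1 ≤ H → ((W H).card : ℝ) ≤ Cw * (H : ℝ) ^ Cw) :
    ∀ᵐ ω ∂P, ∃ T : ℝ, 0 ≤ T ∧ ∀ H j : ℕ, 1 ≤ H →
      ∑ n ∈ Finset.range (2 ^ j), Z k H (W H) (fs fun p => s p ω) n ≤ T * (H : ℝ) ^ (k + Cw + 5) * 2 ^ j := by
  obtain ⟨M, K, hM, hK, hPb⟩ := Pb_main hMM hT hP k 2 Cw hk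
  have hBle : ∀ q : ℕ × ℕ, (P {ω | M * 2 ^ q.2 * ((q.1 + 1 : ℕ) : ℝ) ^ (k + Cw + 2 + 3) <
      Rs_G k W (fs fun p => s p ω) q}).toReal ≤ K * ((1 / ((q.1 : ℝ) + 1) ^ 2) * (1 / ((q.2 : ℝ) + 1) ^ 2)) := by
    intro q
    have h1 := hPb (q.1 + 1) q.2 (by omega) Ω iM P inferInstance (fun ω => fs fun p => s p ω) 0
      (Rs_orth P s hm hs h0 hi k (2 ^ q.2) (q.1 + 1)) (W (q.1 + 1)) (hW _) (hWc _ (by omega))
    rw [zero_mul, zero_mul, add_zero] at h1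
    refine h1.trans (le_of_eq ?_)
    push_cast
    field_simp
  filter_upwards [Rs_bc P _ K hK hBle] with ω hω
  obtain ⟨T, hT0, hT1⟩ := Rs_fin hω.toFinset (Rs_G k W (fs fun p => s p ω)) (Rs_G_nonneg _ _ _) M (k + Cw + 2 + 3)
    (by
      intro q hq
      rw [Set.Finite.mem_toFinset] at hq
      exact not_lt.1 hq) hM.le
  refine ⟨T, hT0, fun H j hH => ?_⟩
  obtain ⟨H', rfl⟩ : ∃ H', H = H' + 1 := ⟨H - 1, by omega⟩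
  exact hT1 (H', j)

/-- the conclusion for a class -/
def Conc (𝒜 : Set (ℕ → ℂ)) (F : ℕ → ℝ) (N H : ℕ) (Y : ℝ) : Prop :=
  ∀ a : ℕ → ℕ → ℂ, (∀ n, a n ∈ 𝒜) →
    ∑ n ∈ Finset.Icc 1 N, ‖∑ h ∈ Finset.Icc 1 H, a n h * (F (n + h) : ℂ)‖ ≤ 2 * N * Y ∧
    (2 ≤ N → ∑ n ∈ Finset.Icc 1 N, ‖∑ h ∈ Finset.Icc 1 H, a n h * (F (n + h) : ℂ)‖ / n ≤ 8 * Real.log N * Y)

/-- from the moments to the class -/
theorem Conc_of_Z (𝒜 : Set (ℕ → ℂ)) (F : ℕ → ℝ) (hF : ∀ n, |F n| ≤ 1) (k N H : ℕ) (hk : 1 ≤ k) (hN : 1 ≤ N)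
    (W : Finset (ℕ → ℂ)) (T E : ℝ)
    (hA : ∀ a ∈ 𝒜, ∃ w ∈ W, ∑ h ∈ Finset.Icc 1 H, ‖a h - w h‖ ≤ E)
    (hZ : ∀ j, 2 ^ j ≤ 2 * N → ∑ n ∈ Finset.range (2 ^ j), Z k H W F n ≤ T * 2 ^ j) :
    Conc 𝒜 F N H (T ^ (1 / (2 * k : ℝ)) + E) := by
  intro a ha
  have key : ∀ j : ℕ, 2 ^ j ≤ 2 * N →
      ∑ n ∈ Finset.range (2 ^ j), ‖∑ h ∈ Finset.Icc 1 H, a n h * (F (n + h) : ℂ)‖ ≤
        2 ^ j * (T ^ (1 / (2 * k : ℝ)) + E) := by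
    intro j hj
    refine Dt_avg k H j hk F W T E (hZ j hj) _ fun n => ?_
    obtain ⟨w, hw, hwa⟩ := hA (a n) (ha n)
    refine ⟨w, hw, ?_⟩
    have e1 : ∑ h ∈ Finset.Icc 1 H, a n h * (F (n + h) : ℂ) =
        ∑ h ∈ Finset.Icc 1 H, w h * (F (n + h) : ℂ) + ∑ h ∈ Finset.Icc 1 H, (a n h - w h) * (F (n + h) : ℂ) := by
      rw [← Finset.sum_add_distrib]
      refine Finset.sum_congr rfl fun h _ => ?_
      ring
    rw [e1]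
    refine (norm_add_le _ _).trans ?_
    refine add_le_add le_rfl ?_
    refine (norm_sum_le _ _).trans (le_trans (Finset.sum_le_sum fun h _ => ?_) hwa)
    rw [norm_mul, Complex.norm_real, Real.norm_eq_abs]
    exact mul_le_of_le_one_right (norm_nonneg _) (hF _)
  exact ⟨Dt_sum N hN _ _ (fun n => norm_nonneg _) key, fun h2 => Dt_log N h2 _ _ (fun n => norm_nonneg _) key⟩

theorem Rs_rpow (T : ℝ) (hT : 0 ≤ T) (k e H : ℕ) (hk : 1 ≤ k) (hH : 1 ≤ H) (ε : ℝ) (he : (e : ℝ) ≤ 2 * k * ε) :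
    (T * (H : ℝ) ^ (k + e)) ^ (1 / (2 * k : ℝ)) ≤ (T + 1) * (H : ℝ) ^ (1 / 2 + ε) := by
  have hk0 : (0 : ℝ) < k := by exact_mod_cast hk
  have hH1 : (1 : ℝ) ≤ H := by exact_mod_cast hH
  have hH0 : (0 : ℝ) ≤ H := by linarith
  have hk1 : (1 : ℝ) ≤ k := by exact_mod_cast hk
  rw [Real.mul_rpow hT (by positivity)]
  refine mul_le_mul ?_ ?_ (by positivity) (by positivity)
  · have h1 : T ^ (1 / (2 * k : ℝ)) ≤ (T + 1) ^ (1 / (2 * k : ℝ)) :=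
      Real.rpow_le_rpow hT (by linarith) (by positivity)
    refine h1.trans ?_
    calc (T + 1) ^ (1 / (2 * k : ℝ)) ≤ (T + 1) ^ (1 : ℝ) :=
          Real.rpow_le_rpow_of_exponent_le (by linarith) (by rw [div_le_one (by positivity)]; linarith)
      _ = T + 1 := Real.rpow_one _
  · rw [← Real.rpow_natCast, ← Real.rpow_mul hH0]
    refine Real.rpow_le_rpow_of_exponent_le hH1 ?_
    push_cast
    rw [mul_one_div, div_le_iff₀ (by positivity)]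
    nlinarith

/-- random signs, a class with nets of polynomial size -/
theorem Rs_cls (hMM : S_MM) (hT : S_TTB) (hP : S_PR) {Ω : Type} [iM : MeasurableSpace Ω] (P : Measure Ω)
    [IsProbabilityMeasure P] (s : ℕ → Ω → ℝ)
    (hm : ∀ p, Measurable (s p)) (hs : ∀ p ω, s p ω = 1 ∨ s p ω = -1) (h0 : ∀ p, ∫ ω, s p ω ∂P = 0)
    (hi : ProbabilityTheory.iIndepFun s P) (𝒜 : Set (ℕ → ℂ)) (E : ℕ → ℝ) (Cw : ℕ)
    (hcov : ∀ H : ℕ, 1 ≤ H → ∃ W : Finset (ℕ → ℂ), (W.card : ℝ) ≤ Cw * (H : ℝ) ^ Cw ∧ (∀ w ∈ W, ∀ h, ‖w h‖ ≤ 1) ∧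
      ∀ a ∈ 𝒜, ∃ w ∈ W, ∑ h ∈ Finset.Icc 1 H, ‖a h - w h‖ ≤ E H) :
    ∀ᵐ ω ∂P, ∀ ε : ℝ, 0 < ε → ∃ C : ℝ, 0 ≤ C ∧ ∀ N H : ℕ, 1 ≤ N → 1 ≤ H →
      Conc 𝒜 (fs fun p => s p ω) N H (C * (H : ℝ) ^ (1 / 2 + ε) + E H) := by
  have hcov' : ∀ H : ℕ, ∃ W : Finset (ℕ → ℂ), (∀ w ∈ W, ∀ h, ‖w h‖ ≤ 1) ∧ (1 ≤ H →
      (W.card : ℝ) ≤ Cw * (H : ℝ) ^ Cw ∧ ∀ a ∈ 𝒜, ∃ w ∈ W, ∑ h ∈ Finset.Icc 1 H, ‖a h - w h‖ ≤ E H) := by
    intro H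
    by_cases hH : 1 ≤ H
    · obtain ⟨W, h1, h2, h3⟩ := hcov H hH
      exact ⟨W, h2, fun _ => ⟨h1, h3⟩⟩
    · exact ⟨∅, by simp, fun h => absurd h hH⟩
  choose W hW hW2 using hcov'
  have hall : ∀ᵐ ω ∂P, ∀ k : ℕ, 1 ≤ k → ∃ T : ℝ, 0 ≤ T ∧ ∀ H j : ℕ, 1 ≤ H →
      ∑ n ∈ Finset.range (2 ^ j), Z k H (W H) (fs fun p => s p ω) n ≤ T * (H : ℝ) ^ (k + Cw + 5) * 2 ^ j := by
    rw [ae_all_iff]
    intro k
    by_cases hk : 1 ≤ k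
    · filter_upwards [Rs_Z hMM hT hP P s hm hs h0 hi k Cw hk W hW (fun H hH => (hW2 H hH).1)] with ω hω _
      exact hω
    · exact Eventually.of_forall fun ω h => absurd h hk
  filter_upwards [hall] with ω hω
  intro ε hε
  set k : ℕ := ⌈((Cw + 5 : ℕ) : ℝ) / (2 * ε)⌉₊ + 1 with hk
  have hk1 : 1 ≤ k := by omega
  have hkε : ((Cw + 5 : ℕ) : ℝ) ≤ 2 * k * ε := by
    have h1 : ((Cw + 5 : ℕ) : ℝ) / (2 * ε) ≤ k := by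
      rw [hk]
      push_cast
      have := Nat.le_ceil (((Cw : ℝ) + 5) / (2 * ε))
      linarith
    rw [div_le_iff₀ (by positivity)] at h1
    linarith
  obtain ⟨T, hT0, hT1⟩ := hω k hk1
  refine ⟨T + 1, by positivity, fun N H hN hH => ?_⟩
  have h2 := Conc_of_Z 𝒜 (fs fun p => s p ω) (fun n => Pool.Agent.N282.EH.Mom_fs_le _ (fun p => hs p ω) n) k N H hk1 hN
    (W H) (T * (H : ℝ) ^ (k + Cw + 5)) (E H) (hW2 H hH).2 (fun j _ => hT1 H j hH)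
  have h3 : (T * (H : ℝ) ^ (k + Cw + 5)) ^ (1 / (2 * k : ℝ)) ≤ (T + 1) * (H : ℝ) ^ (1 / 2 + ε) := by
    have := Rs_rpow T hT0 k (Cw + 5) H hk1 hH ε hkε
    rw [← add_assoc] at this
    exact this
  intro a ha
  obtain ⟨h4, h5⟩ := h2 a ha
  have hN0 : (0 : ℝ) ≤ N := Nat.cast_nonneg _
  refine ⟨h4.trans ?_, fun hN2 => (h5 hN2).trans ?_⟩
  · exact mul_le_mul_of_nonneg_left (by linarith) (by positivity)
  · have hl : 0 ≤ Real.log N := Real.log_nonneg (by exact_mod_cast hN)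
    exact mul_le_mul_of_nonneg_left (by linarith) (by positivity)

end Pool.Agent.N282.LU
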