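import Pool.Agent.N282.GC.Defs

/-!
# Project LU: local uniformity of random multiplicative functions, statements (helper282)
-/

set_option autoImplicit false

open MeasureTheory Filter Topology Classical

namespace Pool.Agent.N282.LU

open Pool.Agent.N282.GC

/-- the number of `K`-tuples of squarefree elements of `(n, n + H]` with square product -/
noncomputable def TT (K n H : ℕ) : ℕ :=
  ((tup K (Finset.Ioc n (n + H))).filter fun a => (∀ i, Squarefree (a i)) ∧ IsSquare (∏ i, a i)).card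

/-- the number of pairs of starting points `n, m < N` and of pairs of `K`-tuples of shifts in `[1, H]` for which all
`n + h_i` and `m + h'_i` are squarefree, the product of all of them is a square, but not the product of the `n + h_i` -/
noncomputable def PR (K N H : ℕ) : ℕ :=
  ((Finset.range N ×ˢ Finset.range N ×ˢ tup K (Finset.Icc 1 H) ×ˢ tup K (Finset.Icc 1 H)).filter fun t =>
    (∀ i, Squarefree (t.1 + t.2.2.1 i)) ∧ (∀ i, Squarefree (t.2.1 + t.2.2.2 i)) ∧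
      IsSquare ((∏ i, (t.1 + t.2.2.1 i)) * ∏ i, (t.2.1 + t.2.2.2 i)) ∧ ¬ IsSquare (∏ i, (t.1 + t.2.2.1 i))).card

/-- Bonami's inequality for even moments, as a count -/
def S_BON : Prop := ∀ (k : ℕ) (A : Finset ℕ), (∀ a ∈ A, Squarefree a) →
  ((tup (2 * k) A).filter fun a => IsSquare (∏ i, a i)).card ≤ (∑ a ∈ A, (4 * k ^ 2) ^ a.primeFactors.card) ^ k

/-- the number of tuples in one window, for ALL windows -/
def S_TTB : Prop := ∀ k : ℕ, 1 ≤ k → ∃ C : ℕ, 1 ≤ C ∧ ∀ n H : ℕ, 1 ≤ H → TT (2 * k) n H ≤ C * H ^ (k + 1)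

/-- pairs of windows -/
def S_PR : Prop := ∀ K : ℕ, 1 ≤ K → ∃ c C : ℝ, 0 < c ∧ 0 < C ∧ ∀ N H : ℕ, 1 ≤ N → 1 ≤ H →
  (PR K N H : ℝ) ≤ C * (H : ℝ) ^ C * (N : ℝ) ^ (2 - c)

/-- the moment of the window `(n, n + H]` -/
noncomputable def Z (k H : ℕ) (W : Finset (ℕ → ℂ)) (F : ℕ → ℝ) (n : ℕ) : ℝ :=
  ∑ w ∈ W, ‖∑ h ∈ Finset.Icc 1 H, w h * (F (n + h) : ℂ)‖ ^ (2 * k)

/-- the moment method for a random function `F` which is nearly orthogonal: products of at most `4k` values whose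
arguments do not multiply to a square have mean at most `δ` -/
def S_MM : Prop := ∀ (k N H : ℕ), 1 ≤ k → 1 ≤ N → 1 ≤ H →
  ∀ (Ω : Type) (_ : MeasurableSpace Ω) (P : Measure Ω) (_ : IsProbabilityMeasure P) (F : Ω → ℕ → ℝ) (δ : ℝ),
    0 ≤ δ → (∀ n, Measurable fun ω => F ω n) → (∀ ω n, |F ω n| ≤ 1) → (∀ ω n, ¬ Squarefree n → F ω n = 0) →
    (∀ (L : ℕ) (a : Fin L → ℕ), L ≤ 4 * k → (∀ i, a i ≤ N + H) → (∀ i, Squarefree (a i)) →
      ¬ IsSquare (∏ i, a i) → |∫ ω, ∏ i, F ω (a i) ∂P| ≤ δ) →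
    ∀ W : Finset (ℕ → ℂ), (∀ w ∈ W, ∀ h, ‖w h‖ ≤ 1) →
      (∀ n < N, ∫ ω, Z k H W (F ω) n ∂P ≤ W.card * (TT (2 * k) n H + δ * (H : ℝ) ^ (2 * k))) ∧
      ∀ l : ℝ, 0 < l →
        (P {ω | (W.card : ℝ) * (∑ n ∈ Finset.range N, (TT (2 * k) n H : ℝ)) + l <
          ∑ n ∈ Finset.range N, Z k H W (F ω) n}).toReal ≤
        (W.card : ℝ) ^ 2 * (PR (2 * k) N H + δ * (N : ℝ) ^ 2 * (H : ℝ) ^ (4 * k)) / l ^ 2

end Pool.Agent.N282.LU
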